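import Pool.Agent.Lib.Mor.Defs

/-!
THE ACTION ON FORMS.
-/

namespace Pool.Agent.Lib.Mor

open Matrix

theorem rm_mul {m : ℕ} (g h : Gm m) : rm (g * h) = rm g * rm h := by
  unfold rm
  rw [Units.val_mul]
  exact Matrix.map_mul (f := Int.castRingHom ℝ)

theorem rm_one {m : ℕ} : rm (1 : Gm m) = 1 := by
  unfold rm
  rw [Units.val_one]
  exact Matrix.map_one (fun z : ℤ => (z : ℝ)) (by simp) (by simp)

theorem act_mul {m : ℕ} (g h : Gm m) (x : Vm m) : act (g * h) x = act g (act h x) := by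
  change (rm (g * h)⁻¹)ᵀ * x * rm (g * h)⁻¹ = (rm g⁻¹)ᵀ * ((rm h⁻¹)ᵀ * x * rm h⁻¹) * rm g⁻¹
  rw [_root_.mul_inv_rev, rm_mul, transpose_mul]
  simp only [Matrix.mul_assoc]

theorem act_one {m : ℕ} (x : Vm m) : act (1 : Gm m) x = x := by
  change (rm (1 : Gm m)⁻¹)ᵀ * x * rm (1 : Gm m)⁻¹ = x
  rw [inv_one, rm_one, transpose_one, Matrix.one_mul, Matrix.mul_one]

theorem act_act_inv {m : ℕ} (g : Gm m) (x : Vm m) : act g (act g⁻¹ x) = x := by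
  rw [← act_mul, mul_inv_cancel, act_one]

theorem sy_act {m : ℕ} (g : Gm m) (x : Vm m) : sy (act g x) = act g (sy x) := by
  change (rm g⁻¹)ᵀ * x * rm g⁻¹ + ((rm g⁻¹)ᵀ * x * rm g⁻¹)ᵀ = (rm g⁻¹)ᵀ * (x + xᵀ) * rm g⁻¹
  rw [transpose_mul, transpose_mul, transpose_transpose, Matrix.mul_add, Matrix.add_mul,
    Matrix.mul_assoc (rm g⁻¹)ᵀ xᵀ]

theorem crs_surj {m : ℕ} (g : Gm m) :
    Function.Surjective (crs ∘ₗ act g ∘ₗ sy : Vm m →ₗ[ℝ] (Fin (2 * m) → ℝ)) := by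
  intro y
  let X : Matrix (Fin 2) (Fin m) ℝ := Matrix.of fun a b => y (finProdFinEquiv (a, b))
  let z : Vm m := (1 / 2 : ℝ) • fromBlocks 0 X Xᵀ 0
  have hz : sy z = fromBlocks 0 X Xᵀ 0 := by
    change z + zᵀ = _
    have h1 : zᵀ = z := by
      change ((1 / 2 : ℝ) • fromBlocks 0 X Xᵀ 0 : Vm m)ᵀ = (1 / 2 : ℝ) • fromBlocks 0 X Xᵀ 0
      rw [transpose_smul, fromBlocks_transpose]
      simp
    rw [h1, ← two_smul ℝ z]
    change (2 : ℝ) • ((1 / 2 : ℝ) • fromBlocks 0 X Xᵀ 0 : Vm m) = _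
    rw [smul_smul]
    norm_num
  refine ⟨act g⁻¹ z, ?_⟩
  change crs (act g (sy (act g⁻¹ z))) = y
  rw [sy_act, act_act_inv, hz]
  funext k
  change (fromBlocks 0 X Xᵀ 0 : Vm m) (Sum.inl (finProdFinEquiv.symm k).1)
    (Sum.inr (finProdFinEquiv.symm k).2) = y k
  rw [fromBlocks_apply₁₂]
  change y (finProdFinEquiv ((finProdFinEquiv.symm k).1, (finProdFinEquiv.symm k).2)) = y k
  rw [Prod.mk.eta, Equiv.apply_symm_apply]

end Pool.Agent.Lib.Mor
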