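import Pool.Agent.Lib.Mor.Defs

/-!
GENERIC TUPLES (150 lines).
CONSTRUCTION. For `S : Set V` let `T(S) = {(h, l) : h : ι, l : List (ι × V), l.length < N, all second components of l in S}`. If `S` is countable, `T(S)` is countable, and it is nonempty (`l = []`, `0 < N`). For `(h, l)` let
`W(h,l) = (span ℝ {P a x | (a,x) ∈ l}).comap (P h)`, a subspace of `V`. It is `<> ⊤`: otherwise,
`P h` being surjective, the span would be everything, but it is spanned by at most `l.length < N` vectors
(`finrank_span_le_card` / `finrank_span_finset_le_card` after `l.toFinset`-like image; `finrank (Fin N → ℝ) = N`).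
`bad S` = an enumeration of `{W t | t ∈ T(S)}` by ℕ if `S` is countable (`Set.Countable.exists_eq_range`, the
set is nonempty and countable), and arbitrary (e.g. constant ⊥) otherwise.
PROPERTY. Let `v` be as in the statement, `f` strictly monotone, `h : Fin N → ι`. Show by induction on `r ≤ N` that the
vectors `P (h a) (v (f a))`, `a < r`, are linearly independent: the new vector
`P (h r) (v (f r))` is not in the span of the earlier ones, because these are `P (h a) (v (f a))`, `a < r`,
with `v (f a) ∈ v '' Set.Iio (f r)`, their list has length `r < N`, and `v (f r)` is not in the corresponding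
`W` (the set `v '' Iio (f r)` is finite, so countable, and that `W` is some `bad (v '' Iio (f r)) n`)
(`linearIndependent_fin_snoc` / `linearIndependent_finSucc'`, or: `linearIndependent_iff_forall_notMem_span_lt`-type lemmas; `LinearIndependent` of a family
indexed by `Fin N` such that no member is in the span of the earlier ones). Then the determinant is nonzero
(`Matrix.linearIndependent_rows_iff_isUnit`, `Matrix.isUnit_iff_isUnit_det`).
-/

namespace Pool.Agent.Lib.Mor

open Matrix

private def Bad_T {V : Type} (ι : Type) (N : ℕ) (S : Set V) : Type :=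
  ι × (Σ r : Fin N, (Fin r → ι × S))

private def Bad_W {V ι : Type} [AddCommGroup V] [Module ℝ V] {N : ℕ}
    (P : ι → V →ₗ[ℝ] (Fin N → ℝ)) {S : Set V} (t : Bad_T ι N S) : Submodule ℝ V :=
  (Submodule.span ℝ (Set.range fun a => P (t.2.2 a).1 (t.2.2 a).2.1)).comap (P t.1)

private theorem Bad_W_ne_top {V ι : Type} [AddCommGroup V] [Module ℝ V] {N : ℕ}
    (P : ι → V →ₗ[ℝ] (Fin N → ℝ)) (hP : ∀ i, Function.Surjective (P i)) {S : Set V}
    (t : Bad_T ι N S) : Bad_W P t ≠ ⊤ := by
  intro h
  have h1 : Submodule.span ℝ (Set.range fun a => P (t.2.2 a).1 (t.2.2 a).2.1) = ⊤ := by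
    rw [eq_top_iff]
    intro y _
    obtain ⟨x, rfl⟩ := hP t.1 y
    have : x ∈ Bad_W P t := by rw [h]; trivial
    exact this
  have h2 : Module.finrank ℝ (Submodule.span ℝ
      (Set.range fun a => P (t.2.2 a).1 (t.2.2 a).2.1)) ≤ Fintype.card (Fin t.2.1) :=
    finrank_range_le_card _
  rw [h1, finrank_top, Module.finrank_fin_fun, Fintype.card_fin] at h2
  exact absurd t.2.1.2 (not_lt.mpr h2)

theorem exists_bad {V ι : Type} [AddCommGroup V] [Module ℝ V] [Countable ι] [Nonempty ι] {N : ℕ}
    (hN : 0 < N) (P : ι → V →ₗ[ℝ] (Fin N → ℝ)) (hP : ∀ i, Function.Surjective (P i)) :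
    ∃ bad : Set V → ℕ → Submodule ℝ V, (∀ S : Set V, S.Countable → ∀ n, bad S n ≠ ⊤) ∧
      ∀ (k : ℕ) (v : Fin k → V), (∀ j n, v j ∉ bad (v '' Set.Iio j) n) →
        ∀ (f : Fin N → Fin k), StrictMono f → ∀ h : Fin N → ι,
          Matrix.det (Matrix.of fun a : Fin N => P (h a) (v (f a))) ≠ 0 := by
  have key : ∀ S : Set V, ∃ B : ℕ → Submodule ℝ V, S.Countable →
      ((∀ n, B n ≠ ⊤) ∧ ∀ t : Bad_T ι N S, ∃ n, B n = Bad_W P t) := by
    intro S
    by_cases hS : S.Countable
    · have : Countable S := hS.to_subtype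
      have : Countable (Bad_T ι N S) := by unfold Bad_T; infer_instance
      have : Nonempty (Bad_T ι N S) :=
        ⟨(Classical.arbitrary ι, ⟨⟨0, hN⟩, fun a => a.elim0⟩)⟩
      obtain ⟨e, he⟩ := exists_surjective_nat (Bad_T ι N S)
      refine ⟨fun n => Bad_W P (e n), fun _ => ⟨fun n => Bad_W_ne_top P hP _, fun t => ?_⟩⟩
      obtain ⟨n, hn⟩ := he t
      exact ⟨n, by simp only [hn]⟩
    · exact ⟨fun _ => ⊥, fun h => absurd h hS⟩
  choose bad hbad using key
  refine ⟨bad, fun S hS => (hbad S hS).1, ?_⟩
  intro k v hv f hf h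
  have hli : ∀ r : ℕ, ∀ hr : r ≤ N, LinearIndependent ℝ
      (fun a : Fin r => P (h (Fin.castLE hr a)) (v (f (Fin.castLE hr a)))) := by
    intro r
    induction r with
    | zero => intro hr; exact linearIndependent_empty_type
    | succ r ih =>
      intro hr
      rw [linearIndependent_finSucc']
      refine ⟨ih (Nat.le_of_succ_le hr), ?_⟩
      intro hmem
      set j : Fin N := Fin.castLE hr (Fin.last r) with hj
      have hcount : (v '' Set.Iio (f j)).Countable := (Set.toFinite _).countable
      have hlt : ∀ a : Fin r, Fin.castLE (Nat.le_of_succ_le hr) a < j := by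
        intro a
        rw [Fin.lt_def]
        simp [hj]
      obtain ⟨n, hn⟩ := (hbad _ hcount).2
        (h j, ⟨⟨r, hr⟩, fun a => (h (Fin.castLE (Nat.le_of_succ_le hr) a),
          ⟨v (f (Fin.castLE (Nat.le_of_succ_le hr) a)), ⟨_, hf (hlt a), rfl⟩⟩)⟩)
      apply hv (f j) n
      rw [hn]
      exact hmem
  have h1 := hli N le_rfl
  have h2 : LinearIndependent ℝ (fun a : Fin N => P (h a) (v (f a))) := by simpa using h1
  have h3 : IsUnit (Matrix.of fun a : Fin N => P (h a) (v (f a))) := by
    rw [← Matrix.linearIndependent_rows_iff_isUnit]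
    exact h2
  exact ((Matrix.isUnit_iff_isUnit_det _).mp h3).ne_zero

end Pool.Agent.Lib.Mor
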