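import Pool.Agent.Lib.Mor.Defs
import Pool.Agent.Lib.Mor.Act

/-!
BOUNDS FOR FORMS (140 lines).
PROOFS. Bd_conv: `v ⬝ᵥ (∑ w i • Q i) *ᵥ v = ∑ w i * (v ⬝ᵥ Q i *ᵥ v)` is between `∑ w i * c |v|² = c |v|²` and `C |v|²`; symmetric.
Bd_act: `v ⬝ᵥ (act g Q) *ᵥ v = u ⬝ᵥ Q *ᵥ u` with `u = rm g⁻¹ *ᵥ v`. There are `a, b > 0` with `a |v|² <= |rm g⁻¹ v|² <= b |v|²`
for all `v`: upper bound: `|B v|² <= (∑ i j, (B i j)²) |v|²` (Cauchy-Schwarz, `Finset.sum_mul_sq_le_sq_mul_sq`); put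
`b = 1 + ∑ (B i j)²`; lower bound: `v = rm g *ᵥ u`, so `|v|² <= b' |u|²` with `b' = 1 + ∑ (rm g i j)²`, `a = 1/b'`. Take `c' = c a`,
`C' = |C| b` (the upper bound `u ⬝ᵥ Q *ᵥ u <= C |u|² <= |C| |u|² <= |C| b |v|²`). Symmetric: `(Gᵀ Q G)ᵀ = Gᵀ Q G`.
Bd_mono: `v ⬝ᵥ v >= 0`. Bd_act_fin: take the minimum of the `c'` and the maximum of the `C'` over the finite index type
(choose functions; `Finite.exists_min`/`exists_max` or induction; if `κ` is empty take `c' = 1`).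
-/

namespace Pool.Agent.Lib.Mor

open Matrix

private theorem BdAct_nn {m : ℕ} (v : Ix m → ℝ) : 0 ≤ v ⬝ᵥ v :=
  Finset.sum_nonneg fun i _ => mul_self_nonneg _

theorem Bd_conv {m k : ℕ} {c C : ℝ} (w : Fin k → ℝ) (hw : ∀ i, 0 ≤ w i) (h1 : ∑ i, w i = 1)
    (Q : Fin k → Vm m) (hQ : ∀ i, Bd c C (Q i)) : Bd c C (∑ i, w i • Q i) := by
  constructor
  · rw [transpose_sum]
    refine Finset.sum_congr rfl fun i _ => ?_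
    rw [transpose_smul, (hQ i).1]
  · intro v
    have h : v ⬝ᵥ ((∑ i, w i • Q i) *ᵥ v) = ∑ i, w i * (v ⬝ᵥ (Q i *ᵥ v)) := by
      rw [Matrix.sum_mulVec, dotProduct_sum]
      refine Finset.sum_congr rfl fun i _ => ?_
      rw [smul_mulVec, dotProduct_smul, smul_eq_mul]
    rw [h]
    constructor
    · calc c * (v ⬝ᵥ v) = ∑ i, w i * (c * (v ⬝ᵥ v)) := by rw [← Finset.sum_mul, h1, one_mul]
        _ ≤ _ := Finset.sum_le_sum fun i _ => mul_le_mul_of_nonneg_left ((hQ i).2 v).1 (hw i)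
    · calc ∑ i, w i * (v ⬝ᵥ (Q i *ᵥ v)) ≤ ∑ i, w i * (C * (v ⬝ᵥ v)) :=
            Finset.sum_le_sum fun i _ => mul_le_mul_of_nonneg_left ((hQ i).2 v).2 (hw i)
        _ = _ := by rw [← Finset.sum_mul, h1, one_mul]

theorem Bd_mono {m : ℕ} {c C c' C' : ℝ} (hc : c' ≤ c) (hC : C ≤ C') {Q : Vm m} (h : Bd c C Q) :
    Bd c' C' Q :=
  ⟨h.1, fun v => ⟨(mul_le_mul_of_nonneg_right hc (BdAct_nn v)).trans (h.2 v).1,
    (h.2 v).2.trans (mul_le_mul_of_nonneg_right hC (BdAct_nn v))⟩⟩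

private theorem BdAct_mv {m : ℕ} (B : Vm m) (v : Ix m → ℝ) :
    (B *ᵥ v) ⬝ᵥ (B *ᵥ v) ≤ (1 + ∑ i, ∑ j, (B i j) ^ 2) * (v ⬝ᵥ v) := by
  have h1 : ∀ i, (B *ᵥ v) i * (B *ᵥ v) i ≤ (∑ j, (B i j) ^ 2) * (v ⬝ᵥ v) := by
    intro i
    have h := Finset.sum_mul_sq_le_sq_mul_sq (Finset.univ) (fun j => B i j) v
    have h2 : v ⬝ᵥ v = ∑ j, (v j) ^ 2 := by
      unfold dotProduct
      exact Finset.sum_congr rfl fun j _ => (sq (v j)).symm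
    have h3 : (B *ᵥ v) i * (B *ᵥ v) i = (∑ j, B i j * v j) ^ 2 := by
      rw [sq]; rfl
    rw [h2, h3]
    exact h
  have h2 : (B *ᵥ v) ⬝ᵥ (B *ᵥ v) ≤ ∑ i, (∑ j, (B i j) ^ 2) * (v ⬝ᵥ v) :=
    Finset.sum_le_sum fun i _ => h1 i
  rw [← Finset.sum_mul] at h2
  have h3 := BdAct_nn v
  rw [add_mul, one_mul]
  linarith

private theorem BdAct_pos {m : ℕ} (B : Vm m) : 0 < 1 + ∑ i, ∑ j, (B i j) ^ 2 := by
  have : 0 ≤ ∑ i, ∑ j, (B i j) ^ 2 :=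
    Finset.sum_nonneg fun i _ => Finset.sum_nonneg fun j _ => sq_nonneg _
  linarith

theorem Bd_act {m : ℕ} {c C : ℝ} (hc : 0 < c) (g : Gm m) :
    ∃ c' C' : ℝ, 0 < c' ∧ ∀ Q : Vm m, Bd c C Q → Bd c' C' (act g Q) := by
  set b : ℝ := 1 + ∑ i, ∑ j, (rm g⁻¹ i j) ^ 2 with hb
  set b' : ℝ := 1 + ∑ i, ∑ j, (rm g i j) ^ 2 with hb'
  have pb : 0 < b := BdAct_pos _
  have pb' : 0 < b' := BdAct_pos _
  refine ⟨c / b', |C| * b, div_pos hc pb', fun Q hQ => ⟨?_, fun v => ?_⟩⟩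
  · change ((rm g⁻¹)ᵀ * Q * rm g⁻¹)ᵀ = (rm g⁻¹)ᵀ * Q * rm g⁻¹
    rw [transpose_mul, transpose_mul, transpose_transpose, hQ.1, mul_assoc]
  · have hu : v ⬝ᵥ ((act g Q) *ᵥ v) = (rm g⁻¹ *ᵥ v) ⬝ᵥ (Q *ᵥ (rm g⁻¹ *ᵥ v)) := by
      change v ⬝ᵥ (((rm g⁻¹)ᵀ * Q * rm g⁻¹) *ᵥ v) = _
      rw [← mulVec_mulVec, ← mulVec_mulVec, dotProduct_mulVec, vecMul_transpose]
    have hv : rm g *ᵥ (rm g⁻¹ *ᵥ v) = v := by
      rw [mulVec_mulVec, ← rm_mul, mul_inv_cancel, rm_one, one_mulVec]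
    have k1 := BdAct_mv (rm g⁻¹) v
    have k2 := BdAct_mv (rm g) (rm g⁻¹ *ᵥ v)
    rw [hv] at k2
    have k3 := hQ.2 (rm g⁻¹ *ᵥ v)
    have k4 := BdAct_nn (rm g⁻¹ *ᵥ v)
    rw [hu]
    generalize (rm g⁻¹ *ᵥ v) ⬝ᵥ (rm g⁻¹ *ᵥ v) = U at *
    generalize (rm g⁻¹ *ᵥ v) ⬝ᵥ (Q *ᵥ (rm g⁻¹ *ᵥ v)) = W at *
    generalize v ⬝ᵥ v = V at *
    constructor
    · refine le_trans ?_ k3.1
      rw [div_mul_eq_mul_div, div_le_iff₀ pb', mul_assoc]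
      refine mul_le_mul_of_nonneg_left ?_ hc.le
      rw [mul_comm]; exact k2
    · calc W ≤ C * U := k3.2
        _ ≤ |C| * U := mul_le_mul_of_nonneg_right (le_abs_self C) k4
        _ ≤ |C| * (b * V) := mul_le_mul_of_nonneg_left k1 (abs_nonneg C)
        _ = |C| * b * V := by ring

theorem Bd_act_fin {m : ℕ} {κ : Type} [Finite κ] {c C : ℝ} (hc : 0 < c) (g : κ → Gm m) :
    ∃ c' C' : ℝ, 0 < c' ∧ ∀ i, ∀ Q : Vm m, Bd c C Q → Bd c' C' (act (g i) Q) := by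
  choose cf Cf h1 h2 using fun i => Bd_act (C := C) hc (g i)
  rcases isEmpty_or_nonempty κ with hk | hk
  · exact ⟨1, 1, one_pos, fun i => (hk.false i).elim⟩
  · obtain ⟨i0, hi0⟩ := Finite.exists_min cf
    obtain ⟨i1, hi1⟩ := Finite.exists_max Cf
    exact ⟨cf i0, Cf i1, h1 i0, fun i Q hQ => Bd_mono (hi0 i) (hi1 i) (h2 i Q hQ)⟩

end Pool.Agent.Lib.Mor
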