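import Pool.Agent.Lib.Mor.Defs

/-!
A NONEMPTY OPEN SET IS NOT COVERED BY COUNTABLY MANY PROPER SUBSPACES (70 lines).
PROOF: work in `E = n → n → ℝ` (definitionally equal to `Matrix n n ℝ`, with the same topology), with `MeasureTheory.volume`. A proper
subspace has measure 0 (`MeasureTheory.Measure.addHaar_submodule`), so the union of the `S k` has measure 0
(`MeasureTheory.measure_iUnion_null`), and a nonempty open set has positive measure
(`IsOpen.measure_pos`). So `U` is not contained in the union. (Or Baire: proper subspaces are closed with empty interior.)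
-/

namespace Pool.Agent.Lib.Mor

open Matrix

private theorem big_open_pi {n : Type} [Fintype n] (U : Set (n → n → ℝ)) (hU : IsOpen U)
    (hne : U.Nonempty) (S : ℕ → Submodule ℝ (n → n → ℝ)) (hS : ∀ k, S k ≠ ⊤) :
    ∃ x ∈ U, ∀ k, x ∉ S k := by
  by_contra hcon
  push Not at hcon
  have h0 : MeasureTheory.volume (⋃ k, (S k : Set (n → n → ℝ))) = 0 :=
    MeasureTheory.measure_iUnion_null fun k =>
      MeasureTheory.Measure.addHaar_submodule MeasureTheory.volume (S k) (hS k)
  have hsub : U ⊆ ⋃ k, (S k : Set (n → n → ℝ)) := by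
    intro x hx
    obtain ⟨k, hk⟩ := hcon x hx
    exact Set.mem_iUnion.2 ⟨k, hk⟩
  have h1 : MeasureTheory.volume U = 0 := MeasureTheory.measure_mono_null hsub h0
  exact absurd h1 (hU.measure_pos MeasureTheory.volume hne).ne'

theorem big_open {n : Type} [Fintype n] (U : Set (Matrix n n ℝ)) (hU : IsOpen U)
    (hne : U.Nonempty) : Big U := by
  intro S hS
  have hc : Continuous (Matrix.of : (n → n → ℝ) → Matrix n n ℝ) := continuous_id
  obtain ⟨x, hx, hxS⟩ := big_open_pi (Matrix.of ⁻¹' U) (hU.preimage hc)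
    (by
      obtain ⟨u, hu⟩ := hne
      exact ⟨Matrix.of.symm u, by simpa using hu⟩)
    (fun k => (S k).comap (Matrix.ofLinearEquiv ℝ : (n → n → ℝ) ≃ₗ[ℝ] Matrix n n ℝ).toLinearMap)
    (by
      intro k hk
      apply hS k
      rw [eq_top_iff]
      intro y _
      have hy : Matrix.of.symm y ∈ (S k).comap
          (Matrix.ofLinearEquiv ℝ : (n → n → ℝ) ≃ₗ[ℝ] Matrix n n ℝ).toLinearMap := by
        rw [hk]
        exact Submodule.mem_top
      simpa using hy)
  exact ⟨Matrix.of x, hx, fun k hk => hxS k (by simpa using hk)⟩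

end Pool.Agent.Lib.Mor
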