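import Pool.Agent.Lib.Mor.Defs
import Pool.Agent.Lib.Mor.Act

/-!
BLOCK DIAGONAL MATRICES ACT ON THE CROSS BLOCK WITH DETERMINANT 1 (120 lines).
PROOF. `h := g⁻¹ ∈ Mst m` (`Subgroup.inv_mem`), so the integer matrix `h` commutes with `E0 m`; writing
`h = fromBlocks a b c d` (`Matrix.fromBlocks_toBlocks`), `h * E0 = fromBlocks a 0 c 0`,
`E0 * h = fromBlocks a b 0 0` (`fromBlocks_multiply`), so `b = 0`, `c = 0` (`fromBlocks_inj`). `det h = det a * det d`
(`Matrix.det_fromBlocks_zero₂₁`) and `det h` is a unit of ℤ (`h` is invertible), so `det a`, `det d` are units, i.e. `±1`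
(`Int.isUnit_iff`). Let `K (k,l) (i,j) = a k i * d l j` (real), i.e. the Kronecker product
`(kroneckerMap (·*·) aR dR)` reindexed by `finProdFinEquiv` (`Matrix.reindex`); `det K = (det a)^m * (det d)^2 = 1`
(`Matrix.det_kronecker`, `Matrix.det_reindex_self`, `Fintype.card_fin`; `m` even, `(±1)^m = 1`, `(±1)^2 = 1`).
Finally `act g x = hᵀ x h`, whose upper right block is `aᵀ * x₁₂ * d`, with entry `(i,j)`
`∑ k l, a k i * x₁₂ k l * d l j = ∑_(k,l) (crs x)_(k,l) K_(k,l),(i,j)`, the vector-matrix product.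
-/

namespace Pool.Agent.Lib.Mor

open Matrix

private theorem block_form {m : ℕ} (h : Gm m) (hh : h ∈ Mst m) :
    ∃ (a : Matrix (Fin 2) (Fin 2) ℤ) (d : Matrix (Fin m) (Fin m) ℤ),
      (h : Matrix (Ix m) (Ix m) ℤ) = fromBlocks a 0 0 d ∧ IsUnit a.det ∧ IsUnit d.det := by
  have h1 : (h : Matrix (Ix m) (Ix m) ℤ) * E0 m = E0 m * (h : Matrix (Ix m) (Ix m) ℤ) := hh
  have h2 := Matrix.fromBlocks_toBlocks (h : Matrix (Ix m) (Ix m) ℤ)
  set a := (h : Matrix (Ix m) (Ix m) ℤ).toBlocks₁₁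
  set b := (h : Matrix (Ix m) (Ix m) ℤ).toBlocks₁₂
  set c := (h : Matrix (Ix m) (Ix m) ℤ).toBlocks₂₁
  set d := (h : Matrix (Ix m) (Ix m) ℤ).toBlocks₂₂
  rw [← h2, E0, fromBlocks_multiply, fromBlocks_multiply] at h1
  simp only [Matrix.mul_one, Matrix.mul_zero, Matrix.one_mul, Matrix.zero_mul, add_zero] at h1
  rw [fromBlocks_inj] at h1
  obtain ⟨-, hb, hc, -⟩ := h1
  rw [← hb, hc] at h2
  have hu : IsUnit (h : Matrix (Ix m) (Ix m) ℤ).det :=
    (Matrix.isUnit_iff_isUnit_det _).1 h.isUnit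
  rw [← h2, Matrix.det_fromBlocks_zero₂₁] at hu
  exact ⟨a, d, h2.symm, isUnit_of_mul_isUnit_left hu, isUnit_of_mul_isUnit_right hu⟩

private theorem block_det {m : ℕ} (hm : Even m) (a : Matrix (Fin 2) (Fin 2) ℤ)
    (d : Matrix (Fin m) (Fin m) ℤ) (ha : IsUnit a.det) (hd : IsUnit d.det) :
    (Matrix.kroneckerMap (fun x y : ℝ => x * y) (a.map (fun z => (z : ℝ)))
      (d.map (fun z => (z : ℝ)))).det = 1 := by
  have e1 : (a.map (fun z : ℤ => (z : ℝ))).det = (a.det : ℝ) := by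
    have := (Int.castRingHom ℝ).map_det a
    rw [eq_comm]
    exact this
  have e2 : (d.map (fun z : ℤ => (z : ℝ))).det = (d.det : ℝ) := by
    have := (Int.castRingHom ℝ).map_det d
    rw [eq_comm]
    exact this
  have := Matrix.det_kronecker (a.map (fun z : ℤ => (z : ℝ))) (d.map (fun z : ℤ => (z : ℝ)))
  refine this.trans ?_
  rw [e1, e2, Fintype.card_fin, Fintype.card_fin]
  have h1 : ((a.det : ℤ) : ℝ) ^ m = 1 := by
    rcases Int.isUnit_iff.1 ha with h | h
    · rw [h]; simp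
    · rw [h]; push_cast; exact hm.neg_one_pow
  have h2 : ((d.det : ℤ) : ℝ) ^ 2 = 1 := by
    rcases Int.isUnit_iff.1 hd with h | h
    · rw [h]; simp
    · rw [h]; norm_num
  rw [h1, h2, one_mul]

theorem block_K {m : ℕ} (hm : Even m) (g : Gm m) (hg : g ∈ Mst m) :
    ∃ K : Matrix (Fin (2 * m)) (Fin (2 * m)) ℝ, 0 < K.det ∧
      ∀ x : Vm m, crs (act g x) = (crs x) ᵥ* K := by
  obtain ⟨a, d, hh, ha, hd⟩ := block_form (g⁻¹) (Subgroup.inv_mem _ hg)
  set aR := a.map (fun z : ℤ => (z : ℝ)) with haR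
  set dR := d.map (fun z : ℤ => (z : ℝ)) with hdR
  have hrm : rm g⁻¹ = fromBlocks aR 0 0 dR := by
    rw [rm, hh, fromBlocks_map]
    congr 1 <;> (ext i j; simp)
  refine ⟨Matrix.reindex finProdFinEquiv finProdFinEquiv
    (Matrix.kroneckerMap (fun x y : ℝ => x * y) aR dR), ?_, ?_⟩
  · rw [Matrix.det_reindex_self, haR, hdR, block_det hm a d ha hd]
    exact one_pos
  · intro x
    funext k
    have hx := Matrix.fromBlocks_toBlocks x
    set p := x.toBlocks₁₁
    set q := x.toBlocks₁₂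
    set r := x.toBlocks₂₁
    set s := x.toBlocks₂₂
    have hact : act g x = fromBlocks (aRᵀ * p * aR) (aRᵀ * q * dR) (dRᵀ * r * aR)
        (dRᵀ * s * dR) := by
      show (rm g⁻¹)ᵀ * x * rm g⁻¹ = _
      rw [hrm, ← hx, fromBlocks_transpose, fromBlocks_multiply, fromBlocks_multiply]
      simp
    show (act g x) (Sum.inl (finProdFinEquiv.symm k).1) (Sum.inr (finProdFinEquiv.symm k).2) = _
    rw [hact, fromBlocks_apply₁₂, Matrix.vecMul, dotProduct,
      ← Equiv.sum_comp finProdFinEquiv, Fintype.sum_prod_type]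
    simp only [Matrix.reindex_apply, Matrix.submatrix_apply, Equiv.symm_apply_apply,
      Matrix.kroneckerMap_apply]
    have hc : ∀ (u : Fin 2) (v : Fin m), crs x (finProdFinEquiv (u, v)) = q u v := by
      intro u v
      show x (Sum.inl (finProdFinEquiv.symm (finProdFinEquiv (u, v))).1)
        (Sum.inr (finProdFinEquiv.symm (finProdFinEquiv (u, v))).2) = q u v
      rw [Equiv.symm_apply_apply]
      rfl
    simp only [hc]
    rw [Matrix.mul_apply]
    simp only [Matrix.mul_apply, Matrix.transpose_apply, Finset.sum_mul]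
    rw [Finset.sum_comm]
    refine Finset.sum_congr rfl (fun u _ => Finset.sum_congr rfl (fun v _ => ?_))
    ring

end Pool.Agent.Lib.Mor
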