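import Pool.Agent.Lib.Mor.Defs
import Pool.Agent.Lib.Mor.Act

/-!
THE INTEGER PROJECTION OF A DECOMPOSITION.
`Eof D = g E0 g⁻¹`, `g = D.out`.
-/

namespace Pool.Agent.Lib.Mor

open Matrix

/-- the projection of the decomposition `D`, an idempotent integer matrix -/
noncomputable def Eof {m : ℕ} (D : Gm m ⧸ Mst m) : Matrix (Ix m) (Ix m) ℤ :=
  (D.out : Matrix (Ix m) (Ix m) ℤ) * E0 m * ((D.out)⁻¹ : Gm m)

private theorem EofD_inv_mul {m : ℕ} (g : Gm m) :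
    ((g⁻¹ : Gm m) : Matrix (Ix m) (Ix m) ℤ) * (g : Matrix (Ix m) (Ix m) ℤ) = 1 := by
  rw [← Units.val_mul]; simp

private theorem EofD_mul_inv {m : ℕ} (g : Gm m) :
    (g : Matrix (Ix m) (Ix m) ℤ) * ((g⁻¹ : Gm m) : Matrix (Ix m) (Ix m) ℤ) = 1 := by
  rw [← Units.val_mul]; simp

private theorem EofD_E0 {m : ℕ} : E0 m * E0 m = E0 m := by
  simp [E0, fromBlocks_multiply]

private theorem EofD_conj {m : ℕ} (g h : Gm m)
    (e : (g : Matrix (Ix m) (Ix m) ℤ) * E0 m * ((g⁻¹ : Gm m) : Matrix (Ix m) (Ix m) ℤ)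
      = (h : Matrix (Ix m) (Ix m) ℤ) * E0 m * ((h⁻¹ : Gm m) : Matrix (Ix m) (Ix m) ℤ)) :
    (g : Gm m ⧸ Mst m) = (h : Gm m ⧸ Mst m) := by
  rw [QuotientGroup.eq]
  change ((g⁻¹ * h : Gm m) : Matrix (Ix m) (Ix m) ℤ) * E0 m
    = E0 m * ((g⁻¹ * h : Gm m) : Matrix (Ix m) (Ix m) ℤ)
  rw [Units.val_mul]
  have h1 := EofD_inv_mul g
  have h2 := EofD_inv_mul h
  have e1 : ((g⁻¹ : Gm m) : Matrix (Ix m) (Ix m) ℤ) *
      ((h : Matrix (Ix m) (Ix m) ℤ) * E0 m * ((h⁻¹ : Gm m) : Matrix (Ix m) (Ix m) ℤ)) *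
      (h : Matrix (Ix m) (Ix m) ℤ)
      = ((g⁻¹ : Gm m) : Matrix (Ix m) (Ix m) ℤ) *
      ((g : Matrix (Ix m) (Ix m) ℤ) * E0 m * ((g⁻¹ : Gm m) : Matrix (Ix m) (Ix m) ℤ)) *
      (h : Matrix (Ix m) (Ix m) ℤ) := by rw [e]
  calc ((g⁻¹ : Gm m) : Matrix (Ix m) (Ix m) ℤ) * (h : Matrix (Ix m) (Ix m) ℤ) * E0 m
      = ((g⁻¹ : Gm m) : Matrix (Ix m) (Ix m) ℤ) *
      ((h : Matrix (Ix m) (Ix m) ℤ) * E0 m * (((h⁻¹ : Gm m) : Matrix (Ix m) (Ix m) ℤ)) *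
      (h : Matrix (Ix m) (Ix m) ℤ)) := by
        rw [mul_assoc ((h : Matrix (Ix m) (Ix m) ℤ) * E0 m), h2, mul_one, mul_assoc]
    _ = ((g⁻¹ : Gm m) : Matrix (Ix m) (Ix m) ℤ) *
      ((g : Matrix (Ix m) (Ix m) ℤ) * E0 m * ((g⁻¹ : Gm m) : Matrix (Ix m) (Ix m) ℤ)) *
      (h : Matrix (Ix m) (Ix m) ℤ) := by rw [← e1]; simp only [mul_assoc]
    _ = (((g⁻¹ : Gm m) : Matrix (Ix m) (Ix m) ℤ) * (g : Matrix (Ix m) (Ix m) ℤ)) * E0 m *
      (((g⁻¹ : Gm m) : Matrix (Ix m) (Ix m) ℤ) * (h : Matrix (Ix m) (Ix m) ℤ)) := by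
        simp only [mul_assoc]
    _ = E0 m * (((g⁻¹ : Gm m) : Matrix (Ix m) (Ix m) ℤ) * (h : Matrix (Ix m) (Ix m) ℤ)) := by
        rw [h1, one_mul]

theorem Eof_idem {m : ℕ} (D : Gm m ⧸ Mst m) : Eof D * Eof D = Eof D := by
  have h1 := EofD_inv_mul (D.out)
  unfold Eof
  calc (D.out : Matrix (Ix m) (Ix m) ℤ) * E0 m * ((D.out)⁻¹ : Gm m) *
        ((D.out : Matrix (Ix m) (Ix m) ℤ) * E0 m * ((D.out)⁻¹ : Gm m))
      = (D.out : Matrix (Ix m) (Ix m) ℤ) * (E0 m * (((D.out)⁻¹ : Gm m) *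
        (D.out : Matrix (Ix m) (Ix m) ℤ)) * E0 m) * ((D.out)⁻¹ : Gm m) := by
        simp only [mul_assoc]
    _ = (D.out : Matrix (Ix m) (Ix m) ℤ) * E0 m * ((D.out)⁻¹ : Gm m) := by
        rw [h1, mul_one, EofD_E0]

theorem Eof_trace {m : ℕ} (D : Gm m ⧸ Mst m) : (Eof D).trace = 2 := by
  unfold Eof
  rw [Matrix.trace_mul_comm, ← mul_assoc, EofD_inv_mul, one_mul]
  simp [E0, Matrix.trace]

theorem Eof_inj {m : ℕ} : Function.Injective (Eof (m := m)) := by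
  intro D D' h
  have := EofD_conj D.out D'.out h
  rwa [QuotientGroup.out_eq', QuotientGroup.out_eq'] at this

theorem Eof_sa {m : ℕ} (D : Gm m ⧸ Mst m) (Q : Vm m) (hs : Qᵀ = Q)
    (h : crs (act (D.out)⁻¹ Q) = 0) :
    ((Eof D).map (fun z => (z : ℝ)))ᵀ * Q = Q * (Eof D).map (fun z => (z : ℝ)) := by
  set g := D.out with hg
  set R : Vm m := (rm g)ᵀ * Q * rm g with hR
  have hRs : Rᵀ = R := by
    simp only [hR, transpose_mul, transpose_transpose, hs, mul_assoc]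
  have hR12 : ∀ (a : Fin 2) (b : Fin m), R (Sum.inl a) (Sum.inr b) = 0 := by
    intro a b
    have := congrFun h (finProdFinEquiv (a, b))
    have h2 : crs (act g⁻¹ Q) (finProdFinEquiv (a, b)) = R (Sum.inl a) (Sum.inr b) := by
      change ((rm (g⁻¹)⁻¹)ᵀ * Q * rm (g⁻¹)⁻¹)
        (Sum.inl (finProdFinEquiv.symm (finProdFinEquiv (a, b))).1)
        (Sum.inr (finProdFinEquiv.symm (finProdFinEquiv (a, b))).2) = _
      rw [Equiv.symm_apply_apply, inv_inv]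
    rw [h2] at this
    simpa using this
  have hR21 : ∀ (a : Fin 2) (b : Fin m), R (Sum.inr b) (Sum.inl a) = 0 := by
    intro a b
    have := congrFun (congrFun hRs (Sum.inr b)) (Sum.inl a)
    rw [transpose_apply] at this
    rw [← this]
    exact hR12 a b
  have hRb : R = fromBlocks R.toBlocks₁₁ 0 0 R.toBlocks₂₂ := by
    conv_lhs => rw [← fromBlocks_toBlocks R]
    congr 1
    · ext a b; exact hR12 a b
    · ext b a; exact hR21 a b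
  set E : Vm m := (E0 m).map (fun z => (z : ℝ)) with hE
  have hEb : E = fromBlocks 1 0 0 0 := by
    rw [hE, E0, fromBlocks_map]
    congr 1
    · ext i j; simp [Matrix.one_apply]
    · ext i j; simp
    · ext i j; simp
    · ext i j; simp
  have hER : Eᵀ * R = R * E := by
    rw [hRb, hEb, fromBlocks_transpose, fromBlocks_multiply, fromBlocks_multiply]
    simp
  have hGi : rm g * rm g⁻¹ = 1 := by rw [← rm_mul, mul_inv_cancel, rm_one]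
  have hiG : rm g⁻¹ * rm g = 1 := by rw [← rm_mul, inv_mul_cancel, rm_one]
  have hEof : (Eof D).map (fun z => (z : ℝ)) = rm g * E * rm g⁻¹ := by
    have : ∀ M N : Matrix (Ix m) (Ix m) ℤ, (M * N).map (fun z : ℤ => (z : ℝ))
        = M.map (fun z : ℤ => (z : ℝ)) * N.map (fun z : ℤ => (z : ℝ)) := by
      intro M N
      exact Matrix.map_mul (f := Int.castRingHom ℝ)
    unfold Eof
    rw [this, this]
    rfl
  have hQ : Q = (rm g⁻¹)ᵀ * R * rm g⁻¹ := by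
    have ht : (rm g⁻¹)ᵀ * (rm g)ᵀ = 1 := by rw [← transpose_mul, hGi, transpose_one]
    calc Q = ((rm g⁻¹)ᵀ * (rm g)ᵀ) * Q * (rm g * rm g⁻¹) := by rw [ht, hGi, one_mul, mul_one]
      _ = (rm g⁻¹)ᵀ * R * rm g⁻¹ := by rw [hR]; simp only [mul_assoc]
  have ht2 : (rm g)ᵀ * (rm g⁻¹)ᵀ = 1 := by rw [← transpose_mul, hiG, transpose_one]
  rw [hEof]
  calc (rm g * E * rm g⁻¹)ᵀ * Q
      = (rm g⁻¹)ᵀ * Eᵀ * (rm g)ᵀ * ((rm g⁻¹)ᵀ * R * rm g⁻¹) := by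
        rw [← hQ]; simp only [transpose_mul, mul_assoc]
    _ = (rm g⁻¹)ᵀ * Eᵀ * ((rm g)ᵀ * (rm g⁻¹)ᵀ) * R * rm g⁻¹ := by simp only [mul_assoc]
    _ = (rm g⁻¹)ᵀ * (Eᵀ * R) * rm g⁻¹ := by rw [ht2, mul_one]; simp only [mul_assoc]
    _ = (rm g⁻¹)ᵀ * (R * E) * rm g⁻¹ := by rw [hER]
    _ = (rm g⁻¹)ᵀ * R * (rm g⁻¹ * rm g) * E * rm g⁻¹ := by
        rw [hiG, mul_one]; simp only [mul_assoc]
    _ = ((rm g⁻¹)ᵀ * R * rm g⁻¹) * (rm g * E * rm g⁻¹) := by simp only [mul_assoc]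
    _ = Q * (rm g * E * rm g⁻¹) := by rw [← hQ]

theorem Eof_tor {m : ℕ} (D : Gm m ⧸ Mst m) (e : Matrix (Fin 2) (Fin m) ℤ)
    (h : Eof D = fromBlocks 1 e 0 0) :
    ∃ v : Fin (2 * m) → ℤ, D = ((tor (Multiplicative.ofAdd v) : Gm m) : Gm m ⧸ Mst m) := by
  refine ⟨fun k => - e (finProdFinEquiv.symm k).1 (finProdFinEquiv.symm k).2, ?_⟩
  set v : Fin (2 * m) → ℤ := fun k => - e (finProdFinEquiv.symm k).1 (finProdFinEquiv.symm k).2
    with hv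
  have key : ((tor (Multiplicative.ofAdd v) : Gm m) : Matrix (Ix m) (Ix m) ℤ) * E0 m *
      (((tor (Multiplicative.ofAdd v) : Gm m)⁻¹ : Gm m) : Matrix (Ix m) (Ix m) ℤ)
      = fromBlocks 1 e 0 0 := by
    change uu v * E0 m * uu (-v) = fromBlocks 1 e 0 0
    unfold uu E0
    rw [fromBlocks_multiply, fromBlocks_multiply]
    congr 1
    · simp
    · ext a b
      have hvv : v (finProdFinEquiv (a, b)) = - e a b := by
        rw [hv]
        change - e (finProdFinEquiv.symm (finProdFinEquiv (a, b))).1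
          (finProdFinEquiv.symm (finProdFinEquiv (a, b))).2 = _
        rw [Equiv.symm_apply_apply]
      simp [hvv]
    · simp
    · simp
  have := EofD_conj D.out (tor (Multiplicative.ofAdd v) : Gm m) (by rw [key]; exact h)
  rwa [QuotientGroup.out_eq'] at this

end Pool.Agent.Lib.Mor
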