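import Pool.Agent.Lib.Mor.Defs

/-!
INDECOMPOSABLE FORMS (90 lines).
PROOF. Let `R = F.map cast`, `q(v) = v ⬝ᵥ P *ᵥ v`. For the basis vector `e_i` let `a = F e_i`, `b = e_i - F e_i` (integer vectors). `aᵀ P b = e_iᵀ Rᵀ P (1 - R) e_i =
e_iᵀ P R (1 - R) e_i = 0`, so `P i i = q(e_i) = q(a) + q(b)` (`P` symmetric). If both `a, b ≠ 0` then `P i i >= 2 μ`, contradiction. So `F e_i = 0` or `F e_i = e_i` for every `i`. If
`F e_i = e_i` and `F e_j = 0` then `P i j = e_iᵀ P e_j = (R e_i)ᵀ P e_j = e_iᵀ Rᵀ P e_j = e_iᵀ P R e_j = 0`, contradiction to `ho` (`i ≠ j` because `e_i ≠ 0`). So all columns of `F`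
are 0 or all are `e_i`: `F = 0` or `F = 1` (if `k = 0` both).
-/

namespace Pool.Agent.Lib.Mor

open Matrix

private theorem indec_bil {k : ℕ} (P M N : Matrix (Fin k) (Fin k) ℝ) (i j : Fin k) :
    (fun l => M l i) ⬝ᵥ (P *ᵥ (fun l => N l j)) = (Mᵀ * P * N) i j := by
  rw [Matrix.mul_assoc, Matrix.mul_apply]
  simp only [dotProduct, Matrix.transpose_apply]
  refine Finset.sum_congr rfl (fun l _ => ?_)
  congr 1

theorem indec {k : ℕ} (P : Matrix (Fin k) (Fin k) ℝ) (hs : Pᵀ = P) (μ : ℝ)
    (hμ : ∀ v : Fin k → ℤ, v ≠ 0 →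
      μ ≤ (fun i => (v i : ℝ)) ⬝ᵥ (P *ᵥ (fun i => (v i : ℝ))))
    (hd : ∀ i, P i i < 2 * μ) (ho : ∀ i j, i ≠ j → P i j ≠ 0)
    (F : Matrix (Fin k) (Fin k) ℤ) (hF : F * F = F)
    (hPF : (F.map (fun z => (z : ℝ)))ᵀ * P = P * F.map (fun z => (z : ℝ))) :
    F = 0 ∨ F = 1 := by
  set R : Matrix (Fin k) (Fin k) ℝ := F.map (fun z => (z : ℝ)) with hR
  have hRR : R * R = R := by
    have := congrArg (fun M : Matrix (Fin k) (Fin k) ℤ => M.map (fun z : ℤ => (z : ℝ))) hF
    have h2 : (F * F).map (fun z : ℤ => (z : ℝ)) = F.map (fun z : ℤ => (z : ℝ)) := this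
    rw [hR, ← h2]
    ext i j
    rw [h2]
    have h3 := congrFun (congrFun hF i) j
    rw [Matrix.mul_apply] at h3
    rw [Matrix.mul_apply, Matrix.map_apply, ← h3]
    push_cast
    simp only [Matrix.map_apply]
  -- columns
  have hcol : ∀ i, (∀ l, F l i = 0) ∨ (∀ l, F l i = (1 : Matrix (Fin k) (Fin k) ℤ) l i) := by
    intro i
    by_contra hcon
    push Not at hcon
    obtain ⟨⟨l1, h1⟩, ⟨l2, h2⟩⟩ := hcon
    have ha := hμ (fun l => F l i) (fun h => h1 (congrFun h l1))
    have hb := hμ (fun l => (1 - F) l i) (fun h => by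
      have := congrFun h l2
      simp only [Matrix.sub_apply, Pi.zero_apply] at this
      exact h2 (by omega))
    have ea : (fun l => ((F l i : ℤ) : ℝ)) = fun l => R l i := by
      funext l; simp [hR]
    have eb : (fun l => (((1 - F) l i : ℤ) : ℝ)) = fun l => (1 - R) l i := by
      funext l
      simp only [hR, Matrix.sub_apply, Matrix.map_apply, Int.cast_sub]
      congr 1
      rw [Matrix.one_apply, Matrix.one_apply]
      split_ifs <;> simp
    rw [ea, indec_bil] at ha
    rw [eb, indec_bil] at hb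
    have hsum : (Rᵀ * P * R) i i + (((1 - R)ᵀ * P * (1 - R) : Matrix (Fin k) (Fin k) ℝ)) i i = P i i := by
      rw [← Matrix.add_apply]
      have e1 : Rᵀ * P * R = P * R := by rw [hPF, Matrix.mul_assoc, hRR]
      have e2 : (1 - R)ᵀ * P * (1 - R) = P - P * R := by
        rw [Matrix.transpose_sub, Matrix.transpose_one, Matrix.sub_mul, Matrix.one_mul, hPF,
          Matrix.mul_sub, Matrix.mul_one, Matrix.sub_mul, Matrix.mul_assoc P R R, hRR]
        abel
      rw [e1, e2, add_sub_cancel]
    have := hd i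
    linarith
  by_cases hex : ∃ i, ∃ l, F l i ≠ 0
  · right
    obtain ⟨i, l0, hl0⟩ := hex
    have hi : ∀ l, F l i = (1 : Matrix (Fin k) (Fin k) ℤ) l i := by
      rcases hcol i with h | h
      · exact absurd (h l0) hl0
      · exact h
    ext l j
    rcases hcol j with h | h
    · exfalso
      have hij : i ≠ j := by
        rintro rfl
        have := hi i
        rw [h i] at this
        simp at this
      apply ho i j hij
      -- P i j = (Rᵀ P) i j = (P R) i j = 0
      have h1 : (Rᵀ * P) i j = P i j := by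
        rw [Matrix.mul_apply]
        have : ∀ l, Rᵀ i l * P l j = (1 : Matrix (Fin k) (Fin k) ℝ) i l * P l j := by
          intro l
          congr 1
          rw [Matrix.transpose_apply, hR, Matrix.map_apply, hi l, Matrix.one_apply,
            Matrix.one_apply]
          by_cases hli : l = i
          · rw [if_pos hli, if_pos hli.symm]; simp
          · rw [if_neg hli, if_neg (fun h => hli h.symm)]; simp
        rw [Finset.sum_congr rfl (fun l _ => this l), ← Matrix.mul_apply, Matrix.one_mul]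
      have h2 : (P * R) i j = 0 := by
        rw [Matrix.mul_apply]
        apply Finset.sum_eq_zero
        intro l _
        rw [hR, Matrix.map_apply, h l]; simp
      rw [← h1, hPF, h2]
    · exact h l
  · left
    push Not at hex
    ext l j
    exact hex j l

end Pool.Agent.Lib.Mor
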