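import Pool.Agent.Lib.Mor.Defs2

/-!
ESTIMATES FOR `A2` AND `S` (110 lines).
`A2 = 1 + J` (2 x 2), `Bm = 1 + J` (m x m), `J` = all ones, `TT m = 1000 (m+1)`.
PROOFS. For an integer vector `v`: `v ⬝ᵥ (1+J) *ᵥ v = ∑ v_i² + (∑ v_i)²`, an even integer (`x² ≡ x mod 2`), positive if `v ≠ 0`, so `>= 2`. A2_min: this for `k = 2`.
S_min: `v ⬝ᵥ S *ᵥ v >= TT * (v ⬝ᵥ Bm *ᵥ v) - 24 (∑ |v_i|)²`, `(∑|v_i|)² <= m ∑ v_i² <= m * (v ⬝ᵥ Bm *ᵥ v)`, so it is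
`>= (TT - 24 m) * (v ⬝ᵥ Bm *ᵥ v) >= 2 (TT - 24 m) >= 1952 (m+1)`. S_diag: `S i i <= 2 TT + 24 < 2 * 1952 (m+1)`. S_off: `S i j >= TT - 24 > 0`. S_real: the
same estimate for real `v`: `v ⬝ᵥ S *ᵥ v >= (TT - 24m) (∑ v_i² + (∑ v_i)²) >= 0`.
-/

namespace Pool.Agent.Lib.Mor

open Matrix

private theorem SBound_Bm_apply {m : ℕ} (i j : Fin m) :
    Bm m i j = (if i = j then 1 else 0) + 1 := by
  simp [Bm, Matrix.add_apply, Matrix.one_apply]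

private theorem SBound_form {m : ℕ} (S : Matrix (Fin m) (Fin m) ℝ) (v : Fin m → ℝ) :
    v ⬝ᵥ (S *ᵥ v) = ∑ i, ∑ j, S i j * (v i * v j) := by
  simp only [dotProduct, mulVec, Finset.mul_sum]
  refine Finset.sum_congr rfl fun i _ => Finset.sum_congr rfl fun j _ => ?_
  ring

private theorem SBound_Bsum {m : ℕ} (v : Fin m → ℝ) :
    ∑ i, ∑ j, Bm m i j * (v i * v j) = ∑ i, v i ^ 2 + (∑ i, v i) ^ 2 := by
  simp only [SBound_Bm_apply, add_mul, one_mul, Finset.sum_add_distrib, ite_mul, zero_mul]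
  congr 1
  · refine Finset.sum_congr rfl fun i _ => ?_
    rw [Finset.sum_ite_eq]
    simp [sq]
  · rw [sq, Finset.sum_mul_sum]

private theorem SBound_quad {m : ℕ} (S : Matrix (Fin m) (Fin m) ℝ) (T : ℝ)
    (hS : ∀ i j, |S i j - T * Bm m i j| ≤ 24) (v : Fin m → ℝ) :
    T * (∑ i, v i ^ 2 + (∑ i, v i) ^ 2) - 24 * (∑ i, |v i|) ^ 2 ≤ v ⬝ᵥ (S *ᵥ v) := by
  rw [SBound_form, ← SBound_Bsum, sq (∑ i, |v i|), Finset.sum_mul_sum, Finset.mul_sum,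
    Finset.mul_sum, ← Finset.sum_sub_distrib]
  refine Finset.sum_le_sum fun i _ => ?_
  rw [Finset.mul_sum, Finset.mul_sum, ← Finset.sum_sub_distrib]
  refine Finset.sum_le_sum fun j _ => ?_
  have h1 : |(S i j - T * Bm m i j) * (v i * v j)| ≤ 24 * (|v i| * |v j|) := by
    rw [abs_mul, abs_mul (v i)]
    exact mul_le_mul_of_nonneg_right (hS i j) (by positivity)
  have h2 := (abs_le.1 h1).1
  linarith

private theorem SBound_quad2 {m : ℕ} (S : Matrix (Fin m) (Fin m) ℝ)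
    (hS : ∀ i j, |S i j - TT m * Bm m i j| ≤ 24) (v : Fin m → ℝ) :
    976 * ((m : ℝ) + 1) * (∑ i, v i ^ 2 + (∑ i, v i) ^ 2) ≤ v ⬝ᵥ (S *ᵥ v) := by
  have h1 := SBound_quad S (TT m) hS v
  have h2 : (∑ i, |v i|) ^ 2 ≤ (m : ℝ) * ∑ i, v i ^ 2 := by
    have h := sq_sum_le_card_mul_sum_sq (s := (Finset.univ : Finset (Fin m))) (f := fun i => |v i|)
    simpa [sq_abs] using h
  have h3 : (0 : ℝ) ≤ ∑ i, v i ^ 2 := Finset.sum_nonneg fun i _ => sq_nonneg _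
  have h4 : (0 : ℝ) ≤ (∑ i, v i) ^ 2 := sq_nonneg _
  have h5 : (0 : ℝ) ≤ (m : ℝ) := Nat.cast_nonneg m
  unfold TT at h1
  nlinarith [mul_nonneg h5 h4, mul_nonneg h5 h3]

private theorem SBound_even {k : ℕ} (v : Fin k → ℤ) (hv : v ≠ 0) :
    (2 : ℝ) ≤ ∑ i, ((v i : ℤ) : ℝ) ^ 2 + (∑ i, ((v i : ℤ) : ℝ)) ^ 2 := by
  have h1 : (2 : ℤ) ∣ ∑ i, v i ^ 2 + (∑ i, v i) ^ 2 := by
    have ha : ∀ x : ℤ, (2 : ℤ) ∣ x ^ 2 - x := by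
      intro x
      have := Int.even_mul_succ_self (x - 1)
      rw [even_iff_two_dvd] at this
      have e : (x - 1) * (x - 1 + 1) = x ^ 2 - x := by ring
      rwa [e] at this
    have hb : (2 : ℤ) ∣ ∑ i, (v i ^ 2 - v i) := Finset.dvd_sum fun i _ => ha _
    have hc := ha (∑ i, v i)
    have e : ∑ i, v i ^ 2 + (∑ i, v i) ^ 2 =
        ∑ i, (v i ^ 2 - v i) + ((∑ i, v i) ^ 2 - ∑ i, v i) + 2 * ∑ i, v i := by
      rw [Finset.sum_sub_distrib]; ring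
    rw [e]
    exact dvd_add (dvd_add hb hc) (dvd_mul_right _ _)
  have h2 : 0 < ∑ i, v i ^ 2 + (∑ i, v i) ^ 2 := by
    have hex : ∃ i, v i ≠ 0 := by
      by_contra hne
      push_neg at hne
      exact hv (funext hne)
    obtain ⟨i, hi⟩ := hex
    have h3 : v i ^ 2 ≤ ∑ j, v j ^ 2 :=
      Finset.single_le_sum (f := fun j => v j ^ 2) (fun j _ => sq_nonneg _) (Finset.mem_univ i)
    have h4 : 0 < v i ^ 2 := by positivity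
    have h5 : 0 ≤ (∑ i, v i) ^ 2 := sq_nonneg _
    linarith
  have h3 : (2 : ℤ) ≤ ∑ i, v i ^ 2 + (∑ i, v i) ^ 2 := Int.le_of_dvd h2 h1
  exact_mod_cast h3

private theorem SBound_A2 (v : Fin 2 → ℝ) :
    v ⬝ᵥ (A2 *ᵥ v) = ∑ i, v i ^ 2 + (∑ i, v i) ^ 2 := by
  have h : A2 = Bm 2 := rfl
  rw [h, SBound_form, SBound_Bsum]

theorem A2_min (v : Fin 2 → ℤ) (hv : v ≠ 0) :
    (2 : ℝ) ≤ (fun i => (v i : ℝ)) ⬝ᵥ (A2 *ᵥ (fun i => (v i : ℝ))) := by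
  rw [SBound_A2]
  exact SBound_even v hv

theorem A2_nonneg (v : Fin 2 → ℝ) : 0 ≤ v ⬝ᵥ (A2 *ᵥ v) := by
  rw [SBound_A2]
  have h3 : (0 : ℝ) ≤ ∑ i, v i ^ 2 := Finset.sum_nonneg fun i _ => sq_nonneg _
  have h4 : (0 : ℝ) ≤ (∑ i, v i) ^ 2 := sq_nonneg _
  linarith

theorem S_min {m : ℕ} (S : Matrix (Fin m) (Fin m) ℝ) (hS : ∀ i j, |S i j - TT m * Bm m i j| ≤ 24)
    (v : Fin m → ℤ) (hv : v ≠ 0) :
    1952 * ((m : ℝ) + 1) ≤ (fun i => (v i : ℝ)) ⬝ᵥ (S *ᵥ (fun i => (v i : ℝ))) := by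
  have h1 := SBound_quad2 S hS (fun i => (v i : ℝ))
  have h2 := SBound_even v hv
  have h5 : (0 : ℝ) ≤ (m : ℝ) := Nat.cast_nonneg m
  have h6 : 976 * ((m : ℝ) + 1) * 2 ≤
      976 * ((m : ℝ) + 1) * (∑ i, ((v i : ℤ) : ℝ) ^ 2 + (∑ i, ((v i : ℤ) : ℝ)) ^ 2) :=
    mul_le_mul_of_nonneg_left h2 (by positivity)
  linarith

theorem S_diag {m : ℕ} (S : Matrix (Fin m) (Fin m) ℝ) (hS : ∀ i j, |S i j - TT m * Bm m i j| ≤ 24)
    (i : Fin m) : S i i < 2 * (1952 * ((m : ℝ) + 1)) := by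
  have h1 := (abs_le.1 (hS i i)).2
  rw [SBound_Bm_apply, if_pos rfl] at h1
  unfold TT at h1
  have h5 : (0 : ℝ) ≤ (m : ℝ) := Nat.cast_nonneg m
  linarith

theorem S_off {m : ℕ} (S : Matrix (Fin m) (Fin m) ℝ) (hS : ∀ i j, |S i j - TT m * Bm m i j| ≤ 24)
    (i j : Fin m) (hij : i ≠ j) : S i j ≠ 0 := by
  have h1 := (abs_le.1 (hS i j)).1
  rw [SBound_Bm_apply, if_neg hij] at h1
  unfold TT at h1
  have h5 : (0 : ℝ) ≤ (m : ℝ) := Nat.cast_nonneg m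
  intro h0
  rw [h0] at h1
  linarith

theorem S_nonneg {m : ℕ} (S : Matrix (Fin m) (Fin m) ℝ)
    (hS : ∀ i j, |S i j - TT m * Bm m i j| ≤ 24) (v : Fin m → ℝ) : 0 ≤ v ⬝ᵥ (S *ᵥ v) := by
  have h1 := SBound_quad2 S hS v
  have h3 : (0 : ℝ) ≤ ∑ i, v i ^ 2 := Finset.sum_nonneg fun i _ => sq_nonneg _
  have h4 : (0 : ℝ) ≤ (∑ i, v i) ^ 2 := sq_nonneg _
  have h5 : (0 : ℝ) ≤ (m : ℝ) := Nat.cast_nonneg m
  have h6 : 0 ≤ 976 * ((m : ℝ) + 1) * (∑ i, v i ^ 2 + (∑ i, v i) ^ 2) := by positivity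
  linarith

end Pool.Agent.Lib.Mor
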