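import Pool.Agent.Lib.Mor.Defs2
import Pool.Agent.Lib.Mor.SBound

/-!
THE PROJECTION PRESERVES THE SHORT PLANE (130 lines).
`Q = fromBlocks A2 (A2*Nn) (Nnᵀ*A2) (S + Nnᵀ*A2*Nn)`. For `v = Sum.elim v1 v2`: `Q(v) = A2(v1 + Nn v2) + S(v2)` (expand; `A2` symmetric), so `Q(v) >= S(v2)` and `Q(v) >= 0`
(`A2_nonneg`, `S_nonneg`). Let `R = E.map cast`, `RᵀQ = QR`, `R R = R`. For every `v`, `Q(v) = Q(R v) + Q(v - R v)` (mixed terms vanish, `Q` symmetric), so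
`Q(R v) <= Q(v)`. Take `v = e_a` (`a : Fin 2`, the basis vector `Sum.inl a`): `Q(v) = A2 a a = 2`, and `R v` is the integer column `a` of `E`, with lower part the integer vector
`u = (E (inr i) (inl a))_i`: `2 >= Q(R v) >= S(u)`; if `u ≠ 0`, `S(u) >= 1952 (m+1) > 2` by `S_min`, contradiction. So `E (inr i) (inl a) = 0` for all `i, a`.
-/

namespace Pool.Agent.Lib.Mor

open Matrix

private theorem Lower_A2_symm : A2ᵀ = A2 := by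
  ext i j
  simp only [transpose_apply, A2, Matrix.add_apply, of_apply, one_apply]
  by_cases h : i = j
  · simp [h]
  · simp [h, Ne.symm h]

private theorem Lower_expand {m : ℕ} (Nn : Matrix (Fin 2) (Fin m) ℝ)
    (S : Matrix (Fin m) (Fin m) ℝ) (v1 : Fin 2 → ℝ) (v2 : Fin m → ℝ) :
    Sum.elim v1 v2 ⬝ᵥ (fromBlocks A2 (A2 * Nn) (Nnᵀ * A2) (S + Nnᵀ * A2 * Nn) *ᵥ
      Sum.elim v1 v2) =
      (v1 + Nn *ᵥ v2) ⬝ᵥ (A2 *ᵥ (v1 + Nn *ᵥ v2)) + v2 ⬝ᵥ (S *ᵥ v2) := by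
  rw [fromBlocks_mulVec]
  simp only [Sum.elim_comp_inl, Sum.elim_comp_inr]
  rw [sumElim_dotProduct_sumElim]
  have h1 : ∀ w : Fin 2 → ℝ, v2 ⬝ᵥ (Nnᵀ *ᵥ w) = (Nn *ᵥ v2) ⬝ᵥ w := by
    intro w
    rw [dotProduct_mulVec, vecMul_transpose]
  simp only [add_mulVec, mulVec_add, ← mulVec_mulVec, dotProduct_add, add_dotProduct, h1]
  ring

private theorem Lower_ge {m : ℕ} (Nn : Matrix (Fin 2) (Fin m) ℝ)
    (S : Matrix (Fin m) (Fin m) ℝ) (v : Ix m → ℝ) :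
    (fun i => v (Sum.inr i)) ⬝ᵥ (S *ᵥ (fun i => v (Sum.inr i))) ≤
    v ⬝ᵥ (fromBlocks A2 (A2 * Nn) (Nnᵀ * A2) (S + Nnᵀ * A2 * Nn) *ᵥ v) := by
  have h := Lower_expand Nn S (fun i => v (Sum.inl i)) (fun i => v (Sum.inr i))
  have hv : Sum.elim (fun i => v (Sum.inl i)) (fun i => v (Sum.inr i)) = v := by
    funext i
    cases i <;> rfl
  rw [hv] at h
  rw [h]
  have := A2_nonneg ((fun i => v (Sum.inl i)) + Nn *ᵥ (fun i => v (Sum.inr i)))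
  linarith

private theorem Lower_proj {n : Type} [Fintype n] [DecidableEq n] (Q R : Matrix n n ℝ)
    (hR : R * R = R) (hs : Rᵀ * Q = Q * R) (v : n → ℝ) :
    (R *ᵥ v) ⬝ᵥ (Q *ᵥ (R *ᵥ v)) + (v - R *ᵥ v) ⬝ᵥ (Q *ᵥ (v - R *ᵥ v)) = v ⬝ᵥ (Q *ᵥ v) := by
  have h1 : ∀ x y : n → ℝ, (R *ᵥ x) ⬝ᵥ (Q *ᵥ y) = x ⬝ᵥ (Q *ᵥ (R *ᵥ y)) := by
    intro x y
    rw [mulVec_mulVec, ← hs, ← mulVec_mulVec, dotProduct_mulVec x Rᵀ, vecMul_transpose]
  have h2 : R *ᵥ (R *ᵥ v) = R *ᵥ v := by rw [mulVec_mulVec, hR]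
  simp only [mulVec_sub, sub_dotProduct, dotProduct_sub]
  rw [h1 v v, h1 v (R *ᵥ v), h2]
  ring

theorem lower_zero {m : ℕ} (Nn : Matrix (Fin 2) (Fin m) ℝ) (S : Matrix (Fin m) (Fin m) ℝ)
    (hs : Sᵀ = S) (hS : ∀ i j, |S i j - TT m * Bm m i j| ≤ 24)
    (E : Matrix (Ix m) (Ix m) ℤ) (hE : E * E = E)
    (hsa : (E.map (fun z => (z : ℝ)))ᵀ * fromBlocks A2 (A2 * Nn) (Nnᵀ * A2) (S + Nnᵀ * A2 * Nn) =
      fromBlocks A2 (A2 * Nn) (Nnᵀ * A2) (S + Nnᵀ * A2 * Nn) * E.map (fun z => (z : ℝ))) :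
    E.toBlocks₂₁ = 0 := by
  set Q := fromBlocks A2 (A2 * Nn) (Nnᵀ * A2) (S + Nnᵀ * A2 * Nn) with hQ
  have hR : E.map (fun z => (z : ℝ)) * E.map (fun z => (z : ℝ)) = E.map (fun z => (z : ℝ)) := by
    have h := congrArg (fun M : Matrix (Ix m) (Ix m) ℤ => M.map (Int.castRingHom ℝ)) hE
    simp only [Matrix.map_mul] at h
    exact h
  have key : ∀ a : Fin 2, (fun i : Fin m => E (Sum.inr i) (Sum.inl a)) = 0 := by
    intro a
    by_contra hne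
    have h1 := S_min S hS _ hne
    have h2 := Lower_proj Q (E.map (fun z => (z : ℝ))) hR hsa (Pi.single (Sum.inl a) 1)
    have h3 : E.map (fun z => (z : ℝ)) *ᵥ (Pi.single (Sum.inl a) (1 : ℝ)) =
        fun i => ((E i (Sum.inl a) : ℤ) : ℝ) := by
      rw [mulVec_single_one]
      rfl
    have h4 := Lower_ge Nn S (fun i => ((E i (Sum.inl a) : ℤ) : ℝ))
    have h5 := Lower_ge Nn S (Pi.single (Sum.inl a) (1 : ℝ) -
      E.map (fun z => (z : ℝ)) *ᵥ (Pi.single (Sum.inl a) (1 : ℝ)))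
    have h6 := S_nonneg S hS (fun i => ((Pi.single (Sum.inl a) (1 : ℝ) : Ix m → ℝ) -
      E.map (fun z => (z : ℝ)) *ᵥ (Pi.single (Sum.inl a) (1 : ℝ) : Ix m → ℝ)) (Sum.inr i))
    have h7 : Pi.single (Sum.inl a) (1 : ℝ) ⬝ᵥ (Q *ᵥ Pi.single (Sum.inl a) (1 : ℝ)) = 2 := by
      rw [single_one_dotProduct, mulVec_single_one]
      simp only [hQ, col_apply, fromBlocks_apply₁₁, A2, Matrix.add_apply, one_apply_eq, of_apply]
      norm_num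
    rw [← hQ] at h4 h5
    rw [h7] at h2
    rw [h3] at h2 h5 h6
    have hm : (0 : ℝ) ≤ m := Nat.cast_nonneg m
    linarith
  ext i a
  exact congrFun (key a) i

end Pool.Agent.Lib.Mor
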