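import Pool.Agent.Lib.Mor.Defs2
import Pool.Agent.Lib.Mor.Act

/-!
THE FORMS ON THE TORUS (150 lines).
`Q0 m = fromBlocks A2 (A2 * Yb) (Ybᵀ * A2) (TT • Bm)`. For an integer vector `z` let `zb` be the real matrix `of fun a b => z (finProdFinEquiv (a,b))`.
(1) `act (tor (ofAdd z)) (Q0 m)`: `rm (tor z)⁻¹ = fromBlocks 1 (-zb) 0 1` (`(tor z)⁻¹ = tor (-z)`), and with `N = Yb - zb`:
`[[1,0],[-zbᵀ,1]] * Q0 * [[1,-zb],[0,1]] = fromBlocks A2 (A2*N) (Nᵀ*A2) (TT•Bm - Ybᵀ*A2*Yb + Nᵀ*A2*N)` (`fromBlocks_multiply`, `fromBlocks_transpose`; `A2ᵀ = A2`; the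
lower block: `-zbᵀ (A2 Yb) - Ybᵀ A2 zb + zbᵀ A2 zb + TT Bm = TT Bm - Ybᵀ A2 Yb + (Yb - zb)ᵀ A2 (Yb - zb)`). This is act_tor_Q0.
(2) sum with weights `w` (`∑ w = 1`): `Nn = ∑ w i • N_i = Yb - ∑ w i • zb_i`, lower block
`TT•Bm - Ybᵀ A2 Yb + ∑ w i • (N_iᵀ A2 N_i)`. Put `S = TT•Bm - Ybᵀ A2 Yb + ∑ w i • (N_iᵀ A2 N_i) - Nnᵀ A2 Nn`. Symmetric. All entries of `Yb` are in `[0,1]`
(`yy` is), those of `zb_i` are 0 or 1, so the entries of `N_i` and of `Nn` are in `[-1,1]`; for a `2 x m` matrix `N` with entries in `[-1,1]` each entry of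
`Nᵀ A2 N` is `∑ a b, N a i * A2 a b * N b j` with `|.| <= 2 + 1 + 1 + 2 = 6`. So `|S i j - TT * Bm i j| <= 18 <= 24`.
-/

namespace Pool.Agent.Lib.Mor

open Matrix

private theorem QSum_A2T : (A2)ᵀ = A2 := by
  unfold A2
  ext i j
  fin_cases i <;> fin_cases j <;> simp [Matrix.one_apply]

private theorem QSum_BmT (m : ℕ) : (Bm m)ᵀ = Bm m := by
  unfold Bm
  rw [transpose_add, transpose_one]
  congr 1

private theorem QSum_rm {m : ℕ} (z : Fin (2 * m) → ℤ) :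
    rm (tor (Multiplicative.ofAdd z))⁻¹ = fromBlocks 1 (-(zb z)) 0 1 := by
  change (uu (-z)).map (fun z : ℤ => (z : ℝ)) = _
  unfold uu zb
  rw [fromBlocks_map]
  congr 1
  · ext i j
    simp [Matrix.one_apply]
  · ext i j
    simp
  · ext i j
    simp
  · ext i j
    simp [Matrix.one_apply]

theorem act_tor_Q0 {m : ℕ} (z : Fin (2 * m) → ℤ) :
    act (tor (Multiplicative.ofAdd z)) (Q0 m) =
      fromBlocks A2 (A2 * (Yb m - zb z)) ((Yb m - zb z)ᵀ * A2)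
        (TT m • Bm m - (Yb m)ᵀ * A2 * Yb m + (Yb m - zb z)ᵀ * A2 * (Yb m - zb z)) := by
  change (rm (tor (Multiplicative.ofAdd z))⁻¹)ᵀ * Q0 m * rm (tor (Multiplicative.ofAdd z))⁻¹ = _
  rw [QSum_rm, Q0, fromBlocks_transpose, fromBlocks_multiply, fromBlocks_multiply]
  simp only [transpose_one, transpose_neg, transpose_zero, Matrix.one_mul, Matrix.mul_one,
    Matrix.zero_mul, Matrix.mul_zero, add_zero]
  congr 1
  · rw [Matrix.mul_sub, Matrix.mul_neg]; abel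
  · rw [transpose_sub, Matrix.sub_mul, Matrix.neg_mul]; abel
  · rw [transpose_sub]
    simp only [Matrix.add_mul, Matrix.mul_sub, Matrix.sub_mul, Matrix.neg_mul, Matrix.mul_neg,
      Matrix.mul_assoc]
    abel

private theorem QSum_sum {m k : ℕ} (A : Fin k → Matrix (Fin 2) (Fin 2) ℝ)
    (B : Fin k → Matrix (Fin 2) (Fin m) ℝ) (C : Fin k → Matrix (Fin m) (Fin 2) ℝ)
    (D : Fin k → Matrix (Fin m) (Fin m) ℝ) :
    ∑ i, fromBlocks (A i) (B i) (C i) (D i) =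
      fromBlocks (∑ i, A i) (∑ i, B i) (∑ i, C i) (∑ i, D i) := by
  ext a b
  rcases a with a | a <;> rcases b with b | b <;> simp [Matrix.sum_apply]

private theorem QSum_entry {m : ℕ} (N : Matrix (Fin 2) (Fin m) ℝ) (i j : Fin m) :
    (Nᵀ * A2 * N) i j = (2 * N 0 i + N 1 i) * N 0 j + (N 0 i + 2 * N 1 i) * N 1 j := by
  rw [Matrix.mul_apply, Fin.sum_univ_two, Matrix.mul_apply, Matrix.mul_apply, Fin.sum_univ_two,
    Fin.sum_univ_two]
  simp [A2, Matrix.one_apply]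
  ring

private theorem QSum_bd {m : ℕ} (N : Matrix (Fin 2) (Fin m) ℝ) (hN : ∀ a b, |N a b| ≤ 1)
    (i j : Fin m) : |(Nᵀ * A2 * N) i j| ≤ 6 := by
  rw [QSum_entry]
  have h1 : |2 * N 0 i + N 1 i| ≤ 3 := by
    have h0 := abs_le.mp (hN 0 i)
    have h1 := abs_le.mp (hN 1 i)
    rw [abs_le]
    constructor <;> linarith [h0.1, h0.2, h1.1, h1.2]
  have h2 : |N 0 i + 2 * N 1 i| ≤ 3 := by
    have h0 := abs_le.mp (hN 0 i)
    have h1 := abs_le.mp (hN 1 i)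
    rw [abs_le]
    constructor <;> linarith [h0.1, h0.2, h1.1, h1.2]
  have h3 : |(2 * N 0 i + N 1 i) * N 0 j| ≤ 3 * 1 := by
    rw [abs_mul]
    exact mul_le_mul h1 (hN 0 j) (abs_nonneg _) (by norm_num)
  have h4 : |(N 0 i + 2 * N 1 i) * N 1 j| ≤ 3 * 1 := by
    rw [abs_mul]
    exact mul_le_mul h2 (hN 1 j) (abs_nonneg _) (by norm_num)
  calc |(2 * N 0 i + N 1 i) * N 0 j + (N 0 i + 2 * N 1 i) * N 1 j|
      ≤ |(2 * N 0 i + N 1 i) * N 0 j| + |(N 0 i + 2 * N 1 i) * N 1 j| := abs_add_le _ _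
    _ ≤ 6 := by linarith

private theorem QSum_avg {k : ℕ} (w : Fin k → ℝ) (hw : ∀ i, 0 ≤ w i) (h1 : ∑ i, w i = 1)
    (x : Fin k → ℝ) (c : ℝ) (hx : ∀ i, |x i| ≤ c) : |∑ i, w i * x i| ≤ c := by
  calc |∑ i, w i * x i| ≤ ∑ i, |w i * x i| := Finset.abs_sum_le_sum_abs _ _
    _ ≤ ∑ i, w i * c := by
        apply Finset.sum_le_sum
        intro i _
        rw [abs_mul, abs_of_nonneg (hw i)]
        exact mul_le_mul_of_nonneg_left (hx i) (hw i)
    _ = c := by rw [← Finset.sum_mul, h1, one_mul]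

private theorem QSum_Yb {m : ℕ} (a : Fin 2) (b : Fin m) : 0 ≤ Yb m a b ∧ Yb m a b ≤ 1 := by
  unfold Yb yy
  simp only [Matrix.of_apply]
  have h : ((finProdFinEquiv (a, b) : Fin (2 * m)) : ℕ) < 2 * m := (finProdFinEquiv (a, b)).2
  have h' : (((finProdFinEquiv (a, b) : Fin (2 * m)) : ℕ) : ℝ) ≤ ((2 * m : ℕ) : ℝ) := by
    exact_mod_cast h.le
  have h0 : (0 : ℝ) ≤ (((finProdFinEquiv (a, b) : Fin (2 * m)) : ℕ) : ℝ) := Nat.cast_nonneg _
  have hm : (0 : ℝ) ≤ ((2 * m : ℕ) : ℝ) := Nat.cast_nonneg _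
  constructor
  · apply div_nonneg <;> linarith
  · rw [div_le_one (by linarith)]
    linarith

theorem qsum {m k : ℕ} (w : Fin k → ℝ) (hw : ∀ i, 0 ≤ w i) (h1 : ∑ i, w i = 1)
    (z : Fin k → Fin (2 * m) → ℤ) (hz : ∀ i j, z i j = 0 ∨ z i j = 1) :
    ∃ (Nn : Matrix (Fin 2) (Fin m) ℝ) (S : Matrix (Fin m) (Fin m) ℝ),
      ∑ i, w i • act (tor (Multiplicative.ofAdd (z i))) (Q0 m) =
        fromBlocks A2 (A2 * Nn) (Nnᵀ * A2) (S + Nnᵀ * A2 * Nn) ∧
      Sᵀ = S ∧ ∀ i j, |S i j - TT m * Bm m i j| ≤ 24 := by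
  have hN : ∀ i a b, |(Yb m - zb (z i)) a b| ≤ 1 := by
    intro i a b
    obtain ⟨y0, y1⟩ := QSum_Yb (m := m) a b
    rw [Matrix.sub_apply]
    have hzb : zb (z i) a b = 0 ∨ zb (z i) a b = 1 := by
      unfold zb
      simp only [Matrix.of_apply]
      rcases hz i (finProdFinEquiv (a, b)) with h | h
      · left; rw [h]; simp
      · right; rw [h]; simp
    rw [abs_le]
    rcases hzb with h | h <;> rw [h] <;> constructor <;> linarith
  set Nn : Matrix (Fin 2) (Fin m) ℝ := ∑ i, w i • (Yb m - zb (z i)) with hNn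
  have hNnb : ∀ a b, |Nn a b| ≤ 1 := by
    intro a b
    have e : Nn a b = ∑ i, w i * (Yb m - zb (z i)) a b := by
      rw [hNn, Matrix.sum_apply]
      rfl
    rw [e]
    exact QSum_avg w hw h1 _ 1 (fun i => hN i a b)
  refine ⟨Nn, TT m • Bm m - (Yb m)ᵀ * A2 * Yb m
    + ∑ i, w i • ((Yb m - zb (z i))ᵀ * A2 * (Yb m - zb (z i))) - Nnᵀ * A2 * Nn, ?_, ?_, ?_⟩
  · simp only [act_tor_Q0, fromBlocks_smul]
    rw [QSum_sum]
    congr 1
    · rw [← Finset.sum_smul, h1, one_smul]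
    · rw [hNn, Matrix.mul_sum]
      apply Finset.sum_congr rfl
      intro i _
      rw [Matrix.mul_smul]
    · rw [hNn, transpose_sum, Matrix.sum_mul]
      apply Finset.sum_congr rfl
      intro i _
      rw [transpose_smul, Matrix.smul_mul]
    · rw [sub_add_cancel]
      simp only [smul_add]
      rw [Finset.sum_add_distrib, ← Finset.sum_smul, h1, one_smul]
  · rw [transpose_sub, transpose_add, transpose_sub, transpose_smul, QSum_BmT, transpose_sum]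
    have hc : ∀ N : Matrix (Fin 2) (Fin m) ℝ, (Nᵀ * A2 * N)ᵀ = Nᵀ * A2 * N := by
      intro N
      rw [transpose_mul, transpose_mul, transpose_transpose, QSum_A2T, Matrix.mul_assoc]
    rw [hc, hc]
    congr 1
    congr 1
    apply Finset.sum_congr rfl
    intro i _
    rw [transpose_smul, hc]
  · intro i j
    have e : (TT m • Bm m - (Yb m)ᵀ * A2 * Yb m
        + ∑ l, w l • ((Yb m - zb (z l))ᵀ * A2 * (Yb m - zb (z l))) - Nnᵀ * A2 * Nn) i j
        - TT m * Bm m i j = - ((Yb m)ᵀ * A2 * Yb m) i j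
        + (∑ l, w l * ((Yb m - zb (z l))ᵀ * A2 * (Yb m - zb (z l))) i j)
        - (Nnᵀ * A2 * Nn) i j := by
      rw [Matrix.sub_apply, Matrix.add_apply, Matrix.sub_apply, Matrix.smul_apply,
        Matrix.sum_apply]
      simp only [Matrix.smul_apply, smul_eq_mul]
      ring
    rw [e]
    have b1 := QSum_bd (Yb m) (fun a b => by
      obtain ⟨y0, y1⟩ := QSum_Yb (m := m) a b
      rw [abs_le]; constructor <;> linarith) i j
    have b2 := QSum_avg w hw h1 (fun l => ((Yb m - zb (z l))ᵀ * A2 * (Yb m - zb (z l))) i j) 6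
      (fun l => QSum_bd _ (hN l) i j)
    have b3 := QSum_bd Nn hNnb i j
    rw [abs_le] at b1 b2 b3 ⊢
    constructor <;> linarith [b1.1, b1.2, b2.1, b2.2, b3.1, b3.2]

end Pool.Agent.Lib.Mor
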