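import Pool.Agent.Lib.Mor.Defs2

/-!
THE DIAGONAL BLOCKS OF THE PROJECTION (110 lines).
`E = fromBlocks E1 E12 0 E2` (integer), `R1, R12, R2` the real blocks. From `E * E = E`: `E1 * E1 = E1`, `E2 * E2 = E2` (`fromBlocks_multiply`, `fromBlocks_inj`). From `hsa`,
block (1,1): `R1ᵀ A2 = A2 R1`. Block (1,2): `R1ᵀ A2 Nn = A2 R12 + A2 Nn R2`, so with `R1ᵀ A2 = A2 R1` and `A2` invertible (det = 3):
`R1 Nn = R12 + Nn R2` (*). Block (2,2): `R12ᵀ A2 Nn + R2ᵀ (S + Nnᵀ A2 Nn) = Nnᵀ A2 R12 + (S + Nnᵀ A2 Nn) R2`. Insert `R12 = R1 Nn - Nn R2`: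
left `= Nnᵀ R1ᵀ A2 Nn - R2ᵀ Nnᵀ A2 Nn + R2ᵀ S + R2ᵀ Nnᵀ A2 Nn = Nnᵀ R1ᵀ A2 Nn + R2ᵀ S`, right `= Nnᵀ A2 R1 Nn - Nnᵀ A2 Nn R2 + S R2 + Nnᵀ A2 Nn R2 = Nnᵀ A2 R1 Nn + S R2`.
As `R1ᵀ A2 = A2 R1`, `R2ᵀ S = S R2`.
-/

namespace Pool.Agent.Lib.Mor

open Matrix

private theorem Upper_A2_inv : ∃ B : Matrix (Fin 2) (Fin 2) ℝ, B * A2 = 1 := by
  refine ⟨!![2/3, -1/3; -1/3, 2/3], ?_⟩
  have h : A2 = !![2, 1; 1, 2] := by
    unfold A2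
    ext i j
    fin_cases i <;> fin_cases j <;> simp <;> norm_num
  rw [h]
  ext i j
  fin_cases i <;> fin_cases j <;> simp [Matrix.mul_apply, Fin.sum_univ_two] <;> norm_num

theorem upper_blocks {m : ℕ} (Nn : Matrix (Fin 2) (Fin m) ℝ) (S : Matrix (Fin m) (Fin m) ℝ)
    (E1 : Matrix (Fin 2) (Fin 2) ℤ) (E12 : Matrix (Fin 2) (Fin m) ℤ) (E2 : Matrix (Fin m) (Fin m) ℤ)
    (hE : fromBlocks E1 E12 0 E2 * fromBlocks E1 E12 0 E2 = fromBlocks E1 E12 0 E2)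
    (hsa : ((fromBlocks E1 E12 0 E2).map (fun z => (z : ℝ)))ᵀ *
        fromBlocks A2 (A2 * Nn) (Nnᵀ * A2) (S + Nnᵀ * A2 * Nn) =
      fromBlocks A2 (A2 * Nn) (Nnᵀ * A2) (S + Nnᵀ * A2 * Nn) *
        (fromBlocks E1 E12 0 E2).map (fun z => (z : ℝ))) :
    E1 * E1 = E1 ∧ E2 * E2 = E2 ∧
      (E1.map (fun z => (z : ℝ)))ᵀ * A2 = A2 * E1.map (fun z => (z : ℝ)) ∧
      (E2.map (fun z => (z : ℝ)))ᵀ * S = S * E2.map (fun z => (z : ℝ)) := by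
  obtain ⟨B, hB⟩ := Upper_A2_inv
  rw [fromBlocks_multiply, fromBlocks_inj] at hE
  obtain ⟨h11, -, -, h22⟩ := hE
  rw [Matrix.mul_zero, add_zero] at h11
  rw [Matrix.zero_mul, zero_add] at h22
  refine ⟨h11, h22, ?_⟩
  rw [fromBlocks_map, fromBlocks_transpose, fromBlocks_multiply, fromBlocks_multiply,
    fromBlocks_inj] at hsa
  have h0 : ((0 : Matrix (Fin m) (Fin 2) ℤ).map (fun z => (z : ℝ))) = 0 := by
    ext i j; simp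
  rw [h0] at hsa
  obtain ⟨a11, a12, -, a22⟩ := hsa
  set R1 : Matrix (Fin 2) (Fin 2) ℝ := E1.map (fun z => (z : ℝ)) with hR1
  set R2 : Matrix (Fin m) (Fin m) ℝ := E2.map (fun z => (z : ℝ)) with hR2
  set R12 : Matrix (Fin 2) (Fin m) ℝ := E12.map (fun z => (z : ℝ)) with hR12
  simp only [Matrix.transpose_zero, Matrix.zero_mul, Matrix.mul_zero, add_zero] at a11 a12
  refine ⟨a11, ?_⟩
  have key : R1 * Nn = R12 + Nn * R2 := by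
    have h1 : A2 * (R1 * Nn) = A2 * (R12 + Nn * R2) := by
      calc A2 * (R1 * Nn) = (A2 * R1) * Nn := by rw [Matrix.mul_assoc]
        _ = (R1ᵀ * A2) * Nn := by rw [a11]
        _ = R1ᵀ * (A2 * Nn) := by rw [Matrix.mul_assoc]
        _ = A2 * R12 + A2 * Nn * R2 := a12
        _ = A2 * (R12 + Nn * R2) := by rw [Matrix.mul_add, Matrix.mul_assoc]
    have h2 : B * (A2 * (R1 * Nn)) = B * (A2 * (R12 + Nn * R2)) := by rw [h1]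
    rw [← Matrix.mul_assoc B A2 (R1 * Nn), ← Matrix.mul_assoc B A2 (R12 + Nn * R2), hB,
      Matrix.one_mul, Matrix.one_mul] at h2
    exact h2
  have h12 : R12 = R1 * Nn - Nn * R2 := by rw [key]; abel
  have h12T : R12ᵀ = Nnᵀ * R1ᵀ - R2ᵀ * Nnᵀ := by
    rw [h12, Matrix.transpose_sub, Matrix.transpose_mul, Matrix.transpose_mul]
  rw [h12T, h12] at a22
  have l1 : (Nnᵀ * R1ᵀ - R2ᵀ * Nnᵀ) * (A2 * Nn) + R2ᵀ * (S + Nnᵀ * A2 * Nn) =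
      Nnᵀ * (R1ᵀ * A2) * Nn + R2ᵀ * S := by
    rw [Matrix.sub_mul, Matrix.mul_add]
    simp only [Matrix.mul_assoc]
    abel
  have r1 : Nnᵀ * A2 * (R1 * Nn - Nn * R2) + (S + Nnᵀ * A2 * Nn) * R2 =
      Nnᵀ * (A2 * R1) * Nn + S * R2 := by
    rw [Matrix.mul_sub, Matrix.add_mul]
    simp only [Matrix.mul_assoc]
    abel
  rw [l1, r1, a11] at a22
  exact add_left_cancel a22

end Pool.Agent.Lib.Mor
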