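import Pool.Agent.Lib.Mor.Defs2
import Pool.Agent.Lib.Mor.Act
import Pool.Agent.Lib.Mor.EofD
import Pool.Agent.Lib.Mor.QSum
import Pool.Agent.Lib.Mor.SBound
import Pool.Agent.Lib.Mor.Lower
import Pool.Agent.Lib.Mor.Upper
import Pool.Agent.Lib.Mor.Indec

/-!
THE DECOMPOSITIONS MET BY THE TORUS (80 lines).
PROOF. `Q = ∑ w i • act (tor z_i) (Q0 m)` has the form of `qsum`. `E = Eof D`: idempotent, trace 2 (`Eof_idem`, `Eof_trace`), `(E)ᵀ Q = Q E` (`Eof_sa`; `Q` is symmetric: all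
`fromBlocks A2 (A2*Nn) (Nnᵀ*A2) (S + ..)` are, as `A2ᵀ = A2`). By `lower_zero`, `E.toBlocks₂₁ = 0`, so `E = fromBlocks E1 E12 0 E2` (`fromBlocks_toBlocks`). By `upper_blocks` and `indec`
(`μ = 2` for `A2`: `A2_min`, `A2 i i = 2 < 4`, `A2 i j = 1 ≠ 0`; `μ = 1952 (m+1)` for `S`: `S_min`, `S_diag`, `S_off`), `E1 ∈ {0, 1}`, `E2 ∈ {0, 1}`. `trace E = trace E1 + trace E2 = 2` with
`trace 1 = 2` resp. `m`: `(0,0)` gives 0, `(0,1)` gives `m >= 3`, `(1,1)` gives `2 + m`, so `E1 = 1`, `E2 = 0`. `E = fromBlocks 1 E12 0 0`, and `Eof_tor`.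
-/

namespace Pool.Agent.Lib.Mor

open Matrix

private theorem Classify_A2_symm : A2ᵀ = A2 := by
  unfold A2
  rw [transpose_add, transpose_one]
  congr 1

theorem classify {m k : ℕ} (hm : 3 ≤ m) (w : Fin k → ℝ) (hw : ∀ i, 0 ≤ w i) (h1 : ∑ i, w i = 1)
    (z : Fin k → Fin (2 * m) → ℤ) (hz : ∀ i j, z i j = 0 ∨ z i j = 1) (D : Gm m ⧸ Mst m)
    (h : crs (act (D.out)⁻¹ (∑ i, w i • act (tor (Multiplicative.ofAdd (z i))) (Q0 m))) = 0) :
    ∃ v : Fin (2 * m) → ℤ, D = ((tor (Multiplicative.ofAdd v) : Gm m) : Gm m ⧸ Mst m) := by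
  obtain ⟨Nn, S, hsum, hSs, hS⟩ := qsum w hw h1 z hz
  rw [hsum] at h
  have hA2 := Classify_A2_symm
  have hQs : (fromBlocks A2 (A2 * Nn) (Nnᵀ * A2) (S + Nnᵀ * A2 * Nn) : Vm m)ᵀ =
      fromBlocks A2 (A2 * Nn) (Nnᵀ * A2) (S + Nnᵀ * A2 * Nn) := by
    rw [fromBlocks_transpose]
    congr 1
    · rw [transpose_mul, transpose_transpose, hA2]
    · rw [transpose_mul, hA2]
    · rw [transpose_add, hSs, transpose_mul, transpose_mul, transpose_transpose, hA2,
        Matrix.mul_assoc]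
  have hsa := Eof_sa D _ hQs h
  have hid := Eof_idem D
  have htr := Eof_trace D
  have h21 := lower_zero Nn S hSs hS (Eof D) hid hsa
  have hE : Eof D = fromBlocks (Eof D).toBlocks₁₁ (Eof D).toBlocks₁₂ 0 (Eof D).toBlocks₂₂ := by
    rw [← h21]
    exact (fromBlocks_toBlocks _).symm
  generalize (Eof D).toBlocks₁₁ = E1 at hE
  generalize (Eof D).toBlocks₁₂ = E12 at hE
  generalize (Eof D).toBlocks₂₂ = E2 at hE
  rw [hE] at hid hsa htr
  obtain ⟨hE1, hE2, hA, hB⟩ := upper_blocks Nn S E1 E12 E2 hid hsa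
  have i1 := indec A2 hA2 2 A2_min (fun i => by simp [A2]; norm_num)
    (fun i j hij => by simp [A2, Matrix.one_apply_ne hij]) E1 hE1 hA
  have i2 := indec S hSs (1952 * ((m : ℝ) + 1)) (S_min S hS) (S_diag S hS) (S_off S hS) E2 hE2 hB
  have htf : (fromBlocks E1 E12 0 E2).trace = E1.trace + E2.trace := by
    simp [Matrix.trace]
  rw [htf] at htr
  have hm0 : (3 : ℤ) ≤ m := by exact_mod_cast hm
  rcases i2 with h2 | h2
  · rcases i1 with h3 | h3
    · exfalso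
      rw [h2, h3, trace_zero, trace_zero] at htr
      norm_num at htr
    · refine Eof_tor D E12 ?_
      rw [hE, h2, h3]
  · exfalso
    rw [h2, trace_one] at htr
    rcases i1 with h3 | h3
    · rw [h3, trace_zero] at htr
      simp at htr
      omega
    · rw [h3, trace_one] at htr
      simp at htr
      omega

end Pool.Agent.Lib.Mor
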