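import Pool.Agent.Lib.Mor.Defs

/-!
INVARIANCE OF `idx` UNDER LINEAR MAPS OF POSITIVE DETERMINANT (50 lines).
PROOF: `of (fun k => y (i.succAbove k) ᵥ* L) = (of fun k => y (i.succAbove k)) * L` (rows), so
`dts` of the new family is `dts y i * det L` (`Matrix.det_mul`) and has the same sign.
-/

namespace Pool.Agent.Lib.Mor

open Matrix

theorem dts_mul {N : ℕ} (y : Fin (N + 1) → Fin N → ℝ) (L : Matrix (Fin N) (Fin N) ℝ)
    (i : Fin (N + 1)) : dts (fun j => (y j) ᵥ* L) i = dts y i * L.det := by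
  unfold dts
  have h : (Matrix.of fun k : Fin N => (y (i.succAbove k)) ᵥ* L)
      = (Matrix.of fun k : Fin N => y (i.succAbove k)) * L := by
    ext a b
    rfl
  rw [h, Matrix.det_mul, mul_assoc]

theorem idx_mul {N : ℕ} (y : Fin (N + 1) → Fin N → ℝ) (L : Matrix (Fin N) (Fin N) ℝ)
    (hL : 0 < L.det) : idx (fun j => (y j) ᵥ* L) = idx y := by
  unfold idx
  have h1 : (∀ i, 0 < dts (fun j => (y j) ᵥ* L) i) ↔ ∀ i, 0 < dts y i := by
    refine forall_congr' fun i => ?_
    rw [dts_mul]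
    exact mul_pos_iff_of_pos_right hL
  have h2 : (∀ i, dts (fun j => (y j) ᵥ* L) i < 0) ↔ ∀ i, dts y i < 0 := by
    refine forall_congr' fun i => ?_
    rw [dts_mul]
    constructor
    · intro h
      by_contra hc
      exact absurd (mul_nonneg (not_lt.mp hc) hL.le) (not_le.mpr h)
    · intro h
      exact mul_neg_of_neg_of_pos h hL
  simp only [h1, h2]

end Pool.Agent.Lib.Mor
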