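import Pool.Agent.Lib.Mor.Defs
import Pool.Agent.Lib.Mor.Act
import Pool.Agent.Lib.Mor.Block
import Pool.Agent.Lib.Mor.IdxMul

/-!
INDEPENDENCE OF THE REPRESENTATIVE AND INVARIANCE.
The contribution `ID D` of a decomposition `D` does not depend on the chosen representative
(`ID_mk`, `crs_zero_iff`), `Γ` permutes the contributions (`ID_act`), and so `hcf` is invariant.
-/

namespace Pool.Agent.Lib.Mor

open Matrix

private theorem Coset_key {m : ℕ} (hm : Even m) (g : Gm m) :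
    ∃ K : Matrix (Fin (2 * m)) (Fin (2 * m)) ℝ, 0 < K.det ∧
      ∀ z : Vm m, crs (act ((g : Gm m ⧸ Mst m).out)⁻¹ z) = (crs (act g⁻¹ z)) ᵥ* K := by
  set h : Gm m := (g : Gm m ⧸ Mst m).out with hh
  have hk : h⁻¹ * g ∈ Mst m := by
    rw [← QuotientGroup.eq, hh, QuotientGroup.out_eq']
  obtain ⟨K, hK, hKx⟩ := block_K hm (h⁻¹ * g) hk
  refine ⟨K, hK, fun z => ?_⟩
  rw [← hKx, ← act_mul]
  congr 3
  group

theorem ID_mk {m : ℕ} (hm : Even m) (g : Gm m) (x : Fin (2 * m + 1) → Vm m) :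
    ID (g : Gm m ⧸ Mst m) x = idx (fun i => crs (act g⁻¹ (sy (x i)))) := by
  obtain ⟨K, hK, hKx⟩ := Coset_key hm g
  unfold ID
  rw [← idx_mul (fun i => crs (act g⁻¹ (sy (x i)))) K hK]
  congr 1
  funext i
  exact hKx _

theorem crs_zero_iff {m : ℕ} (hm : Even m) (g : Gm m) (Q : Vm m) :
    crs (act ((g : Gm m ⧸ Mst m).out)⁻¹ Q) = 0 ↔ crs (act g⁻¹ Q) = 0 := by
  obtain ⟨K, hK, hKx⟩ := Coset_key hm g
  rw [hKx]
  constructor
  · intro h
    exact Matrix.eq_zero_of_vecMul_eq_zero hK.ne' h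
  · intro h
    rw [h, Matrix.zero_vecMul]

theorem ID_act {m : ℕ} (hm : Even m) (D : Gm m ⧸ Mst m) (h : Gm m) (x : Fin (2 * m + 1) → Vm m) :
    ID D (fun i => act h (x i)) = ID (h⁻¹ • D) x := by
  obtain ⟨g, rfl⟩ := QuotientGroup.mk_surjective D
  have hD : h⁻¹ • (g : Gm m ⧸ Mst m) = ((h⁻¹ * g : Gm m) : Gm m ⧸ Mst m) := rfl
  rw [hD, ID_mk hm, ID_mk hm]
  congr 1
  funext i
  have h2 : (h⁻¹ * g)⁻¹ = g⁻¹ * h := by simp
  rw [sy_act, ← act_mul, h2]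

theorem hcf_inv {m : ℕ} (hm : Even m) (h : Gm m) (g : Fin (2 * m + 1) → Gm m)
    (x : Fin (2 * m + 1) → Vm m) : hcf (fun i => h * g i) x = hcf g x := by
  unfold hcf
  have h1 : ∀ D : Gm m ⧸ Mst m, ID D (fun i => act (h * g i) (x i)) =
      ID ((MulAction.toPerm h⁻¹ : Equiv.Perm (Gm m ⧸ Mst m)) D) (fun i => act (g i) (x i)) := by
    intro D
    rw [MulAction.toPerm_apply, ← ID_act hm]
    congr 1
    funext i
    exact act_mul _ _ _
  rw [finsum_congr h1]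
  exact finsum_comp_equiv (MulAction.toPerm h⁻¹ : Equiv.Perm (Gm m ⧸ Mst m))
    (f := fun D => ID D (fun i => act (g i) (x i)))

end Pool.Agent.Lib.Mor
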