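import Pool.Agent.Lib.Mor.Defs

/-!
THE ITERATED FUNCTIONAL: LINEARITY, CONSTANTS, OMITTING A VARIABLE (100 lines).
PROOFS by induction on `k`, `iter` unfolds by `rfl` / `simp only [iter]`.
iter_sum: `k = 0` trivial; step: the inner values are sums by induction, and `lam` is linear
(`map_sum`, write `a j * c` as `a j • c`).
iter_const: step: `lam (fun _ => c) = c * lam 1 = c` (`fun _ => c = c • fun _ => 1`).
iter_omit, induction on `k`: for `i = 0`: `Fin.cons x v` without entry 0 is `v`, so the value is
`lam (fun x => iter lam k F) = iter lam k F` (constant). For `i = i'.succ` (then `k = k'+1`):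
`(Fin.cons x v) ∘ (i'.succ).succAbove = Fin.cons x (v ∘ i'.succAbove)` (`Fin.cons_succ_succAbove`-type lemma: check at 0 and at successors, `Fin.succ_succAbove_zero`, `Fin.succ_succAbove_succ`), so by
induction the inner value is `iter lam k' (fun v => F (Fin.cons x v))`, and the outer `lam` gives `iter lam (k'+1) F`.
-/

namespace Pool.Agent.Lib.Mor

open Matrix

theorem iter_sum {V : Type} (lam : (V → ℚ) →ₗ[ℚ] ℚ) {J : Type} (s : Finset J) (a : J → ℚ) (k : ℕ)
    (F : J → (Fin k → V) → ℚ) :
    iter lam k (fun v => ∑ j ∈ s, a j * F j v) = ∑ j ∈ s, a j * iter lam k (F j) := by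
  induction k with
  | zero => simp only [iter]
  | succ k ih =>
    simp only [iter]
    have h : (fun x => iter lam k (fun v => ∑ j ∈ s, a j * F j (Fin.cons x v)))
        = ∑ j ∈ s, a j • (fun x => iter lam k (fun v => F j (Fin.cons x v))) := by
      funext x
      rw [ih (fun j v => F j (Fin.cons x v))]
      simp [Finset.sum_apply]
    rw [h, map_sum]
    refine Finset.sum_congr rfl fun j _ => ?_
    rw [map_smul, smul_eq_mul]

theorem iter_const {V : Type} (lam : (V → ℚ) →ₗ[ℚ] ℚ) (h1 : lam (fun _ => 1) = 1) (k : ℕ) (c : ℚ) :
    iter lam k (fun _ => c) = c := by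
  induction k with
  | zero => simp only [iter]
  | succ k ih =>
    simp only [iter]
    rw [ih]
    have h : (fun _ : V => c) = c • (fun _ : V => (1 : ℚ)) := by
      funext x; simp
    rw [h, map_smul, h1]; simp

theorem iter_omit {V : Type} (lam : (V → ℚ) →ₗ[ℚ] ℚ) (h1 : lam (fun _ => 1) = 1) (k : ℕ)
    (i : Fin (k + 1)) (F : (Fin k → V) → ℚ) :
    iter lam (k + 1) (fun v => F (fun j => v (i.succAbove j))) = iter lam k F := by
  induction k with
  | zero =>
    simp only [iter]
    have h : (fun x : V => F (fun j : Fin 0 =>
        (Fin.cons x (fun i : Fin 0 => i.elim0) : Fin 1 → V) (i.succAbove j)))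
        = F (fun i => i.elim0) • (fun _ : V => (1 : ℚ)) := by
      funext x
      simp only [Pi.smul_apply, smul_eq_mul, mul_one]
      congr 1
      funext j
      exact j.elim0
    rw [h, map_smul, h1]; simp
  | succ k ih =>
    refine Fin.cases ?_ (fun i' => ?_) i
    · have h : (fun x : V => iter lam (k + 1) (fun v => F (fun j =>
          (Fin.cons x v : Fin (k + 1 + 1) → V) ((0 : Fin (k + 1 + 1)).succAbove j))))
          = (iter lam (k + 1) F) • (fun _ : V => (1 : ℚ)) := by
        funext x
        simp only [Pi.smul_apply, smul_eq_mul, mul_one]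
        congr 1
      rw [iter, h, map_smul, h1]; simp
    · have h : (fun x : V => iter lam (k + 1) (fun v => F (fun j =>
          (Fin.cons x v : Fin (k + 1 + 1) → V) (i'.succ.succAbove j))))
          = (fun x : V => iter lam k (fun v => F (Fin.cons x v))) := by
        funext x
        rw [← ih i' (fun v => F (Fin.cons x v))]
        congr 1
        funext v
        congr 1
        funext j
        refine Fin.cases ?_ (fun j' => ?_) j
        · simp
        · simp [Fin.succ_succAbove_succ]
      rw [iter, h]
      simp only [iter]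

end Pool.Agent.Lib.Mor
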