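import Pool.Agent.Lib.Mor.Defs

/-!
THE ITERATED FUNCTIONAL IGNORES NON-GENERIC TUPLES (90 lines).
PROOF: show by induction on `k`, for all countable `S0` and all `F`: if `F v = 0` for all
`v : Fin k → V` with `v j ∈ U` and `v j ∉ bad (S0 ∪ v '' Set.Iio j) n` for all `j, n`, then
`iter lam k F = 0`; the theorem is `S0 = ∅`. `k = 0`: `F` of the empty tuple is 0 (conditions empty).
Step: `iter lam (k+1) F = lam (fun x => iter lam k (fun v => F (Fin.cons x v)))`; the function
`x ↦ iter lam k ..` is `Small U` with the sequence `bad S0` (proper by `hbad`): if `x ∈ U` and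
`x ∉ bad S0 n` for all `n`, then the induction hypothesis for `insert x S0` (countable) applies to
`fun v => F (Fin.cons x v)`: for `v` with `v j ∈ U`, `v j ∉ bad (insert x S0 ∪ v '' Iio j) n` the tuple
`Fin.cons x v` satisfies the hypotheses of `F`: at 0, `(Fin.cons x v) '' Set.Iio 0 = ∅`, at
`j.succ`, `S0 ∪ (Fin.cons x v) '' Set.Iio j.succ = insert x S0 ∪ v '' Set.Iio j`. So `lam` gives 0 by `h0`.
-/

namespace Pool.Agent.Lib.Mor

open Matrix

private theorem iterzero_aux {V : Type} [AddCommGroup V] [Module ℝ V] {U : Set V}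
    (lam : (V → ℚ) →ₗ[ℚ] ℚ)
    (h0 : ∀ f, Small U f → lam f = 0) (bad : Set V → ℕ → Submodule ℝ V)
    (hbad : ∀ S : Set V, S.Countable → ∀ n, bad S n ≠ ⊤) (k : ℕ) :
    ∀ (S0 : Set V), S0.Countable → ∀ (F : (Fin k → V) → ℚ),
    (∀ v : Fin k → V, (∀ j, v j ∈ U) → (∀ j n, v j ∉ bad (S0 ∪ v '' Set.Iio j) n) → F v = 0) →
    iter lam k F = 0 := by
  induction k with
  | zero =>
    intro S0 _ F hF
    simp only [iter]
    exact hF _ (fun j => j.elim0) (fun j => j.elim0)
  | succ k ih =>
    intro S0 hS0 F hF
    simp only [iter]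
    apply h0
    refine ⟨bad S0, hbad S0 hS0, fun x hx hxb => ?_⟩
    refine ih (insert x S0) (hS0.insert x) (fun v => F (Fin.cons x v)) fun v hvU hvb => ?_
    refine hF _ (fun j => ?_) (fun j => ?_)
    · refine Fin.cases ?_ (fun j => ?_) j
      · simpa using hx
      · simpa using hvU j
    · refine Fin.cases ?_ (fun j => ?_) j
      · intro n
        have e : (Fin.cons x v : Fin (k + 1) → V) '' Set.Iio (0 : Fin (k + 1)) = ∅ := by
          ext y
          simp
        rw [e, Set.union_empty]
        simpa using hxb n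
      · intro n
        have e : S0 ∪ (Fin.cons x v : Fin (k + 1) → V) '' Set.Iio j.succ
            = insert x S0 ∪ v '' Set.Iio j := by
          ext y
          simp only [Set.mem_union, Set.mem_image, Set.mem_Iio, Set.mem_insert_iff]
          constructor
          · rintro (h | ⟨i, hi, rfl⟩)
            · exact Or.inl (Or.inr h)
            · revert hi
              refine Fin.cases ?_ (fun i => ?_) i
              · intro _
                left; left; simp
              · intro hi
                right
                exact ⟨i, Fin.succ_lt_succ_iff.1 hi, by simp⟩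
          · rintro ((rfl | h) | ⟨i, hi, rfl⟩)
            · right
              exact ⟨0, Fin.succ_pos j, by simp⟩
            · exact Or.inl h
            · right
              exact ⟨i.succ, Fin.succ_lt_succ_iff.2 hi, by simp⟩
        rw [e]
        simpa using hvb j n

theorem iter_zero {V : Type} [AddCommGroup V] [Module ℝ V] {U : Set V} (lam : (V → ℚ) →ₗ[ℚ] ℚ)
    (h0 : ∀ f, Small U f → lam f = 0) (bad : Set V → ℕ → Submodule ℝ V)
    (hbad : ∀ S : Set V, S.Countable → ∀ n, bad S n ≠ ⊤) (k : ℕ) (F : (Fin k → V) → ℚ)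
    (hF : ∀ v : Fin k → V, (∀ j, v j ∈ U) → (∀ j n, v j ∉ bad (v '' Set.Iio j) n) → F v = 0) :
    iter lam k F = 0 := by
  refine iterzero_aux lam h0 bad hbad k ∅ Set.countable_empty F fun v h1 h2 => hF v h1 ?_
  intro j n
  have := h2 j n
  rwa [Set.empty_union] at this

end Pool.Agent.Lib.Mor
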