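import Pool.Agent.Lib.Mor.Defs

/-!
SOURCES AND SINKS (120 lines, pure combinatorics; only Mathlib).
A source is an `i` with `t i k > 0` for all `k <> i`, a sink an `i` with `t i k < 0` for all
`k <> i`. PROOF. (1) At most one source: two sources `i <> j` give `t i j > 0`, `t j i > 0`,
contradiction to `ht`. At most one sink in the same way. (2) If there is a source `i` then there is
a sink. If `n = 1`, `i` itself is a sink (empty condition). Otherwise consider `S = {k | k <> i}`,
finite and nonempty. For `j, k, l` in `S`: `t j k > 0` and `t k l > 0` imply `t j l > 0`: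
`hrel` says `t k i * t j l = t j i * t k l - t j k * t i l`, here `t k i < 0`, `t j i < 0`,
`t k l > 0`, `t j k > 0`, `t i l > 0`, so the right side is `< 0`, so `t j l > 0`. So
`R j k := t j k > 0` is transitive and irreflexive (`t j j = 0` from `ht`) on the finite nonempty
set `S` and there is `j` in `S` with no `k` in `S`, `t j k > 0` (e.g. take `j` in `S` minimising the
number of `k` in `S` with `t j k > 0`: if some `k` has `t j k > 0`, then every `l` with `t k l > 0`
has `t j l > 0` and `k` is counted for `j` but not for `k`, so `k` has a smaller number). For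
`k <> j` in `S`: `t j k <> 0` and not `> 0`, so `< 0`; for `k = i`: `t j i = - t i j < 0`. So `j`
is a sink. (3) If there is a sink then there is a source: apply (2) to `-t` (all hypotheses hold for
`-t`: in `hrel` every term is a product of two values). (4) The sum is the number of sources minus the number of sinks:
both are 0, or both are 1 (`Finset.sum_sub_distrib`, `Finset.sum_ite_eq` or `Finset.sum_eq_single`).
-/

namespace Pool.Agent.Lib.Mor

open Matrix

private theorem Gale_sink {n : ℕ} (t : Fin n → Fin n → ℝ) (ht : ∀ i k, t i k = - t k i)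
    (hne : ∀ i k, i ≠ k → t i k ≠ 0)
    (hrel : ∀ i j k l, t k i * t j l = t j i * t k l - t j k * t i l)
    (i : Fin n) (hi : ∀ k, k ≠ i → 0 < t i k) : ∃ j, ∀ k, k ≠ j → t j k < 0 := by
  classical
  by_cases hS : (Finset.univ.filter (fun k => k ≠ i)).Nonempty
  · obtain ⟨j, hj, hmin⟩ := Finset.exists_min_image (Finset.univ.filter (fun k => k ≠ i))
      (fun j => ((Finset.univ.filter (fun k => k ≠ i)).filter (fun k => 0 < t j k)).card) hS
    refine ⟨j, fun k hk => ?_⟩
    have hji : j ≠ i := by simpa using hj
    by_cases hki : k = i
    · subst hki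
      have := hi j hji
      rw [ht j k]
      linarith
    · rcases lt_or_gt_of_ne (hne j k (Ne.symm hk)) with h | h
      · exact h
      · exfalso
        have hkS : k ∈ Finset.univ.filter (fun k => k ≠ i) := by simp [hki]
        have hle := hmin k hkS
        have htkk : t k k = 0 := by have := ht k k; linarith
        have hsub : ((Finset.univ.filter (fun k => k ≠ i)).filter (fun l => 0 < t k l)) ⊂
            ((Finset.univ.filter (fun k => k ≠ i)).filter (fun l => 0 < t j l)) := by
          refine ⟨fun l hl => ?_, fun hcon => ?_⟩
          · simp only [Finset.mem_filter, Finset.mem_univ, true_and] at hl ⊢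
            refine ⟨hl.1, ?_⟩
            have hr := hrel i j k l
            have h1 : t k i < 0 := by have := hi k hki; rw [ht k i]; linarith
            have h2 : t j i < 0 := by have := hi j hji; rw [ht j i]; linarith
            have h3 : 0 < t i l := hi l hl.1
            have h4 : t j i * t k l < 0 := mul_neg_of_neg_of_pos h2 hl.2
            have h5 : 0 < t j k * t i l := mul_pos h h3
            have h6 : t k i * t j l < 0 := by rw [hr]; linarith
            by_contra hneg
            have h7 : 0 ≤ t k i * t j l := mul_nonneg_of_nonpos_of_nonpos h1.le (not_lt.1 hneg)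
            linarith
          · have hk2 : k ∈ ((Finset.univ.filter (fun k => k ≠ i)).filter (fun l => 0 < t j l)) := by
              simp only [Finset.mem_filter, Finset.mem_univ, true_and]
              exact ⟨hki, h⟩
            have := hcon hk2
            simp only [Finset.mem_filter, Finset.mem_univ, true_and, htkk] at this
            exact absurd this.2 (lt_irrefl _)
        have hlt := Finset.card_lt_card hsub
        exact absurd hle (not_le.2 hlt)
  · refine ⟨i, fun k hk => ?_⟩
    exact absurd ⟨k, by simp [hk]⟩ hS

private theorem Gale_unique {n : ℕ} (t : Fin n → Fin n → ℝ) (ht : ∀ i k, t i k = - t k i)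
    (i j : Fin n) (hi : ∀ k, k ≠ i → 0 < t i k) (hj : ∀ k, k ≠ j → 0 < t j k) : i = j := by
  by_contra h
  have h1 := hi j (Ne.symm h)
  have h2 := hj i h
  have := ht i j
  linarith

private theorem Gale_count {n : ℕ} (P : Fin n → Prop) [DecidablePred P]
    (hu : ∀ i j, P i → P j → i = j) :
    ∑ i, (if P i then (1 : ℚ) else 0) = if (∃ i, P i) then 1 else 0 := by
  classical
  by_cases h : ∃ i, P i
  · obtain ⟨i, hi⟩ := h
    rw [if_pos ⟨i, hi⟩, Finset.sum_eq_single i, if_pos hi]
    · intro j _ hj
      exact if_neg fun hPj => hj (hu j i hPj hi)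
    · intro h
      exact absurd (Finset.mem_univ i) h
  · rw [if_neg h]
    refine Finset.sum_eq_zero fun i _ => if_neg fun hi => h ⟨i, hi⟩

open Classical in
theorem source_sink {n : ℕ} (t : Fin n → Fin n → ℝ) (ht : ∀ i k, t i k = - t k i)
    (hne : ∀ i k, i ≠ k → t i k ≠ 0)
    (hrel : ∀ i j k l, t k i * t j l = t j i * t k l - t j k * t i l) :
    ∑ i, ((if ∀ k, k ≠ i → 0 < t i k then (1 : ℚ) else 0)
      - (if ∀ k, k ≠ i → t i k < 0 then (1 : ℚ) else 0)) = 0 := by
  have hs : (∃ i, ∀ k, k ≠ i → 0 < t i k) ↔ (∃ i, ∀ k, k ≠ i → t i k < 0) := by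
    constructor
    · rintro ⟨i, hi⟩
      exact Gale_sink t ht hne hrel i hi
    · rintro ⟨i, hi⟩
      obtain ⟨j, hj⟩ := Gale_sink (fun a b => - t a b) (fun a b => by rw [ht a b])
        (fun a b hab => neg_ne_zero.2 (hne a b hab))
        (fun a b c d => by have := hrel a b c d; linear_combination this) i
        (fun k hk => by have := hi k hk; simp only [Left.neg_pos_iff]; exact this)
      exact ⟨j, fun k hk => by have := hj k hk; simpa using this⟩
  rw [Finset.sum_sub_distrib, Gale_count (fun i => ∀ k, k ≠ i → 0 < t i k)
    (fun i j hi hj => Gale_unique t ht i j hi hj),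
    Gale_count (fun i => ∀ k, k ≠ i → t i k < 0)
    (fun i j hi hj => Gale_unique (fun a b => - t a b) (fun a b => by rw [ht a b]) i j
      (fun k hk => by have := hi k hk; simp only [Left.neg_pos_iff]; exact this)
      (fun k hk => by have := hj k hk; simp only [Left.neg_pos_iff]; exact this))]
  by_cases h : ∃ i, ∀ k, k ≠ i → 0 < t i k
  · rw [if_pos h, if_pos (hs.1 h)]
    norm_num
  · rw [if_neg h, if_neg (fun h' => h (hs.2 h'))]
    norm_num

end Pool.Agent.Lib.Mor
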