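import Pool.Agent.Lib.Mor.Defs

/-!
CRAMER RELATION AND THE HULL (90 lines).
PROOF of cramer: fix a coordinate `c`. Let `B` be the `(N+1) x (N+1)` matrix with
`B i = Fin.cons (y i c) (y i)` (column 0 is the column `c` of `y`, the other columns are those of
`y`). Columns `0` and `c.succ` are equal, so `det B = 0` (`Matrix.det_zero_of_column_eq`). Expand
along column 0 (`Matrix.det_succ_column_zero`): `0 = sum_i (-1)^i * y i c * det (of fun k => y
(i.succAbove k))`, because the submatrix `(i.succAbove, Fin.succ)` of `B` is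
`of fun k => y (i.succAbove k)`. This is the coordinate `c` of the claim.
PROOF of hull_of_idx: if `idx y <> 0` then all `dts y i > 0` or all `dts y i < 0`; put
`s = sum_i dts y i` (nonzero, same sign, `Fin (N+1)` is nonempty), `w i = dts y i / s`. Then
`w i >= 0`, `sum w = 1`, `sum w i * y i = (1/s) * 0 = 0` by `cramer`.
-/

namespace Pool.Agent.Lib.Mor

open Matrix

theorem cramer {N : ℕ} (y : Fin (N + 1) → Fin N → ℝ) : ∑ i, dts y i • y i = 0 := by
  funext c
  have hdet : Matrix.det (Matrix.of fun (i : Fin (N + 1)) =>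
      (Fin.cons (y i c) (y i) : Fin (N + 1) → ℝ)) = 0 := by
    apply Matrix.det_zero_of_column_eq (i := 0) (j := c.succ)
    · exact (Fin.succ_ne_zero c).symm
    · intro i
      simp
  rw [Matrix.det_succ_column_zero] at hdet
  rw [Finset.sum_apply]
  simp only [Pi.smul_apply, smul_eq_mul, Pi.zero_apply]
  rw [← hdet]
  apply Finset.sum_congr rfl
  intro i _
  have hsub : (Matrix.of fun (i : Fin (N + 1)) =>
      (Fin.cons (y i c) (y i) : Fin (N + 1) → ℝ)).submatrix i.succAbove Fin.succ
      = Matrix.of fun k : Fin N => y (i.succAbove k) := by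
    ext a b
    simp
  rw [hsub]
  unfold dts
  simp only [Matrix.of_apply, Fin.cons_zero]
  ring

private theorem Cramer_hull_aux {N : ℕ} (y : Fin (N + 1) → Fin N → ℝ) (s : ℝ)
    (hs : ∑ i, dts y i = s) (hs0 : s ≠ 0) (hw : ∀ i, 0 ≤ dts y i / s) : Hull y := by
  refine ⟨fun i => dts y i / s, hw, ?_, ?_⟩
  · rw [← Finset.sum_div, hs, div_self hs0]
  · have : ∀ i, (dts y i / s) • y i = s⁻¹ • (dts y i • y i) := by
      intro i
      rw [smul_smul, div_eq_inv_mul]
    simp only [this]
    rw [← Finset.smul_sum, cramer, smul_zero]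

theorem hull_of_idx {N : ℕ} (y : Fin (N + 1) → Fin N → ℝ) (h : idx y ≠ 0) : Hull y := by
  unfold idx at h
  split_ifs at h with h1 h2
  · have hs : 0 < ∑ i, dts y i :=
      Finset.sum_pos (fun i _ => h1 i) ⟨0, Finset.mem_univ _⟩
    exact Cramer_hull_aux y _ rfl hs.ne' (fun i => (div_pos (h1 i) hs).le)
  · have hs : ∑ i, dts y i < 0 :=
      Finset.sum_neg (fun i _ => h2 i) ⟨0, Finset.mem_univ _⟩
    exact Cramer_hull_aux y _ rfl hs.ne (fun i => (div_pos_of_neg_of_neg (h2 i) hs).le)
  · exact absurd rfl h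

end Pool.Agent.Lib.Mor
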