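import Pool.Agent.Lib.Mor.Defs
import Pool.Agent.Lib.Mor.Cramer

/-!
THE ANTISYMMETRIC FUNCTION `tt` OF `N+2` VECTORS IN `R^N` (160 lines).
`tt y i k = (-1)^i * (0 if k = i, otherwise dts (y without row i) at the position of k)`.
PROOFS. tt_self, tt_succAbove: `Fin.insertNth_apply_same`, `Fin.insertNth_apply_succAbove`.
tt_anti: for `k = i` both sides are 0. For `k < i` (as `Fin`): the position of `k` in the list
without `i` is `k` (`k = i.succAbove (k.castPred ..)`), so
`tt y i k = (-1)^i (-1)^k D`, `D` = the minor of `y` without the rows `i` and `k`; the position of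
`i` in the list without `k` is `i - 1`, so `tt y k i = (-1)^k (-1)^(i-1) D = - tt y i k`. Both
minors are the determinant of the same matrix: for `i = k.succAbove j`, `k = i.succAbove j'` the maps
`i.succAbove ∘ j'.succAbove` and `k.succAbove ∘ j.succAbove` agree (both are the increasing
enumeration of the complement of `{i,k}`; `Fin.succAbove_succAbove_succAbove_predAbove` or
uniqueness of strictly monotone maps with the same range, `Fin.strictMono_unique`).
tt_ne: from `hy` and tt_succAbove (`k = i.succAbove j` for some `j`, `Fin.exists_succAbove_eq`).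
tt_sum: `∑ k, tt y i k • y k = (-1)^i ∑ j, dts .. j • y (i.succAbove j) = 0` by `Fin.sum_univ_succAbove _ i` and `cramer`.
tt_rel: if `i = k` both sides are equal by tt_anti and tt_self (`t j i t i l - t j i t i l = 0`).
If `i <> k`: put `mu = t(k,i) • tt y j - t(j,i) • tt y k + t(j,k) • tt y i` (as a function of `l`). It satisfies
`∑ l, mu l • y l = 0` by tt_sum and vanishes at `l = i` (`t(k,i) t(j,i) - t(j,i) t(k,i) + 0`) and at
`l = k` (`t(k,i) t(j,k) - 0 + t(j,k) t(i,k) = 0`). The remaining `N` rows (all but `i` and `k`) are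
linearly independent because their determinant is nonzero (`hy`, `Matrix.linearIndependent_rows_of_det_ne_zero`),
so `mu = 0` (sum over `Fin (N+2)` = term `i` + sum over `Fin (N+1)` = + term `k` + sum over `Fin N`,
twice `Fin.sum_univ_succAbove`). `mu l = 0` is the claim.
-/

namespace Pool.Agent.Lib.Mor

open Matrix

/-- the antisymmetric function of `N + 2` vectors in `R^N` -/
noncomputable def tt {N : ℕ} (y : Fin (N + 2) → Fin N → ℝ) (i k : Fin (N + 2)) : ℝ :=
  (-1) ^ (i : ℕ) * (Fin.insertNth i (0 : ℝ) (dts (fun j : Fin (N + 1) => y (i.succAbove j))) :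
    Fin (N + 2) → ℝ) k

theorem tt_succAbove {N : ℕ} (y : Fin (N + 2) → Fin N → ℝ) (i : Fin (N + 2)) (j : Fin (N + 1)) :
    tt y i (i.succAbove j) = (-1) ^ (i : ℕ) * dts (fun j : Fin (N + 1) => y (i.succAbove j)) j := by
  unfold tt
  rw [Fin.insertNth_apply_succAbove]

private theorem TRel_self {N : ℕ} (y : Fin (N + 2) → Fin N → ℝ) (i : Fin (N + 2)) :
    tt y i i = 0 := by
  unfold tt
  rw [Fin.insertNth_apply_same, mul_zero]

theorem tt_anti {N : ℕ} (y : Fin (N + 2) → Fin N → ℝ) (i k : Fin (N + 2)) :
    tt y i k = - tt y k i := by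
  rcases eq_or_ne k i with h | h
  · subst h
    rw [TRel_self]; simp
  · obtain ⟨j, rfl⟩ := Fin.exists_succAbove_eq h
    have h1 := tt_succAbove y i j
    have h2 := tt_succAbove y (i.succAbove j) (j.predAbove i)
    rw [Fin.succAbove_succAbove_predAbove] at h2
    rw [h1, h2]
    unfold dts
    have h3 : (Matrix.of fun k : Fin N =>
        y ((i.succAbove j).succAbove ((j.predAbove i).succAbove k))) =
        Matrix.of fun k : Fin N => y (i.succAbove (j.succAbove k)) := by
      ext a b
      simp only [Matrix.of_apply]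
      rw [Fin.succAbove_succAbove_succAbove_predAbove]
    rw [h3]
    have h4 := Fin.neg_one_pow_succAbove_add_predAbove (R := ℝ) i j
    rw [← mul_assoc, ← mul_assoc, ← pow_add, ← pow_add, h4]
    simp only [neg_mul, neg_neg]

theorem tt_ne {N : ℕ} (y : Fin (N + 2) → Fin N → ℝ)
    (hy : ∀ (i : Fin (N + 2)) (j : Fin (N + 1)),
      Matrix.det (Matrix.of fun k : Fin N => y (i.succAbove (j.succAbove k))) ≠ 0)
    (i k : Fin (N + 2)) (hik : i ≠ k) : tt y i k ≠ 0 := by
  obtain ⟨j, rfl⟩ := Fin.exists_succAbove_eq hik.symm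
  rw [tt_succAbove]
  unfold dts
  have := hy i j
  exact mul_ne_zero (pow_ne_zero _ (by norm_num)) (mul_ne_zero (pow_ne_zero _ (by norm_num)) this)

theorem tt_sum {N : ℕ} (y : Fin (N + 2) → Fin N → ℝ) (i : Fin (N + 2)) :
    ∑ k, tt y i k • y k = 0 := by
  rw [Fin.sum_univ_succAbove _ i, TRel_self, zero_smul, zero_add]
  have h := cramer (fun j : Fin (N + 1) => y (i.succAbove j))
  calc ∑ j, tt y i (i.succAbove j) • y (i.succAbove j)
      = ∑ j, ((-1 : ℝ) ^ (i : ℕ)) •
          (dts (fun j : Fin (N + 1) => y (i.succAbove j)) j • y (i.succAbove j)) := by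
        refine Finset.sum_congr rfl fun j _ => ?_
        rw [tt_succAbove, mul_smul]
    _ = 0 := by rw [← Finset.smul_sum, h, smul_zero]

theorem tt_rel {N : ℕ} (y : Fin (N + 2) → Fin N → ℝ)
    (hy : ∀ (i : Fin (N + 2)) (j : Fin (N + 1)),
      Matrix.det (Matrix.of fun k : Fin N => y (i.succAbove (j.succAbove k))) ≠ 0)
    (i j k l : Fin (N + 2)) :
    tt y k i * tt y j l = tt y j i * tt y k l - tt y j k * tt y i l := by
  rcases eq_or_ne k i with h | h
  · subst h
    rw [TRel_self]; ring
  · set mu : Fin (N + 2) → ℝ := fun l =>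
      tt y k i * tt y j l - tt y j i * tt y k l + tt y j k * tt y i l with hmu
    have hsum : ∑ l, mu l • y l = 0 := by
      have : ∑ l, mu l • y l = tt y k i • (∑ l, tt y j l • y l) - tt y j i • (∑ l, tt y k l • y l)
          + tt y j k • (∑ l, tt y i l • y l) := by
        rw [Finset.smul_sum, Finset.smul_sum, Finset.smul_sum, ← Finset.sum_sub_distrib,
          ← Finset.sum_add_distrib]
        refine Finset.sum_congr rfl fun l _ => ?_
        simp only [hmu, add_smul, sub_smul, mul_smul]
      rw [this, tt_sum, tt_sum, tt_sum]; simp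
    have hi : mu i = 0 := by
      simp only [hmu]
      rw [TRel_self]; ring
    have hk : mu k = 0 := by
      simp only [hmu]
      rw [TRel_self, tt_anti y i k]; ring
    obtain ⟨a, ha⟩ := Fin.exists_succAbove_eq h
    have hdet := hy i a
    have hli := Matrix.linearIndependent_rows_of_det_ne_zero hdet
    have h2 : ∑ b : Fin N, mu (i.succAbove (a.succAbove b)) • y (i.succAbove (a.succAbove b)) = 0 := by
      rw [Fin.sum_univ_succAbove _ i, hi, zero_smul, zero_add, Fin.sum_univ_succAbove _ a, ha, hk,
        zero_smul, zero_add] at hsum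
      exact hsum
    have h3 := Fintype.linearIndependent_iff.mp hli
      (fun b => mu (i.succAbove (a.succAbove b))) h2
    have h4 : mu l = 0 := by
      rcases eq_or_ne l i with e | e
      · rw [e]; exact hi
      · obtain ⟨c, rfl⟩ := Fin.exists_succAbove_eq e
        rcases eq_or_ne c a with e2 | e2
        · rw [e2, ha]; exact hk
        · obtain ⟨d, rfl⟩ := Fin.exists_succAbove_eq e2
          exact h3 d
    simp only [hmu] at h4
    linarith

end Pool.Agent.Lib.Mor
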