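import Pool.Agent.Lib.Mor.Defs
import Pool.Agent.Lib.Mor.Gale
import Pool.Agent.Lib.Mor.TRel

/-!
THE COCYCLE RELATION OF `idx` (70 lines).
PROOF: apply `source_sink` to `t = tt y` (`tt_anti`, `tt_ne`, `tt_rel`). It remains to see, for
every `i`, `(-1)^i * idx (y without i) = [all t i k > 0, k <> i] - [all t i k < 0, k <> i]`. By
`tt_succAbove` and `Fin.exists_succAbove_eq`, `for all k <> i, 0 < t i k` means
`for all j, 0 < (-1)^i * dts .. j`. If `i` is even this is the first condition of `idx` and the second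
bracket is the second condition (both cannot hold at once, `Fin (N+1)` is nonempty), if `i` is odd the conditions are exchanged and
`(-1)^i = -1`. Cases on `Nat.even_or_odd`, `split_ifs`.
-/

namespace Pool.Agent.Lib.Mor

open Matrix

theorem idx_rel {N : ℕ} (y : Fin (N + 2) → Fin N → ℝ)
    (hy : ∀ (i : Fin (N + 2)) (j : Fin (N + 1)),
      Matrix.det (Matrix.of fun k : Fin N => y (i.succAbove (j.succAbove k))) ≠ 0) :
    ∑ i : Fin (N + 2), (-1 : ℚ) ^ (i : ℕ) * idx (fun k => y (i.succAbove k)) = 0 := by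
  classical
  rw [← source_sink (tt y) (tt_anti y) (tt_ne y hy) (fun i j k l => tt_rel y hy i j k l)]
  refine Finset.sum_congr rfl fun i _ => ?_
  have hpos : (∀ k, k ≠ i → 0 < tt y i k) ↔
      ∀ j, 0 < (-1 : ℝ) ^ (i : ℕ) * dts (fun j : Fin (N + 1) => y (i.succAbove j)) j := by
    constructor
    · intro h j
      have := h (i.succAbove j) (Fin.succAbove_ne i j)
      rwa [tt_succAbove] at this
    · intro h k hk
      obtain ⟨j, rfl⟩ := Fin.exists_succAbove_eq hk
      rw [tt_succAbove]
      exact h j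
  have hneg : (∀ k, k ≠ i → tt y i k < 0) ↔
      ∀ j, (-1 : ℝ) ^ (i : ℕ) * dts (fun j : Fin (N + 1) => y (i.succAbove j)) j < 0 := by
    constructor
    · intro h j
      have := h (i.succAbove j) (Fin.succAbove_ne i j)
      rwa [tt_succAbove] at this
    · intro h k hk
      obtain ⟨j, rfl⟩ := Fin.exists_succAbove_eq hk
      rw [tt_succAbove]
      exact h j
  simp only [hpos, hneg]
  unfold idx
  rcases Nat.even_or_odd (i : ℕ) with hi | hi
  · simp only [hi.neg_one_pow, one_mul]
    by_cases h1 : ∀ j, 0 < dts (fun k => y (i.succAbove k)) j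
    · have h2 : ¬ ∀ j, dts (fun k => y (i.succAbove k)) j < 0 := fun h =>
        lt_asymm (h1 0) (h 0)
      rw [if_pos h1, if_pos h1, if_neg h2]
      norm_num
    · by_cases h2 : ∀ j, dts (fun k => y (i.succAbove k)) j < 0
      · rw [if_neg h1, if_neg h1, if_pos h2, if_pos h2]
        norm_num
      · rw [if_neg h1, if_neg h1, if_neg h2, if_neg h2]
        norm_num
  · simp only [hi.neg_one_pow, neg_one_mul, neg_pos, neg_lt_zero]
    by_cases h1 : ∀ j, 0 < dts (fun k => y (i.succAbove k)) j
    · have h2 : ¬ ∀ j, dts (fun k => y (i.succAbove k)) j < 0 := fun h =>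
        lt_asymm (h1 0) (h 0)
      rw [if_pos h1, if_pos h1, if_neg h2]
      norm_num
    · by_cases h2 : ∀ j, dts (fun k => y (i.succAbove k)) j < 0
      · rw [if_neg h1, if_neg h1, if_pos h2, if_pos h2]
        norm_num
      · rw [if_neg h1, if_neg h1, if_neg h2, if_neg h2]
        norm_num

end Pool.Agent.Lib.Mor
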