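import Pool.Agent.Lib.Mor.Defs
import Pool.Agent.Lib.Mor.Act
import Pool.Agent.Lib.Mor.EofD

/-!
FINITELY MANY DECOMPOSITIONS (110 lines).
PROOF. Let `D` be in the set, with `Q`, and `E = (Eof D)` as a real matrix. `E * E = E`, `Eᵀ Q = Q E` (`Eof_sa`). For real `v`:
`Q(v) = Q(E v) + Q(v - E v)` where `Q(v) = v ⬝ᵥ Q *ᵥ v`, since the mixed term is
`(E v)ᵀ Q (v - E v) = vᵀ Eᵀ Q (1 - E) v = vᵀ Q E (1 - E) v = 0` (and its transpose). `Q(v - E v) >= 0` by `Bd` (`c > 0`, `v ⬝ᵥ v >= 0`), so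
`c |E v|² <= Q(E v) <= Q(v) <= C |v|²`. For `v = Pi.single j 1`: `c * (E i j)² <= c * ∑ i, (E i j)² <= C`. So every entry of the integer matrix `Eof D` has
`(E i j)² <= C / c`, i.e. `|E i j| <= K` for a fixed natural `K`. The set of integer matrices with entries in `[-K, K]` is finite
(`Set.Finite.subset` of `Set.pi`-type finiteness, `Set.Finite.pi'`, `Set.finite_Icc`), and `Eof` is injective (`Eof_inj`), `Set.Finite.of_finite_image` / `Set.Finite.preimage`.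
-/

namespace Pool.Agent.Lib.Mor

open Matrix

private theorem finD_mixed {n : Type} [Fintype n] [DecidableEq n] (E Q : Matrix n n ℝ)
    (hE : E * E = E) (hs : Qᵀ = Q) (hsa : Eᵀ * Q = Q * E) (v : n → ℝ) :
    v ⬝ᵥ (Q *ᵥ v) = (E *ᵥ v) ⬝ᵥ (Q *ᵥ (E *ᵥ v)) +
      (v - E *ᵥ v) ⬝ᵥ (Q *ᵥ (v - E *ᵥ v)) := by
  have h1 : (E *ᵥ v) ⬝ᵥ (Q *ᵥ (v - E *ᵥ v)) = 0 := by
    have e1 : (E *ᵥ v) ⬝ᵥ (Q *ᵥ (v - E *ᵥ v)) = v ⬝ᵥ ((Eᵀ * Q) *ᵥ (v - E *ᵥ v)) := by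
      rw [← Matrix.mulVec_mulVec, Matrix.mulVec_transpose, dotProduct_comm v,
        ← Matrix.dotProduct_mulVec, dotProduct_comm]
    rw [e1, hsa, ← Matrix.mulVec_mulVec, Matrix.mulVec_sub, Matrix.mulVec_mulVec, hE, sub_self,
      Matrix.mulVec_zero, dotProduct_zero]
  have h2 : (v - E *ᵥ v) ⬝ᵥ (Q *ᵥ (E *ᵥ v)) = 0 := by
    have e2 : (v - E *ᵥ v) ⬝ᵥ (Q *ᵥ (E *ᵥ v)) = (E *ᵥ v) ⬝ᵥ (Q *ᵥ (v - E *ᵥ v)) := by
      conv_rhs => rw [← hs]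
      rw [Matrix.mulVec_transpose, Matrix.dotProduct_mulVec, dotProduct_comm]
    rw [e2, h1]
  have h3 : v = E *ᵥ v + (v - E *ᵥ v) := by abel
  calc v ⬝ᵥ (Q *ᵥ v) = (E *ᵥ v + (v - E *ᵥ v)) ⬝ᵥ (Q *ᵥ (E *ᵥ v + (v - E *ᵥ v))) := by
        rw [← h3]
    _ = _ := by
        rw [Matrix.mulVec_add, add_dotProduct, dotProduct_add, dotProduct_add, h1, h2]
        ring

private theorem finD_entry {m : ℕ} {c C : ℝ} (hc : 0 < c) (D : Gm m ⧸ Mst m) (Q : Vm m)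
    (hQ : Bd c C Q) (h : crs (act (D.out)⁻¹ Q) = 0) (i j : Ix m) :
    ((Eof D i j : ℤ) : ℝ) ^ 2 ≤ C / c := by
  set E : Vm m := (Eof D).map (fun z => (z : ℝ)) with hEdef
  have hEE : E * E = E := by
    have := congrArg (fun M : Matrix (Ix m) (Ix m) ℤ => M.map (Int.castRingHom ℝ)) (Eof_idem D)
    simp only [Matrix.map_mul] at this
    exact this
  have hsa : Eᵀ * Q = Q * E := Eof_sa D Q hQ.1 h
  have hm := finD_mixed E Q hEE hQ.1 hsa (Pi.single j 1)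
  set v : Ix m → ℝ := Pi.single j 1 with hv
  have h1 := (hQ.2 (E *ᵥ v)).1
  have h2 := (hQ.2 (v - E *ᵥ v)).1
  have h3 := (hQ.2 v).2
  have hnn : 0 ≤ (v - E *ᵥ v) ⬝ᵥ (v - E *ᵥ v) := by
    unfold dotProduct
    exact Finset.sum_nonneg (fun k _ => mul_self_nonneg _)
  have hvv : v ⬝ᵥ v = 1 := by
    rw [hv, dotProduct_single]
    simp
  have hEv : ∀ k, (E *ᵥ v) k = (Eof D k j : ℝ) := by
    intro k
    rw [hv, Matrix.mulVec_single_one]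
    rfl
  have hle : ((Eof D i j : ℤ) : ℝ) ^ 2 ≤ (E *ᵥ v) ⬝ᵥ (E *ᵥ v) := by
    unfold dotProduct
    have := Finset.single_le_sum (f := fun k => (E *ᵥ v) k * (E *ᵥ v) k)
      (fun k _ => mul_self_nonneg _) (Finset.mem_univ i)
    simp only [hEv] at this ⊢
    rw [sq]
    exact this
  rw [le_div_iff₀ hc]
  have h2' : 0 ≤ (v - E *ᵥ v) ⬝ᵥ (Q *ᵥ (v - E *ᵥ v)) :=
    le_trans (mul_nonneg hc.le hnn) h2
  have h4 : c * ((Eof D i j : ℤ) : ℝ) ^ 2 ≤ c * ((E *ᵥ v) ⬝ᵥ (E *ᵥ v)) :=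
    mul_le_mul_of_nonneg_left hle hc.le
  rw [hvv, mul_one] at h3
  nlinarith [h1, h2', h3, h4, hm]

theorem finD {m : ℕ} {c C : ℝ} (hc : 0 < c) :
    {D : Gm m ⧸ Mst m | ∃ Q : Vm m, Bd c C Q ∧ crs (act (D.out)⁻¹ Q) = 0}.Finite := by
  obtain ⟨K, hK⟩ := exists_nat_ge (C / c)
  have hfin : {M : Matrix (Ix m) (Ix m) ℤ | ∀ i j, M i j ∈ Set.Icc (-(K : ℤ)) K}.Finite := by
    have h1 : {f : Ix m → ℤ | ∀ j, f j ∈ Set.Icc (-(K : ℤ)) K}.Finite :=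
      Set.Finite.pi' (fun _ => Set.finite_Icc _ _)
    exact Set.Finite.pi' (t := fun _ : Ix m => {f : Ix m → ℤ | ∀ j, f j ∈ Set.Icc (-(K : ℤ)) K})
      (fun _ => h1)
  refine Set.Finite.of_finite_image (f := Eof) (hfin.subset ?_) (Eof_inj.injOn)
  rintro M ⟨D, ⟨Q, hQ, h⟩, rfl⟩ i j
  have h1 := finD_entry hc D Q hQ h i j
  have h2 : ((Eof D i j : ℤ) : ℝ) ^ 2 ≤ (K : ℝ) := h1.trans hK
  have h3 : (Eof D i j) ^ 2 ≤ (K : ℤ) := by exact_mod_cast h2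
  constructor
  · nlinarith [sq_nonneg (Eof D i j + 1), sq_nonneg (Eof D i j)]
  · nlinarith [sq_nonneg (Eof D i j - 1), sq_nonneg (Eof D i j)]

end Pool.Agent.Lib.Mor
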