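import Pool.Agent.Lib.Mor.Defs
import Pool.Agent.Lib.Mor.Act
import Pool.Agent.Lib.Mor.Cramer
import Pool.Agent.Lib.Mor.BdAct
import Pool.Agent.Lib.Mor.FinD

/-!
FINITE SUPPORT (50 lines).
PROOFS. ID_supp: `hull_of_idx` for `y i = crs (act (D.out)⁻¹ (sy (x i)))`, and linearity of `crs`, `act` (`map_sum`, `map_smul`).
supp_finite: the support is contained in the finite set of `finD` (for `Q = ∑ w i • sy (x i)`, `Bd c C Q` by `Bd_conv`).
-/

namespace Pool.Agent.Lib.Mor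

open Matrix

theorem ID_supp {m : ℕ} (D : Gm m ⧸ Mst m) (x : Fin (2 * m + 1) → Vm m) (h : ID D x ≠ 0) :
    ∃ w : Fin (2 * m + 1) → ℝ, (∀ i, 0 ≤ w i) ∧ ∑ i, w i = 1 ∧
      crs (act (D.out)⁻¹ (∑ i, w i • sy (x i))) = 0 := by
  obtain ⟨w, hw, h1, h2⟩ :=
    hull_of_idx (fun i => crs (act (D.out)⁻¹ (sy (x i)))) h
  refine ⟨w, hw, h1, ?_⟩
  rw [map_sum, map_sum, ← h2]
  exact Finset.sum_congr rfl fun i _ => by rw [map_smul, map_smul]

theorem supp_finite {m : ℕ} {c C : ℝ} (hc : 0 < c) (x : Fin (2 * m + 1) → Vm m)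
    (hx : ∀ i, Bd c C (sy (x i))) :
    (Function.support fun D : Gm m ⧸ Mst m => ID D x).Finite := by
  refine (finD (m := m) (c := c) (C := C) hc).subset ?_
  intro D hD
  obtain ⟨w, hw, h1, h2⟩ := ID_supp D x hD
  exact ⟨_, Bd_conv w hw h1 (fun i => sy (x i)) hx, h2⟩

end Pool.Agent.Lib.Mor
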