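import Pool.Agent.Lib.Mor.Defs
import Pool.Agent.Lib.Mor.Act
import Pool.Agent.Lib.Mor.Coset
import Pool.Agent.Lib.Mor.Supp
import Pool.Agent.Lib.Mor.Rel
import Pool.Agent.Lib.Mor.Iter
import Pool.Agent.Lib.Mor.IterZero
import Pool.Agent.Lib.Mor.Bad
import Pool.Agent.Lib.Mor.BdAct

/-!
THE COCYCLE RELATION OF THE COCHAIN (130 lines).
PROOF. Put `N = 2m`. Let `P : Gm m → Vm m →ₗ (Fin N → ℝ)`, `P g = crs ∘ₗ act g ∘ₗ sy`, surjective (`crs_surj`); `Gm m` is countable. Take `bad` from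
`exists_bad` (`N > 0`). By `iter_omit` each `iter lam (N+1) (hcf (fun k => g (i.succAbove k)))` equals
`iter lam (N+2) (fun v => hcf (fun k => g (i.succAbove k)) (fun k => v (i.succAbove k)))`, and by `iter_sum` the sum is
`iter lam (N+2) F` with `F v = ∑ i, (-1)^i * hcf (g without i) (v without i)`. By `iter_zero` it is enough that `F v = 0` if all `v j ∈ U` and `v` avoids `bad`.
Let `x j = act (g j) (v j)`; `sy (x j) = act (g j) (sy (v j))` is `Bd c' C'` with `c' > 0` uniform in `j` (`Bd_act_fin`), so for every `i` the support of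
`D ↦ ID D (x without i)` is finite (`supp_finite`). Hence `F v = ∑ i, ∑ᶠ D, (-1)^i * ID D (x without i) = ∑ᶠ D, ∑ i, (-1)^i * ID D (x without i)`
(`mul_finsum`, `finsum_sum_comm`). For every `D` the inner sum is 0 by `idx_rel` for
`y j = crs (act (D.out)⁻¹ (sy (x j))) = P ((D.out)⁻¹ * g j) (v j)` (`sy_act`, `act_mul`): the minors are nonzero by the property of `bad` with the
strictly monotone map `a ↦ i.succAbove (j.succAbove a)` and `h a = (D.out)⁻¹ * g (i.succAbove (j.succAbove a))`.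
-/

namespace Pool.Agent.Lib.Mor

open Matrix

private theorem Coc_F {m : ℕ} {c C : ℝ} (hc : 0 < c) (g : Fin (2 * m + 2) → Gm m)
    (v : Fin (2 * m + 2) → Vm m) (hv : ∀ j, Bd c C (sy (v j)))
    (hdet : ∀ (f : Fin (2 * m) → Fin (2 * m + 2)), StrictMono f → ∀ h : Fin (2 * m) → Gm m,
      Matrix.det (Matrix.of fun a : Fin (2 * m) =>
        (crs ∘ₗ act (h a) ∘ₗ sy : Vm m →ₗ[ℝ] (Fin (2 * m) → ℝ)) (v (f a))) ≠ 0) :
    ∑ i : Fin (2 * m + 2), (-1 : ℚ) ^ (i : ℕ) *
      hcf (fun k => g (i.succAbove k)) (fun k => v (i.succAbove k)) = 0 := by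
  classical
  obtain ⟨c', C', hc', hB⟩ := Bd_act_fin (C := C) hc g
  have hx : ∀ j, Bd c' C' (sy (act (g j) (v j))) := fun j => by
    rw [sy_act]; exact hB j _ (hv j)
  have hfin : ∀ i : Fin (2 * m + 2), (Function.support fun D : Gm m ⧸ Mst m =>
      ID D (fun k => act (g (i.succAbove k)) (v (i.succAbove k)))).Finite :=
    fun i => supp_finite hc' _ (fun k => hx _)
  have h1 : ∀ i : Fin (2 * m + 2), (-1 : ℚ) ^ (i : ℕ) *
      hcf (fun k => g (i.succAbove k)) (fun k => v (i.succAbove k)) =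
      ∑ᶠ D : Gm m ⧸ Mst m, (-1 : ℚ) ^ (i : ℕ) *
        ID D (fun k => act (g (i.succAbove k)) (v (i.succAbove k))) := by
    intro i
    unfold hcf
    rw [mul_finsum]
  rw [Finset.sum_congr rfl (fun i _ => h1 i), ← finsum_sum_comm]
  · apply finsum_eq_zero_of_forall_eq_zero
    intro D
    have := idx_rel (fun j : Fin (2 * m + 2) => crs (act (D.out)⁻¹ (sy (act (g j) (v j))))) ?_
    · exact this
    · intro i j
      have h2 := hdet (fun a => i.succAbove (j.succAbove a))
        ((Fin.strictMono_succAbove i).comp (Fin.strictMono_succAbove j))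
        (fun a => (D.out)⁻¹ * g (i.succAbove (j.succAbove a)))
      simpa only [LinearMap.coe_comp, Function.comp_apply, sy_act, act_mul] using h2
  · intro i _
    refine (hfin i).subset ?_
    intro D hD
    simp only [Function.mem_support] at hD ⊢
    exact right_ne_zero_of_mul hD

theorem hcl_coc {m : ℕ} (hm0 : 0 < m) {U : Set (Vm m)} (lam : (Vm m → ℚ) →ₗ[ℚ] ℚ)
    (h1 : lam (fun _ => 1) = 1) (h0 : ∀ f, Small U f → lam f = 0) {c C : ℝ} (hc : 0 < c)
    (hU : ∀ x ∈ U, Bd c C (sy x)) (g : Fin (2 * m + 2) → Gm m) :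
    ∑ i : Fin (2 * m + 2), (-1 : ℚ) ^ (i : ℕ) *
      iter lam (2 * m + 1) (hcf (fun k => g (i.succAbove k))) = 0 := by
  classical
  haveI : Countable (Matrix (Ix m) (Ix m) ℤ) :=
    inferInstanceAs (Countable (Ix m → Ix m → ℤ))
  haveI : Countable (Gm m) := (Units.val_injective (α := Matrix (Ix m) (Ix m) ℤ)).countable
  obtain ⟨bad, hbad1, hbad2⟩ := exists_bad (V := Vm m) (ι := Gm m) (N := 2 * m) (by omega)
    (fun g => crs ∘ₗ act g ∘ₗ sy) (fun g => crs_surj g)
  have hA : ∀ i : Fin (2 * m + 2), iter lam (2 * m + 1) (hcf (fun k => g (i.succAbove k))) =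
      iter lam (2 * m + 2) (fun v => hcf (fun k => g (i.succAbove k))
        (fun k => v (i.succAbove k))) := fun i =>
    (iter_omit lam h1 (2 * m + 1) i (hcf (fun k => g (i.succAbove k)))).symm
  rw [Finset.sum_congr rfl (fun i _ => by rw [hA i])]
  rw [← iter_sum lam Finset.univ (fun i : Fin (2 * m + 2) => (-1 : ℚ) ^ (i : ℕ)) (2 * m + 2)
    (fun i v => hcf (fun k => g (i.succAbove k)) (fun k => v (i.succAbove k)))]
  refine iter_zero lam h0 bad hbad1 (2 * m + 2) _ ?_
  intro v hvU hvbad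
  exact Coc_F hc g v (fun j => hU _ (hvU j)) (fun f hf h => hbad2 (2 * m + 2) v hvbad f hf h)

end Pool.Agent.Lib.Mor
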