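import Pool.Agent.Lib.Mor.Defs

/-!
# `Out F_n` and its action on the abelianisation
-/

namespace Pool.Agent.Lib.Mor

open Matrix

/-- `Out F = Aut F / Inn F` for the free group on `ι` -/
abbrev OutF (ι : Type) := MulAut (FreeGroup ι) ⧸ (MulAut.conj (G := FreeGroup ι)).range

instance OutF_normal (ι : Type) : ((MulAut.conj (G := FreeGroup ι)).range).Normal where
  conj_mem := by
    rintro _ ⟨x, rfl⟩ φ
    refine ⟨φ x, ?_⟩
    ext y
    simp [MulAut.conj_apply]

variable {ι : Type} [Fintype ι] [DecidableEq ι]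

/-- the exponent sum of the generator `i` -/
def expo (i : ι) : FreeGroup ι →* Multiplicative ℤ :=
  FreeGroup.lift (fun k => Multiplicative.ofAdd (if k = i then 1 else 0))

/-- the matrix of an automorphism on the abelianisation `ℤ^ι`: the entry `(i, j)` is the exponent
sum of the generator `i` in the image of the generator `j` -/
def abM (φ : MulAut (FreeGroup ι)) : Matrix ι ι ℤ :=
  Matrix.of fun i j => (expo i (φ (FreeGroup.of j))).toAdd

theorem expo_aut (φ : MulAut (FreeGroup ι)) (i : ι) (x : FreeGroup ι) :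
    (expo i (φ x)).toAdd = ∑ k, abM φ i k * (expo k x).toAdd := by
  let f : FreeGroup ι →* Multiplicative ℤ := (expo i).comp (φ : FreeGroup ι ≃* FreeGroup ι).toMonoidHom
  let g : FreeGroup ι →* Multiplicative ℤ :=
    { toFun := fun x => Multiplicative.ofAdd (∑ k, abM φ i k * (expo k x).toAdd)
      map_one' := by simp
      map_mul' := fun x y => by simp [mul_add, Finset.sum_add_distrib] }
  have hfg : f = g := by
    ext j
    simp [f, g, abM, expo]
  have := DFunLike.congr_fun hfg x
  exact congrArg Multiplicative.toAdd this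

theorem abM_mul (φ ψ : MulAut (FreeGroup ι)) : abM (φ * ψ) = abM φ * abM ψ := by
  ext i j
  rw [Matrix.mul_apply]
  have := expo_aut φ i (ψ (FreeGroup.of j))
  simpa [abM] using this

omit [Fintype ι] in
theorem abM_one : abM (1 : MulAut (FreeGroup ι)) = 1 := by
  ext i j
  by_cases h : i = j
  · subst h; simp [abM, expo]
  · have h' : j ≠ i := fun e => h e.symm
    simp [abM, expo, h, h']

/-- `Aut F → GL(n, ℤ)` -/
def pA : MulAut (FreeGroup ι) →* GL ι ℤ where
  toFun φ := ⟨abM φ, abM φ⁻¹, by rw [← abM_mul]; simp [abM_one], by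
    rw [← abM_mul]; simp [abM_one]⟩
  map_one' := by ext1; simp [abM_one]
  map_mul' φ ψ := by ext1; simp [abM_mul]

theorem pA_conj (x : FreeGroup ι) : pA (MulAut.conj x) = 1 := by
  ext i j
  have : (pA (MulAut.conj x) : Matrix ι ι ℤ) = abM (MulAut.conj x) := rfl
  rw [this]
  have h1 := congrFun (congrFun (abM_one (ι := ι)) i) j
  simp only [abM, Matrix.of_apply, MulAut.one_apply] at h1
  simp only [abM, Matrix.of_apply, MulAut.conj_apply, map_mul, map_inv, toAdd_mul, toAdd_inv]
  rw [Units.val_one]
  linarith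

/-- `p : Out F_n → GL(n, ℤ)`, the action on the abelianisation -/
def pO : OutF ι →* GL ι ℤ :=
  QuotientGroup.lift _ pA (by rintro _ ⟨x, rfl⟩; exact pA_conj x)

end Pool.Agent.Lib.Mor
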