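import Pool.Agent.Lib.Mor.Defs
import Pool.Agent.Lib.Mor.OutDefs

/-!
# The degree 8 question of MP_89f8a9_al as a formal consequence of `p^* ≠ 0`

If `p^* : H^8(GL(6,ℤ);ℚ) → H^8(Out F_6;ℚ)` is not zero and both groups are one-dimensional, then
`p^*` is bijective, and `i^* = 0` in degree 8 for every homomorphism `i : M → Out F_6` such that
`p ∘ i` factors through a group `K` with `H^8(K;ℚ) = 0`.
-/

namespace Pool.Agent.Lib.Mor

open Matrix CategoryTheory

/-- A non-zero linear map between one-dimensional spaces is bijective. -/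
private theorem Cor8_bij {V W : Type} [AddCommGroup V] [Module ℚ V] [AddCommGroup W] [Module ℚ W]
    (f : V →ₗ[ℚ] W) (hf : f ≠ 0) (hV : Module.finrank ℚ V = 1) (hW : Module.finrank ℚ W = 1) :
    Function.Bijective f := by
  have hfV : FiniteDimensional ℚ V := Module.finite_of_finrank_eq_succ hV
  have hfW : FiniteDimensional ℚ W := Module.finite_of_finrank_eq_succ hW
  have hr : Module.finrank ℚ (LinearMap.range f) ≠ 0 := by
    intro h
    apply hf
    have h1 : LinearMap.range f = ⊥ := Submodule.finrank_eq_zero.1 h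
    exact LinearMap.range_eq_bot.1 h1
  have hle : Module.finrank ℚ (LinearMap.range f) ≤ 1 := hW ▸ Submodule.finrank_le _
  have h1 : Module.finrank ℚ (LinearMap.range f) = 1 := by omega
  have hker : Module.finrank ℚ (LinearMap.ker f) = 0 := by
    have := LinearMap.finrank_range_add_finrank_ker f
    omega
  constructor
  · exact LinearMap.ker_eq_bot.1 (Submodule.finrank_eq_zero.1 hker)
  · exact LinearMap.range_eq_top.1 (Submodule.eq_top_of_finrank_eq (h1.trans hW.symm))

theorem cor8 (hp : HQ (pO (ι := Fin 6)) 8 ≠ 0)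
    (h1 : Module.finrank ℚ (groupCohomology (Rep.trivial ℚ (GL (Fin 6) ℤ) ℚ) 8) = 1)
    (h2 : Module.finrank ℚ (groupCohomology (Rep.trivial ℚ (OutF (Fin 6)) ℚ) 8) = 1) :
    Function.Bijective (HQ (pO (ι := Fin 6)) 8) ∧
      ∀ (M K : Type) [Group M] [Group K] (i : M →* OutF (Fin 6)) (a : M →* K)
        (b : K →* GL (Fin 6) ℤ), (pO (ι := Fin 6)).comp i = b.comp a →
        Subsingleton (groupCohomology (Rep.trivial ℚ K ℚ) 8) → HQ i 8 = 0 := by
  have hbij : Function.Bijective (HQ (pO (ι := Fin 6)) 8) := by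
    refine Cor8_bij (HQ (pO (ι := Fin 6)) 8).hom ?_ h1 h2
    intro h
    apply hp
    ext1
    exact h
  refine ⟨hbij, ?_⟩
  intro M K _ _ i a b hab hK
  have h3 : HQ (pO (ι := Fin 6)) 8 ≫ HQ i 8 = 0 := by
    rw [← HQ_comp, hab, HQ_comp]
    ext x
    have h4 : (HQ b 8) x = 0 := Subsingleton.elim _ _
    change (HQ a 8) ((HQ b 8) x) = 0
    rw [h4, map_zero]
  ext y
  obtain ⟨x, rfl⟩ := hbij.2 y
  have h4 := congrArg (fun f => f x) h3
  exact h4

end Pool.Agent.Lib.Mor
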