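import Pool.Agent.Lib.Mor.Defs

/-!
FROM A HOMOGENEOUS TO AN INHOMOGENEOUS COCYCLE (70 lines).
PROOF: `funext g`. By `groupCohomology`'s `inhomogeneousCochains.d_hom_apply` the value is
`hc (partialProd (fun i => g i.succ)) + ∑ j, (-1)^(j+1) * hc (partialProd (contractNth j (·*·) g))` (the action is trivial). By
`Fin.partialProd_contractNth` (`partialProd (contractNth j (·*·) g) = partialProd g ∘ j.succ.succAbove`) the second sum is the sum of the terms `i = j.succ` of
the sum in `coc` for the tuple `partialProd g : Fin (N+2) → G`; the first is the term `i = 0`: `partialProd g j.succ = g 0 * partialProd (Fin.tail g) j`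
(`Fin.partialProd_succ'`), and `inv (g 0)`. So the value is the sum of `coc` (`Fin.sum_univ_succ`) `= 0`.
-/

namespace Pool.Agent.Lib.Mor

open Matrix

theorem d_hom {G : Type} [Group G] {N : ℕ} (hc : (Fin (N + 1) → G) → ℚ)
    (inv : ∀ (h : G) (g : Fin (N + 1) → G), hc (fun i => h * g i) = hc g)
    (coc : ∀ g : Fin (N + 2) → G,
      ∑ i : Fin (N + 2), (-1 : ℚ) ^ (i : ℕ) * hc (fun k => g (i.succAbove k)) = 0) :
    inhomogeneousCochains.d (Rep.trivial ℚ G ℚ) N (fun g => hc (Fin.partialProd g)) = 0 := by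
  funext g
  have hd : (inhomogeneousCochains.d (Rep.trivial ℚ G ℚ) N (fun g => hc (Fin.partialProd g))) g
      = hc (Fin.partialProd (fun i => g i.succ)) + ∑ j : Fin (N + 1),
        (-1 : ℚ) ^ ((j : ℕ) + 1) * hc (Fin.partialProd (Fin.contractNth j (· * ·) g)) := by
    rfl
  rw [hd]
  have h0 : hc (Fin.partialProd (fun i => g i.succ))
      = hc (fun k => Fin.partialProd g ((0 : Fin (N + 2)).succAbove k)) := by
    rw [← inv (g 0) (Fin.partialProd (fun i => g i.succ))]
    congr 1
    funext k
    rw [Fin.succAbove_zero, Fin.partialProd_succ']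
    rfl
  have h1 : ∀ j : Fin (N + 1), hc (Fin.partialProd (Fin.contractNth j (· * ·) g))
      = hc (fun k => Fin.partialProd g (j.succ.succAbove k)) := by
    intro j
    rw [Fin.partialProd_contractNth]
    rfl
  have hc' := coc (Fin.partialProd g)
  rw [Fin.sum_univ_succ] at hc'
  simp only [h1]
  rw [h0]
  have h2 : (0 : (Fin (N + 1) → G) → ℚ) g = 0 := rfl
  refine Eq.trans ?_ h2.symm
  simpa using hc'

end Pool.Agent.Lib.Mor
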