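import Pool.Agent.Lib.Mor.Defs

/-!
IF THE MAP IS ZERO, THE PULLBACK OF A COCYCLE IS A COBOUNDARY (80 lines).
PROOF. Let `z = groupCohomology.cocyclesMk c hc`. `π (map z)`: `groupCohomology.π_map` (elementwise) gives
`HQ f (n+1) (π _ (n+1) z) = π _ (n+1) (cocyclesMap f (tm f) (n+1) z)`, and the left side is 0. So the cocycle
`z' = cocyclesMap f (tm f) (n+1) z` has class 0, and it is in the range of `toCocycles n (n+1)` (exactness of `X n → cycles (n+1) → homology (n+1) → 0`;
look for `HomologicalComplex.homology_exact..`, `ShortComplex.exact..`, `groupCohomology` lemmas like `π_eq_zero_iff`,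
`HomologicalComplex.homologyIsCokernel`, with `ModuleCat` exactness
`ShortComplex.moduleCat_exact_iff`). So there is `η` with `toCocycles n (n+1) η = z'`; apply
`iCocycles`: `d η = iCocycles z'` (`toCycles_i`) and `iCocycles (cocyclesMap z) = cochainsMap (iCocycles z) = fun g => c (f ∘ g)` (`cyclesMap_i`, `iCocycles_mk`, `cochainsMap_f_hom`; `tm f` is the identity).
-/

/-!
IF THE MAP IS ZERO, THE PULLBACK OF A COCYCLE IS A COBOUNDARY (80 lines).
PROOF. Let `z = groupCohomology.cocyclesMk c hc`. `π (map z)`: `groupCohomology.π_map` (elementwise) gives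
`HQ f (n+1) (π _ (n+1) z) = π _ (n+1) (cocyclesMap f (tm f) (n+1) z)`, and the left side is 0. So the cocycle
`z' = cocyclesMap f (tm f) (n+1) z` has class 0, and it is in the range of `toCocycles n (n+1)` (exactness of `X n → cycles (n+1) → homology (n+1) → 0`;
look for `HomologicalComplex.homology_exact..`, `ShortComplex.exact..`, `groupCohomology` lemmas like `π_eq_zero_iff`,
`HomologicalComplex.homologyIsCokernel`, with `ModuleCat` exactness
`ShortComplex.moduleCat_exact_iff`). So there is `η` with `toCocycles n (n+1) η = z'`; apply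
`iCocycles`: `d η = iCocycles z'` (`toCycles_i`) and `iCocycles (cocyclesMap z) = cochainsMap (iCocycles z) = fun g => c (f ∘ g)` (`cyclesMap_i`, `iCocycles_mk`, `cochainsMap_f_hom`; `tm f` is the identity).
-/

namespace Pool.Agent.Lib.Mor

open Matrix

theorem cob_of_zero {G H : Type} [Group G] [Group H] (f : G →* H) (n : ℕ)
    (h : HQ f (n + 1) = 0) (c : (Fin (n + 1) → H) → ℚ)
    (hc : inhomogeneousCochains.d (Rep.trivial ℚ H ℚ) (n + 1) c = 0) :
    ∃ η : (Fin n → G) → ℚ, (inhomogeneousCochains.d (Rep.trivial ℚ G ℚ) n η :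
      (Fin (n + 1) → G) → ℚ) = fun g => c (fun i => f (g i)) := by
  have hcs : (inhomogeneousCochains.d (Rep.trivial ℚ H ℚ) (n + 1)) c = 0 := hc
  let z : groupCohomology.cocycles (Rep.trivial ℚ H ℚ) (n + 1) :=
    groupCohomology.cocyclesMk (A := Rep.trivial ℚ H ℚ) (n := n + 1) c hc
  have h1 : groupCohomology.π (Rep.trivial ℚ G ℚ) (n + 1)
      (groupCohomology.cocyclesMap f (tm f) (n + 1) z) = 0 := by
    have h2 := groupCohomology.π_map_apply (f := f) (φ := tm f) (n := n + 1) z
    rw [← h2]
    change (HQ f (n + 1)) _ = 0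
    rw [h]
    rfl
  have hex : (CategoryTheory.ShortComplex.mk
      ((groupCohomology.inhomogeneousCochains (Rep.trivial ℚ G ℚ)).toCycles n (n + 1))
      ((groupCohomology.inhomogeneousCochains (Rep.trivial ℚ G ℚ)).homologyπ (n + 1))
      (HomologicalComplex.toCycles_comp_homologyπ _ _ _)).Exact :=
    CategoryTheory.ShortComplex.exact_of_g_is_cokernel _
      ((groupCohomology.inhomogeneousCochains (Rep.trivial ℚ G ℚ)).homologyIsCokernel n (n + 1)
        (by simp))
  rw [CategoryTheory.ShortComplex.moduleCat_exact_iff] at hex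
  obtain ⟨η, hη⟩ := hex _ h1
  refine ⟨η, ?_⟩
  have h3 := congrArg (groupCohomology.iCocycles (Rep.trivial ℚ G ℚ) (n + 1)) hη
  have h4 : (groupCohomology.iCocycles (Rep.trivial ℚ G ℚ) (n + 1))
      ((groupCohomology.inhomogeneousCochains (Rep.trivial ℚ G ℚ)).toCycles n (n + 1) η) =
      (inhomogeneousCochains.d (Rep.trivial ℚ G ℚ) n) η := by
    rw [← groupCohomology.inhomogeneousCochains.d_def]
    rw [← CategoryTheory.comp_apply]
    rw [HomologicalComplex.toCycles_i]
  have h5 : (groupCohomology.iCocycles (Rep.trivial ℚ G ℚ) (n + 1))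
      (groupCohomology.cocyclesMap f (tm f) (n + 1) z) =
      (groupCohomology.cochainsMap f (tm f)).f (n + 1)
        (groupCohomology.iCocycles (Rep.trivial ℚ H ℚ) (n + 1) z) := by
    rw [← CategoryTheory.comp_apply, ← CategoryTheory.comp_apply]
    rw [HomologicalComplex.cyclesMap_i]
  have h6 : groupCohomology.iCocycles (Rep.trivial ℚ H ℚ) (n + 1) z = c :=
    groupCohomology.iCocycles_mk (A := Rep.trivial ℚ H ℚ) c hc
  rw [h6] at h5
  have h7 := h4.symm.trans (h3.trans h5)
  refine h7.trans ?_
  rfl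

end Pool.Agent.Lib.Mor
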