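import Pool.Agent.Lib.Mor.Defs

/-!
THE TORUS CYCLE IS ORTHOGONAL TO COBOUNDARIES
-/

namespace Pool.Agent.Lib.Mor

open Matrix

private lemma contract_swap {A : Type} [CommGroup A] {n : ℕ} (g : Fin (n + 1) → A) (j : Fin n) :
    Fin.contractNth j.castSucc (· * ·) (fun i => g (Equiv.swap j.castSucc j.succ i)) =
      Fin.contractNth j.castSucc (· * ·) g := by
  ext k
  rcases lt_trichotomy (k : ℕ) (j : ℕ) with h | h | h
  · rw [Fin.contractNth_apply_of_lt _ _ _ _ (by simpa using h),
      Fin.contractNth_apply_of_lt _ _ _ _ (by simpa using h),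
      Equiv.swap_apply_of_ne_of_ne]
    · intro h2
      have := congrArg Fin.val h2
      simp at this
      omega
    · intro h2
      have := congrArg Fin.val h2
      simp at this
      omega
  · have hk : k = j := Fin.ext h
    subst hk
    rw [Fin.contractNth_apply_of_eq _ _ _ _ (by simp),
      Fin.contractNth_apply_of_eq _ _ _ _ (by simp), Equiv.swap_apply_left,
      Equiv.swap_apply_right]
    exact mul_comm _ _
  · rw [Fin.contractNth_apply_of_gt _ _ _ _ (by simpa using h),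
      Fin.contractNth_apply_of_gt _ _ _ _ (by simpa using h),
      Equiv.swap_apply_of_ne_of_ne]
    · intro h2
      have := congrArg Fin.val h2
      simp at this
      omega
    · intro h2
      have := congrArg Fin.val h2
      simp at this
      omega

private lemma middle_zero {A : Type} [CommGroup A] {n : ℕ} (e : Fin (n + 1) → A)
    (η : (Fin n → A) → ℚ) (j : Fin n) :
    ∑ σ : Equiv.Perm (Fin (n + 1)), ((Equiv.Perm.sign σ : ℤ) : ℚ) *
      η (Fin.contractNth j.castSucc (· * ·) (fun i => e (σ i))) = 0 := by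
  set F : Equiv.Perm (Fin (n + 1)) → ℚ := fun σ => ((Equiv.Perm.sign σ : ℤ) : ℚ) *
    η (Fin.contractNth j.castSucc (· * ·) (fun i => e (σ i))) with hF
  have h1 : ∀ σ, F (σ * Equiv.swap j.castSucc j.succ) = - F σ := by
    intro σ
    have hne : j.castSucc ≠ j.succ := by
      intro h
      have := congrArg Fin.val h
      simp at this
    simp only [hF]
    have h2 : Fin.contractNth j.castSucc (· * ·)
        (fun i => e ((σ * Equiv.swap j.castSucc j.succ) i)) =
        Fin.contractNth j.castSucc (· * ·) (fun i => e (σ i)) := by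
      have := contract_swap (fun i => e (σ i)) j
      simpa using this
    rw [h2, Equiv.Perm.sign_mul, Equiv.Perm.sign_swap hne]
    push_cast
    ring
  have h3 : ∑ σ, F σ = ∑ σ, F (σ * Equiv.swap j.castSucc j.succ) :=
    (Equiv.sum_comp (Equiv.mulRight (Equiv.swap j.castSucc j.succ)) F).symm
  have h4 : ∑ σ, F (σ * Equiv.swap j.castSucc j.succ) = - ∑ σ, F σ := by
    rw [← Finset.sum_neg_distrib]
    exact Finset.sum_congr rfl fun σ _ => h1 σ
  have h5 : ∑ σ, F σ = 0 := by linarith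
  exact h5

private lemma ends_zero {A : Type} {n : ℕ} (e : Fin (n + 1) → A)
    (η : (Fin n → A) → ℚ) :
    ∑ σ : Equiv.Perm (Fin (n + 1)), ((Equiv.Perm.sign σ : ℤ) : ℚ) * η (fun i => e (σ i.succ)) =
      (-1) ^ n * ∑ σ : Equiv.Perm (Fin (n + 1)), ((Equiv.Perm.sign σ : ℤ) : ℚ) *
        η (fun i => e (σ i.castSucc)) := by
  set G : Equiv.Perm (Fin (n + 1)) → ℚ := fun σ => ((Equiv.Perm.sign σ : ℤ) : ℚ) *
    η (fun i => e (σ i.castSucc)) with hG
  have h1 : ∀ σ, G (σ * finRotate (n + 1)) =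
      (-1) ^ n * (((Equiv.Perm.sign σ : ℤ) : ℚ) * η (fun i => e (σ i.succ))) := by
    intro σ
    simp only [hG]
    have h2 : (fun i : Fin n => e ((σ * finRotate (n + 1)) i.castSucc)) =
        fun i => e (σ i.succ) := by
      ext i
      rw [Equiv.Perm.mul_apply, finRotate_apply]
      congr 2
      exact Fin.coeSucc_eq_succ
    rw [h2, Equiv.Perm.sign_mul, sign_finRotate]
    push_cast
    ring
  have h3 : ∑ σ, G σ = ∑ σ, G (σ * finRotate (n + 1)) :=
    (Equiv.sum_comp (Equiv.mulRight (finRotate (n + 1))) G).symm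
  change _ = (-1) ^ n * ∑ σ, G σ
  rw [h3, Finset.mul_sum]
  refine Finset.sum_congr rfl fun σ _ => ?_
  rw [h1, ← mul_assoc, ← mul_pow]
  norm_num

theorem sum_sign_d {A : Type} [CommGroup A] {n : ℕ} (e : Fin (n + 1) → A)
    (η : (Fin n → A) → ℚ) :
    ∑ σ : Equiv.Perm (Fin (n + 1)), ((Equiv.Perm.sign σ : ℤ) : ℚ) *
      (inhomogeneousCochains.d (Rep.trivial ℚ A ℚ) n η : (Fin (n + 1) → A) → ℚ)
        (fun i => e (σ i)) = 0 := by
  have hd : ∀ g : Fin (n + 1) → A,
      (inhomogeneousCochains.d (Rep.trivial ℚ A ℚ) n η : (Fin (n + 1) → A) → ℚ) g =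
        η (fun i => g i.succ) + ∑ j : Fin (n + 1), (-1 : ℚ) ^ ((j : ℕ) + 1) *
          η (Fin.contractNth j (· * ·) g) := fun g => rfl
  simp only [hd]
  have h1 : ∀ σ : Equiv.Perm (Fin (n + 1)), ((Equiv.Perm.sign σ : ℤ) : ℚ) *
      (η (fun i => e (σ i.succ)) + ∑ j : Fin (n + 1), (-1 : ℚ) ^ ((j : ℕ) + 1) *
          η (Fin.contractNth j (· * ·) (fun i => e (σ i)))) =
      ((Equiv.Perm.sign σ : ℤ) : ℚ) * η (fun i => e (σ i.succ)) +
      ∑ j : Fin n, (-1 : ℚ) ^ ((j : ℕ) + 1) * (((Equiv.Perm.sign σ : ℤ) : ℚ) *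
          η (Fin.contractNth j.castSucc (· * ·) (fun i => e (σ i)))) +
      (-1 : ℚ) ^ (n + 1) * (((Equiv.Perm.sign σ : ℤ) : ℚ) * η (fun i => e (σ i.castSucc))) := by
    intro σ
    have h2 : Fin.contractNth (Fin.last n) (· * ·) (fun i => e (σ i)) =
        fun i : Fin n => e (σ i.castSucc) := by
      ext k
      rw [Fin.contractNth_apply_of_lt _ _ _ _ (by simp)]
    rw [Fin.sum_univ_castSucc, h2, mul_add, mul_add, Finset.mul_sum, ← add_assoc]
    congr 1
    · congr 1
      refine Finset.sum_congr rfl fun j _ => ?_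
      simp only [Fin.val_castSucc]
      ring
    · simp only [Fin.val_last]
      ring
  rw [Finset.sum_congr rfl fun σ _ => h1 σ, Finset.sum_add_distrib, Finset.sum_add_distrib,
    Finset.sum_comm, ends_zero]
  have h3 : ∑ j : Fin n, ∑ σ : Equiv.Perm (Fin (n + 1)), (-1 : ℚ) ^ ((j : ℕ) + 1) *
      (((Equiv.Perm.sign σ : ℤ) : ℚ) *
          η (Fin.contractNth j.castSucc (· * ·) (fun i => e (σ i)))) = 0 := by
    refine Finset.sum_eq_zero fun j _ => ?_
    rw [← Finset.mul_sum, middle_zero, mul_zero]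
  rw [h3, ← Finset.mul_sum, pow_succ]
  ring

end Pool.Agent.Lib.Mor
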