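import Pool.Agent.Lib.Mor.Defs
import Pool.Agent.Lib.Mor.HomD
import Pool.Agent.Lib.Mor.Trans
import Pool.Agent.Lib.Mor.MapZ

/-!
THE CRITERION (40 lines).
PROOF: `N = n + 1` (`obtain`, `subst`); by contradiction. `c g = hc (partialProd g)` is a cocycle (`d_hom`). By `cob_of_zero` there is `η` with `d η = fun g => c (f ∘ g)`.
`sum_sign_d` for `η`, `e`: `∑σ sign σ * c (fun i => f (e (σ i))) = 0`; and `partialProd (fun i => f (e (σ i))) = fun i => f (partialProd (fun j => e (σ j)) i)`
(`Fin.partialProd` and homomorphisms: `Fin.partialProd` unfold, `map_list_prod`, or induction with `Fin.partialProd_succ`, `Fin.partialProd_zero`).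
-/

namespace Pool.Agent.Lib.Mor

open Matrix

private theorem Crit_pp {A H : Type} [CommGroup A] [Group H] (f : A →* H) {n : ℕ}
    (g : Fin n → A) (i : Fin (n + 1)) :
    Fin.partialProd (fun j => f (g j)) i = f (Fin.partialProd g i) := by
  induction i using Fin.induction with
  | zero => rw [Fin.partialProd_zero, Fin.partialProd_zero, map_one]
  | succ i ih => rw [Fin.partialProd_succ, Fin.partialProd_succ, map_mul, ih]

theorem crit {A H : Type} [CommGroup A] [Group H] {N : ℕ} (hN : 0 < N) (f : A →* H)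
    (e : Fin N → A) (hc : (Fin (N + 1) → H) → ℚ)
    (inv : ∀ (h : H) (g : Fin (N + 1) → H), hc (fun i => h * g i) = hc g)
    (coc : ∀ g : Fin (N + 2) → H,
      ∑ i : Fin (N + 2), (-1 : ℚ) ^ (i : ℕ) * hc (fun k => g (i.succAbove k)) = 0)
    (hne : ∑ σ : Equiv.Perm (Fin N), ((Equiv.Perm.sign σ : ℤ) : ℚ) *
      hc (fun i => f (Fin.partialProd (fun j => e (σ j)) i)) ≠ 0) :
    HQ f N ≠ 0 := by
  obtain ⟨n, rfl⟩ : ∃ n, N = n + 1 := ⟨N - 1, by omega⟩
  intro h0
  have hd := d_hom hc inv coc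
  obtain ⟨η, hη⟩ := cob_of_zero f n h0 (fun g => hc (Fin.partialProd g)) hd
  have hs := sum_sign_d e η
  rw [hη] at hs
  apply hne
  rw [← hs]
  refine Finset.sum_congr rfl fun σ _ => ?_
  congr 1
  show hc _ = hc _
  congr 1
  funext i
  exact (Crit_pp f (fun j => e (σ j)) i).symm

end Pool.Agent.Lib.Mor
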