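import Pool.Agent.Lib.Mor.Defs2
import Pool.Agent.Lib.Mor.Act
import Pool.Agent.Lib.Mor.QSum

/-!
THE CROSS BLOCK ON THE TORUS (80 lines).
PROOF. `(tor v)⁻¹ * tor z = tor (z - v)` (`tor` is a homomorphism from `Multiplicative`), so the form is `act (tor (z - v)) (Q0 m)`, whose upper right block is `A2 * (Yb - zb (z - v))`
(`act_tor_Q0`, `act_mul`), with entry `(a,b)`: `∑ a', A2 a a' * (yy (a',b) + v (a',b) - z (a',b))`. Let `LA` be the matrix with
`LA (a',b') (a,b) = A2 a a' * [b = b']`, i.e. `LA = reindex (kronecker A2ᵀ 1)` (index by `finProdFinEquiv`); `det LA = (det A2)^m * 1^2 = 3^m ≠ 0` (`Matrix.det_kronecker`).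
-/

namespace Pool.Agent.Lib.Mor

open Matrix

private theorem crsTor_det_A2 : (A2ᵀ).det = 3 := by
  rw [Matrix.det_transpose, A2, Matrix.det_fin_two]
  simp only [Matrix.add_apply, Matrix.one_apply, Matrix.of_apply]
  norm_num

theorem crs_tor {m : ℕ} : ∃ LA : Matrix (Fin (2 * m)) (Fin (2 * m)) ℝ, LA.det ≠ 0 ∧
    ∀ v z : Fin (2 * m) → ℤ,
      crs (act (tor (Multiplicative.ofAdd v))⁻¹ (act (tor (Multiplicative.ofAdd z)) (Q0 m))) =
        (fun k => yy (2 * m) k + (v k : ℝ) - (z k : ℝ)) ᵥ* LA := by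
  refine ⟨(Matrix.kroneckerMap (· * ·) A2ᵀ (1 : Matrix (Fin m) (Fin m) ℝ)).submatrix
    finProdFinEquiv.symm finProdFinEquiv.symm, ?_, ?_⟩
  · rw [Matrix.det_submatrix_equiv_self]
    have h := Matrix.det_kronecker A2ᵀ (1 : Matrix (Fin m) (Fin m) ℝ)
    rw [Matrix.det_one, one_pow, mul_one, crsTor_det_A2] at h
    intro h0
    have h1 : (Matrix.kroneckerMap (· * ·) A2ᵀ (1 : Matrix (Fin m) (Fin m) ℝ)).det =
        3 ^ Fintype.card (Fin m) := h
    rw [h1] at h0
    exact absurd h0 (by positivity)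
  · intro v z
    rw [← act_mul, ← map_inv, ← map_mul, ← ofAdd_neg, ← ofAdd_add, act_tor_Q0]
    funext k
    obtain ⟨⟨a, b⟩, rfl⟩ := finProdFinEquiv.surjective k
    have hl : crs (fromBlocks A2 (A2 * (Yb m - zb (-v + z))) ((Yb m - zb (-v + z))ᵀ * A2)
        (TT m • Bm m - (Yb m)ᵀ * A2 * Yb m + (Yb m - zb (-v + z))ᵀ * A2 * (Yb m - zb (-v + z))))
        (finProdFinEquiv (a, b)) = (A2 * (Yb m - zb (-v + z))) a b := by
      show fromBlocks A2 (A2 * (Yb m - zb (-v + z))) ((Yb m - zb (-v + z))ᵀ * A2)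
        (TT m • Bm m - (Yb m)ᵀ * A2 * Yb m + (Yb m - zb (-v + z))ᵀ * A2 * (Yb m - zb (-v + z)))
        (Sum.inl (finProdFinEquiv.symm (finProdFinEquiv (a, b))).1)
        (Sum.inr (finProdFinEquiv.symm (finProdFinEquiv (a, b))).2) = _
      rw [Equiv.symm_apply_apply, fromBlocks_apply₁₂]
    rw [hl, Matrix.mul_apply, Matrix.vecMul, dotProduct,
      ← (finProdFinEquiv (m := 2) (n := m)).sum_comp, Fintype.sum_prod_type]
    refine Finset.sum_congr rfl fun a' _ => ?_
    simp only [Matrix.submatrix_apply, Equiv.symm_apply_apply, Matrix.kroneckerMap_apply,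
      Matrix.transpose_apply, Matrix.one_apply, Matrix.sub_apply]
    rw [Finset.sum_eq_single b]
    · simp only [if_true, mul_one, Yb, zb, Matrix.of_apply, Pi.add_apply, Pi.neg_apply,
        Int.cast_add, Int.cast_neg]
      ring
    · intro b' _ hb'
      rw [if_neg hb']
      ring
    · intro h
      exact absurd (Finset.mem_univ b) h

end Pool.Agent.Lib.Mor
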