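import Mathlib

/-!
# Definitions for MP_89f8a9_al: the torus `x_i ↦ a^{s_i} x_i b^{t_i}` of `Out F_{m+2}` has non-zero
fundamental class in the rational homology of `GL(m+2, ℤ)` (coordinator helper53).

`Γ = GL(m+2, ℤ)` acts on the real symmetric forms; for `D ∈ Γ / M` (`M` the block diagonal
matrices, `D` is a decomposition `ℤ^{m+2} = M_2 ⊕ M_m`) the cross block of a form with respect to
`D` is a vector of `ℝ^{2m}`. `idx` is the signed indicator of `0 ∈ conv`, `hcf` the sum over all `D`.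
-/

namespace Pool.Agent.Lib.Mor

open Matrix CategoryTheory

/-! ### Cohomology with rational coefficients -/

/-- the identity of `ℚ`, as a morphism from the restriction of the trivial representation -/
noncomputable def tm {G H : Type} [Group G] [Group H] (f : G →* H) :
    Rep.res f (Rep.trivial ℚ H ℚ) ⟶ Rep.trivial ℚ G ℚ := 𝟙 (Rep.trivial ℚ G ℚ)

/-- `Hⁿ(f; ℚ) : Hⁿ(H; ℚ) → Hⁿ(G; ℚ)` for a homomorphism `f : G → H` -/
noncomputable def HQ {G H : Type} [Group G] [Group H] (f : G →* H) (n : ℕ) :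
    groupCohomology (Rep.trivial ℚ H ℚ) n ⟶ groupCohomology (Rep.trivial ℚ G ℚ) n :=
  groupCohomology.map f (tm f) n

theorem HQ_comp {G H K : Type} [Group G] [Group H] [Group K] (f : H →* K) (g : G →* H) (n : ℕ) :
    HQ (f.comp g) n = HQ f n ≫ HQ g n :=
  groupCohomology.map_comp f g (tm f) (tm g) n

/-! ### Signed minors and the signed indicator of `0 ∈ conv` -/

/-- `(-1)^i` times the minor of `y` without the row `i` -/
noncomputable def dts {N : ℕ} (y : Fin (N + 1) → Fin N → ℝ) (i : Fin (N + 1)) : ℝ :=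
  (-1) ^ (i : ℕ) * Matrix.det (Matrix.of fun k : Fin N => y (i.succAbove k))

open Classical in
/-- signed indicator of `0 ∈ conv (y 0, …, y N)` for points in general position of `ℝ^N` -/
noncomputable def idx {N : ℕ} (y : Fin (N + 1) → Fin N → ℝ) : ℚ :=
  if ∀ i, 0 < dts y i then 1 else if ∀ i, dts y i < 0 then -1 else 0

/-- `0` is a convex combination of the `y i` -/
def Hull {N k : ℕ} (y : Fin k → Fin N → ℝ) : Prop :=
  ∃ w : Fin k → ℝ, (∀ i, 0 ≤ w i) ∧ ∑ i, w i = 1 ∧ ∑ i, w i • y i = 0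

/-! ### Functionals that ignore countable unions of proper subspaces -/

/-- `U` is not covered by countably many proper subspaces -/
def Big {V : Type} [AddCommGroup V] [Module ℝ V] (U : Set V) : Prop :=
  ∀ S : ℕ → Submodule ℝ V, (∀ n, S n ≠ ⊤) → ∃ x ∈ U, ∀ n, x ∉ S n

/-- on `U`, `f` is supported on countably many proper subspaces -/
def Small {V : Type} [AddCommGroup V] [Module ℝ V] (U : Set V) (f : V → ℚ) : Prop :=
  ∃ S : ℕ → Submodule ℝ V, (∀ n, S n ≠ ⊤) ∧ ∀ x ∈ U, (∀ n, x ∉ S n) → f x = 0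

/-- apply `lam` to the last variable, then to the last but one, …, then to the first one -/
noncomputable def iter {V : Type} (lam : (V → ℚ) →ₗ[ℚ] ℚ) : (k : ℕ) → ((Fin k → V) → ℚ) → ℚ
  | 0, F => F (fun i => i.elim0)
  | k + 1, F => lam (fun x => iter lam k (fun v => F (Fin.cons x v)))

/-! ### `GL(m+2, ℤ)` acting on forms -/

/-- index type of the basis: `inl 0`, `inl 1` are `a`, `b`, and `inr i` is `x_i` -/
abbrev Ix (m : ℕ) := Fin 2 ⊕ Fin m

abbrev Gm (m : ℕ) := GL (Ix m) ℤ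

abbrev Vm (m : ℕ) := Matrix (Ix m) (Ix m) ℝ

/-- a matrix of `GL(m+2, ℤ)` as a real matrix -/
def rm {m : ℕ} (g : Gm m) : Vm m := (g : Matrix (Ix m) (Ix m) ℤ).map (fun z => (z : ℝ))

/-- the action of `g` on forms: `(g x)(v, w) = x (g⁻¹ v, g⁻¹ w)` -/
def act {m : ℕ} (g : Gm m) : Vm m →ₗ[ℝ] Vm m where
  toFun x := (rm g⁻¹)ᵀ * x * rm g⁻¹
  map_add' x y := by simp [mul_add, add_mul]
  map_smul' r x := by simp

/-- symmetrisation -/
def sy {m : ℕ} : Vm m →ₗ[ℝ] Vm m where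
  toFun x := x + xᵀ
  map_add' x y := by simp [transpose_add]; abel
  map_smul' r x := by simp [transpose_smul]

/-- the cross block of a form, as a vector -/
def crs {m : ℕ} : Vm m →ₗ[ℝ] (Fin (2 * m) → ℝ) where
  toFun x k := x (Sum.inl (finProdFinEquiv.symm k).1) (Sum.inr (finProdFinEquiv.symm k).2)
  map_add' _ _ := rfl
  map_smul' _ _ := rfl

/-- the projection to the first block -/
def E0 (m : ℕ) : Matrix (Ix m) (Ix m) ℤ := fromBlocks 1 0 0 0

/-- the block diagonal matrices `GL(2, ℤ) × GL(m, ℤ)` -/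
def Mst (m : ℕ) : Subgroup (Gm m) where
  carrier := {g | (g : Matrix (Ix m) (Ix m) ℤ) * E0 m = E0 m * (g : Matrix (Ix m) (Ix m) ℤ)}
  mul_mem' := by
    intro a b ha hb
    simp only [Set.mem_ofPred_eq, Units.val_mul] at *
    rw [mul_assoc, hb, ← mul_assoc, ha, mul_assoc]
  one_mem' := by simp
  inv_mem' := by
    intro a ha
    simp only [Set.mem_ofPred_eq] at *
    have h1 : (a : Matrix (Ix m) (Ix m) ℤ) * ((a⁻¹ : Gm m) : Matrix (Ix m) (Ix m) ℤ) = 1 := by
      rw [← Units.val_mul]; simp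
    have h2 : ((a⁻¹ : Gm m) : Matrix (Ix m) (Ix m) ℤ) * (a : Matrix (Ix m) (Ix m) ℤ) = 1 := by
      rw [← Units.val_mul]; simp
    calc ((a⁻¹ : Gm m) : Matrix (Ix m) (Ix m) ℤ) * E0 m
        = ((a⁻¹ : Gm m) : Matrix (Ix m) (Ix m) ℤ) * E0 m *
            ((a : Matrix (Ix m) (Ix m) ℤ) * ((a⁻¹ : Gm m) : Matrix (Ix m) (Ix m) ℤ)) := by
          rw [h1, mul_one]
      _ = ((a⁻¹ : Gm m) : Matrix (Ix m) (Ix m) ℤ) * ((a : Matrix (Ix m) (Ix m) ℤ) * E0 m) *
            ((a⁻¹ : Gm m) : Matrix (Ix m) (Ix m) ℤ) := by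
          rw [ha]; simp only [mul_assoc]
      _ = E0 m * ((a⁻¹ : Gm m) : Matrix (Ix m) (Ix m) ℤ) := by
          rw [← mul_assoc, h2, one_mul]

/-- the contribution of the decomposition `D` -/
noncomputable def ID {m : ℕ} (D : Gm m ⧸ Mst m) (x : Fin (2 * m + 1) → Vm m) : ℚ :=
  idx (fun i => crs (act (D.out)⁻¹ (sy (x i))))

/-- the signed number of decompositions `D` met by the simplex with vertices `g i • x i` -/
noncomputable def hcf {m : ℕ} (g : Fin (2 * m + 1) → Gm m) (x : Fin (2 * m + 1) → Vm m) : ℚ :=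
  ∑ᶠ D : Gm m ⧸ Mst m, ID D (fun i => act (g i) (x i))

/-- symmetric, with `c |v|² ≤ Q(v) ≤ C |v|²` -/
def Bd {m : ℕ} (c C : ℝ) (Q : Vm m) : Prop :=
  Qᵀ = Q ∧ ∀ v : Ix m → ℝ, c * (v ⬝ᵥ v) ≤ v ⬝ᵥ (Q *ᵥ v) ∧ v ⬝ᵥ (Q *ᵥ v) ≤ C * (v ⬝ᵥ v)

/-! ### The torus -/

/-- the matrix of `x_i ↦ x_i + w(0,i) a + w(1,i) b` -/
def uu {m : ℕ} (w : Fin (2 * m) → ℤ) : Matrix (Ix m) (Ix m) ℤ :=
  fromBlocks 1 (Matrix.of fun a b => w (finProdFinEquiv (a, b))) 0 1

theorem uu_mul {m : ℕ} (v w : Fin (2 * m) → ℤ) : uu v * uu w = uu (v + w) := by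
  unfold uu
  rw [fromBlocks_multiply]
  congr 1
  · simp
  · ext a b; simp [add_comm]
  · simp
  · simp

theorem uu_zero {m : ℕ} : uu (0 : Fin (2 * m) → ℤ) = 1 := by
  unfold uu
  have : (Matrix.of fun (a : Fin 2) (b : Fin m) => (0 : Fin (2 * m) → ℤ) (finProdFinEquiv (a, b)))
      = 0 := by ext; simp
  rw [this, fromBlocks_one]

/-- the torus in `GL(m+2, ℤ)` -/
def tor {m : ℕ} : Multiplicative (Fin (2 * m) → ℤ) →* Gm m where
  toFun w := ⟨uu w.toAdd, uu (-w.toAdd), by rw [uu_mul]; simp [uu_zero], by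
    rw [uu_mul]; simp [uu_zero]⟩
  map_one' := by ext1; simp [uu_zero]
  map_mul' v w := by ext1; simp [uu_mul]

/-- the standard basis of the torus -/
def ee {N : ℕ} (j : Fin N) : Multiplicative (Fin N → ℤ) := Multiplicative.ofAdd (Pi.single j 1)

end Pool.Agent.Lib.Mor
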