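import Pool.Agent.Lib.Mor.Defs

/-!
# The base form and the base point
-/

namespace Pool.Agent.Lib.Mor

open Matrix

/-- a point of the open cube with strictly decreasing coordinates -/
noncomputable def yy (N : ℕ) (k : Fin N) : ℝ := ((N : ℝ) - (k : ℕ)) / ((N : ℝ) + 1)

/-- `1 + J`, the form of the short plane -/
def A2 : Matrix (Fin 2) (Fin 2) ℝ := 1 + Matrix.of (fun _ _ => 1)

/-- `1 + J` in rank `m` -/
def Bm (m : ℕ) : Matrix (Fin m) (Fin m) ℝ := 1 + Matrix.of (fun _ _ => 1)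

/-- a large number -/
def TT (m : ℕ) : ℝ := 1000 * ((m : ℝ) + 1)

/-- `yy` as a `2 x m` matrix -/
noncomputable def Yb (m : ℕ) : Matrix (Fin 2) (Fin m) ℝ :=
  Matrix.of fun a b => yy (2 * m) (finProdFinEquiv (a, b))

/-- an integer vector as a real `2 x m` matrix -/
def zb {m : ℕ} (z : Fin (2 * m) → ℤ) : Matrix (Fin 2) (Fin m) ℝ :=
  Matrix.of fun a b => ((z (finProdFinEquiv (a, b)) : ℤ) : ℝ)

/-- the base form -/
noncomputable def Q0 (m : ℕ) : Vm m :=
  fromBlocks A2 (A2 * Yb m) ((Yb m)ᵀ * A2) (TT m • Bm m)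

end Pool.Agent.Lib.Mor
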