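import Pool.Agent.Lib.Mor.Defs
import Pool.Agent.Lib.Mor.OutDefs

/-!
# The boundary word and the surface mapping classes

`F_6` is the fundamental group of the surface of genus 3 with one puncture; with the generators
`x_0, x_1, x_2, y_0 = x_3, y_1 = x_4, y_2 = x_5` the loop around the puncture is
`[x_0, y_0] [x_1, y_1] [x_2, y_2]`.
-/

namespace Pool.Agent.Lib.Mor

open Matrix CategoryTheory

/-- the commutator of two generators of `F_6` -/
def gc (i j : Fin 6) : FreeGroup (Fin 6) :=
  FreeGroup.of i * FreeGroup.of j * (FreeGroup.of i)⁻¹ * (FreeGroup.of j)⁻¹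

/-- the loop around the puncture, `[x_0, x_3] [x_1, x_4] [x_2, x_5]` -/
def zeta : FreeGroup (Fin 6) := gc 0 3 * gc 1 4 * gc 2 5

/-- the outer automorphism preserves the conjugacy class of the loop around the puncture -/
def Surf (φ : OutF (Fin 6)) : Prop :=
  ∃ a : MulAut (FreeGroup (Fin 6)), (a : OutF (Fin 6)) = φ ∧ IsConj (a zeta) zeta

/-- the free nilpotent-type group of pairs `(v, c)` with `(v, c) (v', c') = (v + v', c + c' + v ⊗ v')` -/
@[ext] structure He (ι : Type) where
  /-- the linear part -/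
  v : ι → ℤ
  /-- the quadratic part -/
  c : Matrix ι ι ℤ

variable {ι : Type}

instance : Mul (He ι) := ⟨fun x y => ⟨x.v + y.v, x.c + y.c + Matrix.of fun i j => x.v i * y.v j⟩⟩
instance : One (He ι) := ⟨⟨0, 0⟩⟩
instance : Inv (He ι) := ⟨fun x => ⟨-x.v, -x.c + Matrix.of fun i j => x.v i * x.v j⟩⟩

theorem He.mul_v (x y : He ι) : (x * y).v = x.v + y.v := rfl
theorem He.mul_c (x y : He ι) :
    (x * y).c = x.c + y.c + Matrix.of fun i j => x.v i * y.v j := rfl
theorem He.one_v : (1 : He ι).v = 0 := rfl
theorem He.one_c : (1 : He ι).c = 0 := rfl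
theorem He.inv_v (x : He ι) : (x⁻¹).v = -x.v := rfl
theorem He.inv_c (x : He ι) : (x⁻¹).c = -x.c + Matrix.of fun i j => x.v i * x.v j := rfl

instance : Group (He ι) where
  mul_assoc x y z := by
    apply He.ext
    · simp only [He.mul_v, add_assoc]
    · ext i j
      simp only [He.mul_v, He.mul_c, Matrix.add_apply, Matrix.of_apply, Pi.add_apply]
      ring
  one_mul x := by
    apply He.ext
    · simp [He.mul_v, He.one_v]
    · ext i j
      simp [He.mul_c, He.one_v, He.one_c]
  mul_one x := by
    apply He.ext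
    · simp [He.mul_v, He.one_v]
    · ext i j
      simp [He.mul_c, He.one_v, He.one_c]
  inv_mul_cancel x := by
    apply He.ext
    · simp [He.mul_v, He.one_v, He.inv_v]
    · ext i j
      simp [He.mul_c, He.one_c, He.inv_v, He.inv_c]

/-- the homomorphism `F → He` with `x_i ↦ (e_i, 0)` -/
def mg (ι : Type) [DecidableEq ι] : FreeGroup ι →* He ι :=
  FreeGroup.lift (fun i => ⟨Pi.single i 1, 0⟩)

end Pool.Agent.Lib.Mor
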