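import Pool.Agent.Lib.Mor.Defs
import Pool.Agent.Lib.Mor.Cramer

/-!
LOCAL CONSTANCY (90 lines).
PROOF. `dts y i` is continuous in `y` (a determinant of continuous entries, `Continuous.matrix_det`). If `idx y0 ≠ 0` all `dts y0 i` have the same strict sign and this holds in
a neighbourhood, so `idx y = idx y0` there. If `0` is not in the hull of `y0`: the set `{y | Hull y}` is closed (it is the projection along the compact standard simplex
`stdSimplex ℝ (Fin (N+1))` of the closed set `{(w, y) | ∑ w i • y i = 0}`: `IsCompact.isClosedMap_snd`-type lemma: `isClosedMap_snd_of_compactSpace` for the compact space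
`↥(stdSimplex ℝ (Fin (N+1)))`, or sequences), so in a neighbourhood `¬ Hull y`, hence `idx y = 0` by `hull_of_idx` (import `Cramer`), and `idx y0 = 0` too.
-/

namespace Pool.Agent.Lib.Mor

open Matrix

theorem loc_dts_continuous {N : ℕ} (i : Fin (N + 1)) :
    Continuous fun y : Fin (N + 1) → Fin N → ℝ => dts y i := by
  unfold dts
  refine continuous_const.mul (Continuous.matrix_det ?_)
  refine continuous_matrix fun k l => ?_
  exact (continuous_apply l).comp (continuous_apply (i.succAbove k))

theorem loc_hull_closed (N : ℕ) : IsClosed {y : Fin (N + 1) → Fin N → ℝ | Hull y} := by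
  have hcomp : CompactSpace (stdSimplex ℝ (Fin (N + 1))) :=
    isCompact_iff_compactSpace.1 (isCompact_stdSimplex ℝ (Fin (N + 1)))
  let C : Set ((stdSimplex ℝ (Fin (N + 1))) × (Fin (N + 1) → Fin N → ℝ)) :=
    {p | ∑ i, (p.1 : Fin (N + 1) → ℝ) i • p.2 i = 0}
  have hC : IsClosed C := by
    refine isClosed_eq ?_ continuous_const
    refine continuous_finsetSum _ fun i _ => ?_
    exact ((continuous_apply i).comp (continuous_subtype_val.comp continuous_fst)).smul
      ((continuous_apply i).comp continuous_snd)
  have h := isClosedMap_snd_of_compactSpace (X := stdSimplex ℝ (Fin (N + 1)))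
    (Y := Fin (N + 1) → Fin N → ℝ) C hC
  have he : (Prod.snd '' C : Set (Fin (N + 1) → Fin N → ℝ)) = {y | Hull y} := by
    ext y
    constructor
    · rintro ⟨⟨⟨w, hw⟩, y'⟩, hp, rfl⟩
      exact ⟨w, hw.1, hw.2, hp⟩
    · rintro ⟨w, hw0, hw1, hwy⟩
      exact ⟨(⟨w, hw0, hw1⟩, y), hwy, rfl⟩
  rw [← he]
  exact h

theorem idx_loc {N : ℕ} (y0 : Fin (N + 1) → Fin N → ℝ) (h : idx y0 ≠ 0 ∨ ¬ Hull y0) :
    ∀ᶠ y in nhds y0, idx y = idx y0 := by
  classical
  rcases h with h | h
  · by_cases h1 : ∀ i, 0 < dts y0 i
    · have h2 : ∀ᶠ y in nhds y0, ∀ i, 0 < dts y i := by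
        rw [Filter.eventually_all]
        intro i
        exact (loc_dts_continuous i).continuousAt.eventually (lt_mem_nhds (h1 i))
      filter_upwards [h2] with y hy
      unfold idx
      rw [if_pos hy, if_pos h1]
    · by_cases h2 : ∀ i, dts y0 i < 0
      · have h3 : ∀ᶠ y in nhds y0, ∀ i, dts y i < 0 := by
          rw [Filter.eventually_all]
          intro i
          exact (loc_dts_continuous i).continuousAt.eventually (gt_mem_nhds (h2 i))
        filter_upwards [h3] with y hy
        have h4 : ¬ ∀ i, 0 < dts y i := fun h5 => absurd (hy 0) (not_lt.2 (h5 0).le)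
        unfold idx
        rw [if_neg h4, if_pos hy, if_neg h1, if_pos h2]
      · exfalso
        apply h
        unfold idx
        rw [if_neg h1, if_neg h2]
  · have h0 : idx y0 = 0 := by
      by_contra h1
      exact h (hull_of_idx y0 h1)
    have h1 : {y : Fin (N + 1) → Fin N → ℝ | Hull y}ᶜ ∈ nhds y0 :=
      (loc_hull_closed N).isOpen_compl.mem_nhds h
    filter_upwards [h1] with y hy
    rw [h0]
    by_contra h2
    exact hy (hull_of_idx y h2)

end Pool.Agent.Lib.Mor
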