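import Pool.Agent.Lib.Mor.Defs2
import Pool.Agent.Lib.Mor.Cramer
import Pool.Agent.Lib.Mor.IdxMul

/-!
THE POINT `yy` LIES IN EXACTLY ONE SIMPLEX.
`yy k = (N - k)/(N+1)`, so `1 > yy 0 > yy 1 > .. > yy (N-1) > 0`.
-/

namespace Pool.Agent.Lib.Mor

open Matrix

theorem kuhn_hull {N : ℕ} (σ : Equiv.Perm (Fin N)) (v : Fin N → ℤ)
    (h : Hull (fun (i : Fin (N + 1)) (k : Fin N) =>
      yy N k + (v k : ℝ) - (if ((σ.symm k : Fin N) : ℕ) < (i : ℕ) then (1 : ℝ) else 0))) :
    v = 0 ∧ σ = 1 := by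
  obtain ⟨w, hw0, hw1, hw⟩ := h
  set f : ℕ → ℝ := fun p => ∑ i : Fin (N + 1), w i * (if p < (i : ℕ) then (1 : ℝ) else 0)
    with hf
  have hf0 : ∀ p, 0 ≤ f p := by
    intro p
    refine Finset.sum_nonneg fun i _ => mul_nonneg (hw0 i) ?_
    split_ifs <;> norm_num
  have hf1 : ∀ p, f p ≤ 1 := by
    intro p
    rw [← hw1]
    refine Finset.sum_le_sum fun i _ => ?_
    have := hw0 i
    split_ifs <;> linarith
  have hfa : ∀ p q, p < q → f q ≤ f p := by
    intro p q hpq
    refine Finset.sum_le_sum fun i _ => ?_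
    have := hw0 i
    split_ifs <;> linarith
  have hco : ∀ k : Fin N, yy N k + (v k : ℝ) = f ((σ.symm k : Fin N) : ℕ) := by
    intro k
    have h1 := congrFun hw k
    rw [Finset.sum_apply] at h1
    simp only [Pi.smul_apply, smul_eq_mul, Pi.zero_apply, mul_sub] at h1
    rw [Finset.sum_sub_distrib, ← Finset.sum_mul, hw1, one_mul] at h1
    simp only [hf]
    linarith
  have hN : (0 : ℝ) < (N : ℝ) + 1 := by positivity
  have hy0 : ∀ k : Fin N, 0 < yy N k := by
    intro k
    have : ((k : ℕ) : ℝ) < (N : ℝ) := by exact_mod_cast k.2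
    unfold yy
    exact div_pos (by linarith) hN
  have hy1 : ∀ k : Fin N, yy N k < 1 := by
    intro k
    have : (0 : ℝ) ≤ ((k : ℕ) : ℝ) := by positivity
    unfold yy
    rw [div_lt_one hN]
    linarith
  have hv : ∀ k : Fin N, v k = 0 := by
    intro k
    have h1 := hco k
    have h2 := hf0 ((σ.symm k : Fin N) : ℕ)
    have h3 := hf1 ((σ.symm k : Fin N) : ℕ)
    have h4 := hy0 k
    have h5 := hy1 k
    have h6 : (-1 : ℝ) < (v k : ℝ) := by linarith
    have h7 : (v k : ℝ) < 1 := by linarith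
    have h8 : (-1 : ℤ) < v k := by exact_mod_cast h6
    have h9 : v k < 1 := by exact_mod_cast h7
    omega
  refine ⟨funext hv, ?_⟩
  have hmono : StrictMono σ := by
    intro p q hpq
    have h1 := hco (σ p)
    have h2 := hco (σ q)
    rw [Equiv.symm_apply_apply, hv, Int.cast_zero, add_zero] at h1 h2
    have h3 := hfa (p : ℕ) (q : ℕ) hpq
    rw [← h1, ← h2] at h3
    unfold yy at h3
    rw [div_le_div_iff_of_pos_right hN] at h3
    have h4 : (((σ p : Fin N) : ℕ) : ℝ) ≤ (((σ q : Fin N) : ℕ) : ℝ) := by linarith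
    have h5 : ((σ p : Fin N) : ℕ) ≤ ((σ q : Fin N) : ℕ) := by exact_mod_cast h4
    exact lt_of_le_of_ne h5 (fun h => (ne_of_lt hpq) (σ.injective h))
  have h1 : (σ : Fin N → Fin N) = id :=
    (StrictMono.range_inj hmono strictMono_id).1 (by rw [σ.surjective.range_eq, Set.range_id])
  ext k
  rw [h1]
  rfl

private theorem Kuhn_const {N : ℕ} (μ : Fin (N + 1) → ℝ)
    (h : ∑ i, μ i • (fun k : Fin N => yy N k - (if (k : ℕ) < (i : ℕ) then (1 : ℝ) else 0)) = 0)
    (i : Fin (N + 1)) : μ i = (∑ j, μ j) / ((N : ℝ) + 1) := by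
  have hN : (0 : ℝ) < (N : ℝ) + 1 := by positivity
  set s : ℝ := ∑ j, μ j with hs
  set G : ℕ → ℝ := fun p => ∑ i : Fin (N + 1), μ i * (if p ≤ (i : ℕ) then (1 : ℝ) else 0)
    with hG
  have hG1 : ∀ p : ℕ, p ≤ N + 1 → G p = s * (((N : ℝ) + 1 - p) / ((N : ℝ) + 1)) := by
    intro p hp
    rcases Nat.eq_zero_or_pos p with h0 | h0
    · subst h0
      have : ((N : ℝ) + 1 - (0 : ℕ)) / ((N : ℝ) + 1) = 1 := by
        rw [Nat.cast_zero, sub_zero, div_self hN.ne']
      rw [this, mul_one, hs]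
      simp [hG]
    · obtain ⟨q, rfl⟩ : ∃ q, p = q + 1 := ⟨p - 1, by omega⟩
      rcases Nat.lt_or_ge q N with hq | hq
      · have h1 := congrFun h ⟨q, hq⟩
        rw [Finset.sum_apply] at h1
        simp only [Pi.smul_apply, smul_eq_mul, Pi.zero_apply, mul_sub] at h1
        rw [Finset.sum_sub_distrib, ← Finset.sum_mul, ← hs] at h1
        have h2 : yy N ⟨q, hq⟩ = ((N : ℝ) + 1 - ((q + 1 : ℕ) : ℝ)) / ((N : ℝ) + 1) := by
          unfold yy
          push_cast
          ring
        rw [h2] at h1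
        have h3 : G (q + 1) = ∑ x : Fin (N + 1), μ x * (if q < (x : ℕ) then (1 : ℝ) else 0) :=
          rfl
        rw [h3]
        linarith
      · have hq' : q = N := by omega
        subst hq'
        have : ((q : ℝ) + 1 - ((q + 1 : ℕ) : ℝ)) / ((q : ℝ) + 1) = 0 := by
          push_cast
          rw [sub_self, zero_div]
        rw [this, mul_zero]
        simp only [hG]
        refine Finset.sum_eq_zero fun x _ => ?_
        have hx := x.2
        rw [if_neg (by omega), mul_zero]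
  have h1 := hG1 (i : ℕ) (by have := i.2; omega)
  have h2 := hG1 ((i : ℕ) + 1) (by have := i.2; omega)
  have h3 : G (i : ℕ) - G ((i : ℕ) + 1) = μ i := by
    simp only [hG]
    rw [← Finset.sum_sub_distrib, Finset.sum_eq_single i]
    · rw [if_pos le_rfl, if_neg (by omega)]
      ring
    · intro b _ hb
      have hb' : (b : ℕ) ≠ (i : ℕ) := fun h => hb (Fin.ext h)
      by_cases h4 : (i : ℕ) ≤ (b : ℕ)
      · rw [if_pos h4, if_pos (by omega), sub_self]
      · rw [if_neg h4, if_neg (by omega), sub_self]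
    · intro hi
      exact absurd (Finset.mem_univ i) hi
  rw [← h3, h1, h2]
  push_cast
  field_simp
  ring

theorem kuhn_idx {N : ℕ} (L : Matrix (Fin N) (Fin N) ℝ) (hL : L.det ≠ 0) :
    idx (fun i : Fin (N + 1) => (fun k : Fin N =>
      yy N k - (if (k : ℕ) < (i : ℕ) then (1 : ℝ) else 0)) ᵥ* L) ≠ 0 := by
  set z : Fin (N + 1) → Fin N → ℝ := fun i => (fun k : Fin N =>
      yy N k - (if (k : ℕ) < (i : ℕ) then (1 : ℝ) else 0)) with hz
  change idx (fun i => z i ᵥ* L) ≠ 0
  have hc : ∀ i, dts z i = dts z 0 := by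
    intro i
    have h1 := Kuhn_const (fun i => dts z i) (cramer z)
    have h2 := h1 i
    have h3 := h1 0
    exact h2.trans h3.symm
  have h0 : dts z 0 ≠ 0 := by
    intro h
    unfold dts at h
    simp only [Fin.val_zero, pow_zero, one_mul] at h
    rw [← Matrix.exists_vecMul_eq_zero_iff] at h
    obtain ⟨u, hu, hu2⟩ := h
    refine hu ?_
    have h1 : ∑ i, (Fin.cons 0 u : Fin (N + 1) → ℝ) i • z i = 0 := by
      rw [Fin.sum_univ_succ]
      simp only [Fin.cons_zero, Fin.cons_succ, zero_smul, zero_add]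
      rw [← hu2]
      ext c
      rw [Finset.sum_apply]
      simp [Matrix.vecMul, dotProduct]
    have h2 := Kuhn_const _ h1
    have h3 := h2 0
    rw [Fin.cons_zero] at h3
    ext k
    have h4 := h2 k.succ
    rw [Fin.cons_succ, ← h3] at h4
    exact h4
  have hd : ∀ i, dts (fun i => z i ᵥ* L) i = dts z 0 * L.det := by
    intro i
    rw [dts_mul, hc i]
  have hne : dts z 0 * L.det ≠ 0 := mul_ne_zero h0 hL
  unfold idx
  rcases lt_or_gt_of_ne hne with hneg | hpos
  · rw [if_neg, if_pos]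
    · norm_num
    · intro i
      rw [hd i]
      exact hneg
    · intro hall
      have := hall 0
      rw [hd 0] at this
      linarith
  · rw [if_pos]
    · norm_num
    · intro i
      rw [hd i]
      exact hpos

end Pool.Agent.Lib.Mor
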