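import Pool.Agent.Lib.Mor.Defs

/-!
THE VERTICES OF THE SIMPLEX OF `σ` (50 lines).
PROOF: induction on `i` (`Fin.induction` or on the natural number): `partialProd _ 0 = 1`, `partialProd f i.succ = partialProd f i.castSucc * f i` (`Fin.partialProd_zero`, `Fin.partialProd_succ`);
`toAdd` of a product is the sum; adding `Pi.single (σ i) 1` changes only the coordinate `k = σ i`, i.e. `σ.symm k = i`.
-/

namespace Pool.Agent.Lib.Mor

open Matrix

theorem partialProd_ee {N : ℕ} (σ : Equiv.Perm (Fin N)) (i : Fin (N + 1)) (k : Fin N) :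
    Multiplicative.toAdd (Fin.partialProd (fun j => ee (σ j)) i) k =
      if ((σ.symm k : Fin N) : ℕ) < (i : ℕ) then 1 else 0 := by
  induction i using Fin.induction with
  | zero => simp
  | succ i ih =>
    have hs : Multiplicative.toAdd (Fin.partialProd (fun j => ee (σ j)) i.succ) k =
        Multiplicative.toAdd (Fin.partialProd (fun j => ee (σ j)) i.castSucc) k +
          (Pi.single (σ i) (1 : ℤ) : Fin N → ℤ) k := by
      rw [Fin.partialProd_succ]
      rfl
    rw [hs, ih]
    by_cases hk : k = σ i
    · subst hk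
      simp
    · have hne : σ.symm k ≠ i := by
        intro h
        apply hk
        rw [← h, Equiv.apply_symm_apply]
      have hne' : ((σ.symm k : Fin N) : ℕ) ≠ (i : ℕ) := fun h => hne (Fin.ext h)
      rw [Pi.single_eq_of_ne hk, add_zero, Fin.val_castSucc, Fin.val_succ]
      by_cases hlt : ((σ.symm k : Fin N) : ℕ) < (i : ℕ)
      · rw [if_pos hlt, if_pos (by omega)]
      · rw [if_neg hlt, if_neg (by omega)]

end Pool.Agent.Lib.Mor
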