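import Pool.Agent.Lib.Mor.Defs2
import Pool.Agent.Lib.Mor.Act
import Pool.Agent.Lib.Mor.Coset
import Pool.Agent.Lib.Mor.Classify
import Pool.Agent.Lib.Mor.CrsTor
import Pool.Agent.Lib.Mor.Kuhn
import Pool.Agent.Lib.Mor.KuhnPos

/-!
AT THE BASE POINT (110 lines).
Write `u σ i = tor (partialProd (fun j => ee (σ j)) i)`.
PROOF of point_hull: from `Hull` get weights `w` with `crs (act (D.out)⁻¹ (∑ w i • act (u σ i) (Q0 m))) = 0` (linearity). By `KuhnPos` the
vectors `z i = toAdd (partialProd ..)` have entries 0 or 1, so `classify` gives `v` with `D = tor v`. By `crs_zero_iff` (`g = tor v`), `crs (act (tor v)⁻¹ (∑ ..)) = 0`, i.e.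
`∑ w i • ((yy + v - z i) ᵥ* LA) = 0` by `crs_tor`; `LA` is invertible, so `∑ w i • (yy + v - z i) = 0`: this is the hypothesis of `kuhn_hull` (`z i k = [σ⁻¹ k < i]`, cast). So
`v = 0`, `σ = 1`, `D = tor 0 = 1`.
PROOF of point_idx: `crs_tor` with `v = 0` and `kuhn_idx` with `L = LA` (`(1 : Equiv.Perm _).symm k = k`), `tor (ofAdd 0) = 1`.
-/

namespace Pool.Agent.Lib.Mor

open Matrix

private theorem Point_z {m : ℕ} (σ : Equiv.Perm (Fin (2 * m))) (i : Fin (2 * m + 1))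
    (k : Fin (2 * m)) :
    ((Multiplicative.toAdd (Fin.partialProd (fun j => ee (σ j)) i) k : ℤ) : ℝ) =
      if ((σ.symm k : Fin (2 * m)) : ℕ) < (i : ℕ) then (1 : ℝ) else 0 := by
  rw [partialProd_ee]
  split_ifs <;> simp

theorem point_hull {m : ℕ} (hm : Even m) (h3 : 3 ≤ m) (σ : Equiv.Perm (Fin (2 * m)))
    (D : Gm m ⧸ Mst m)
    (h : Hull (fun i : Fin (2 * m + 1) => crs (act (D.out)⁻¹
      (act (tor (Fin.partialProd (fun j => ee (σ j)) i)) (Q0 m))))) :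
    σ = 1 ∧ D = ((1 : Gm m) : Gm m ⧸ Mst m) := by
  obtain ⟨w, hw, h1, h2⟩ := h
  have h2' : crs (act (D.out)⁻¹ (∑ i, w i • act (tor (Multiplicative.ofAdd
      (Multiplicative.toAdd (Fin.partialProd (fun j => ee (σ j)) i)))) (Q0 m))) = 0 := by
    rw [map_sum, map_sum, ← h2]
    refine Finset.sum_congr rfl fun i _ => ?_
    rw [map_smul, map_smul, ofAdd_toAdd]
  obtain ⟨v, hD⟩ := classify h3 w hw h1
    (fun i => Multiplicative.toAdd (Fin.partialProd (fun j => ee (σ j)) i))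
    (fun i j => by
      rw [partialProd_ee]
      split_ifs
      · exact Or.inr rfl
      · exact Or.inl rfl) D h2'
  rw [hD] at h2'
  rw [crs_zero_iff hm] at h2'
  obtain ⟨LA, hLA, hc⟩ := crs_tor (m := m)
  have h4 : (∑ i, w i • (fun k : Fin (2 * m) =>
      yy (2 * m) k + (v k : ℝ) - (if ((σ.symm k : Fin (2 * m)) : ℕ) < (i : ℕ) then (1 : ℝ) else 0)))
      ᵥ* LA = 0 := by
    rw [Matrix.sum_vecMul, ← h2', map_sum, map_sum]
    refine Finset.sum_congr rfl fun i _ => ?_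
    rw [map_smul, map_smul, hc, Matrix.smul_vecMul]
    congr 2
    ext k
    rw [Point_z]
  have h5 := Matrix.eq_zero_of_vecMul_eq_zero hLA h4
  obtain ⟨hv, hσ⟩ := kuhn_hull σ v ⟨w, hw, h1, h5⟩
  refine ⟨hσ, ?_⟩
  rw [hD, hv, ofAdd_zero, map_one]

theorem point_idx {m : ℕ} :
    idx (fun i : Fin (2 * m + 1) => crs (act (1 : Gm m)⁻¹
      (act (tor (Fin.partialProd (fun j => ee ((1 : Equiv.Perm (Fin (2 * m))) j)) i)) (Q0 m)))) ≠ 0 := by
  obtain ⟨LA, hLA, hc⟩ := crs_tor (m := m)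
  have h := kuhn_idx LA hLA
  have h1 : (fun i : Fin (2 * m + 1) => crs (act (1 : Gm m)⁻¹
      (act (tor (Fin.partialProd (fun j => ee ((1 : Equiv.Perm (Fin (2 * m))) j)) i)) (Q0 m)))) =
      (fun i : Fin (2 * m + 1) => (fun k : Fin (2 * m) =>
        yy (2 * m) k - (if (k : ℕ) < (i : ℕ) then (1 : ℝ) else 0)) ᵥ* LA) := by
    funext i
    have h2 := hc 0 (Multiplicative.toAdd
      (Fin.partialProd (fun j => ee ((1 : Equiv.Perm (Fin (2 * m))) j)) i))
    rw [ofAdd_zero, map_one, ofAdd_toAdd] at h2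
    rw [h2]
    congr 1
    funext k
    rw [Point_z]
    have h3 : ((1 : Equiv.Perm (Fin (2 * m))).symm k) = k := rfl
    rw [h3]
    simp
  rw [h1]
  exact h

end Pool.Agent.Lib.Mor
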