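import Pool.Agent.Lib.Mor.Defs2
import Pool.Agent.Lib.Mor.SBound

/-!
THE BASE POINT IS POSITIVE DEFINITE, AND SO ARE NEARBY FORMS (130 lines).
`x0 = (1/2) • Q0 m`, `sy x0 = Q0 m` (`Q0` symmetric).
PROOF. (1) `Q0 v = A2(v1 + Yb v2) + S(v2)` with `S = TT•Bm - Ybᵀ A2 Yb` (`|S - TT Bm| <= 6 <= 24` entrywise since the entries of `Yb` are in `[0,1]`). `A2(u) >= |u|²`,
`S(v2) >= (TT - 24m) |v2|² >= 976 (m+1) |v2|²` (as in `SBound`, from `v ⬝ᵥ S *ᵥ v >= (TT-24m)(∑ v_i² + (∑ v_i)²)`; prove it here again if needed). With `|v1|² <= 2|v1 + Yb v2|² + 2 |Yb v2|²` and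
`|Yb v2|² <= 2m |v2|²`: `|v|² = |v1|² + |v2|² <= 2 |v1 + Yb v2|² + (4m+1)|v2|² <= 2 Q0(v)`. So `Q0(v) >= (1/2)|v|²`. Upper bound: `Q0(v) <= C0 |v|²` with
`C0 = ∑ i j |Q0 i j|` (`|v_i v_j| <= |v|²`). (2) For `x` with all entries of `x - x0` less than `δ = 1/(16 (m+2)²)`.. : `|sy x - Q0|` has entries `<= 2δ`, so
`|(sy x)(v) - Q0(v)| <= 2δ (∑|v_i|)² <= 2δ (m+2) |v|² <= (1/4)|v|²`. So `Bd (1/4) (C0+1) (sy x)` (`sy x` is symmetric) for `x` in the open set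
`U0 = {x | ∀ i j, |x i j - x0 i j| < δ}`.
-/

namespace Pool.Agent.Lib.Mor

open Matrix

theorem Q0_symm {m : ℕ} : (Q0 m)ᵀ = Q0 m := by
  unfold Q0
  have hA : A2ᵀ = A2 := by
    ext i j
    simp [A2, Matrix.one_apply, eq_comm]
  have hB : (Bm m)ᵀ = Bm m := by
    ext i j
    simp [Bm, Matrix.one_apply, eq_comm]
  rw [fromBlocks_transpose, transpose_mul, transpose_mul, transpose_transpose, transpose_smul, hA,
    hB]

private theorem Q0Bd_A2 : A2 0 0 = 2 ∧ A2 0 1 = 1 ∧ A2 1 0 = 1 ∧ A2 1 1 = 2 := by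
  refine ⟨?_, ?_, ?_, ?_⟩ <;> simp [A2] <;> norm_num

private theorem Q0Bd_yb {m : ℕ} (a : Fin 2) (j : Fin m) : 0 ≤ Yb m a j ∧ Yb m a j ≤ 1 := by
  have h : ((finProdFinEquiv (a, j) : Fin (2 * m)) : ℕ) < 2 * m := (finProdFinEquiv (a, j)).2
  have h' : (((finProdFinEquiv (a, j) : Fin (2 * m)) : ℕ) : ℝ) ≤ ((2 * m : ℕ) : ℝ) := by
    exact_mod_cast h.le
  have h0 : (0 : ℝ) ≤ (((finProdFinEquiv (a, j) : Fin (2 * m)) : ℕ) : ℝ) := Nat.cast_nonneg _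
  have hp : (0 : ℝ) < ((2 * m : ℕ) : ℝ) + 1 := by positivity
  simp only [Yb, Matrix.of_apply, yy]
  constructor
  · exact div_nonneg (by linarith) hp.le
  · rw [div_le_one hp]
    linarith

private theorem Q0Bd_cs {m : ℕ} (a : Fin 2) (w : Fin m → ℝ) :
    (∑ j, Yb m a j * w j) ^ 2 ≤ m * ∑ j, w j ^ 2 := by
  have h := Finset.sum_mul_sq_le_sq_mul_sq Finset.univ (fun j => Yb m a j) w
  have h1 : ∑ j : Fin m, Yb m a j ^ 2 ≤ m := by
    calc ∑ j : Fin m, Yb m a j ^ 2 ≤ ∑ _j : Fin m, (1 : ℝ) := by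
          refine Finset.sum_le_sum fun j _ => ?_
          have := Q0Bd_yb a j
          exact pow_le_one₀ this.1 this.2
      _ = m := by simp
  have h2 : 0 ≤ ∑ j, w j ^ 2 := Finset.sum_nonneg fun j _ => sq_nonneg _
  calc (∑ j, Yb m a j * w j) ^ 2 ≤ (∑ j, Yb m a j ^ 2) * ∑ j, w j ^ 2 := h
    _ ≤ m * ∑ j, w j ^ 2 := mul_le_mul_of_nonneg_right h1 h2

private theorem Q0Bd_expand {m : ℕ} (v : Ix m → ℝ) :
    v ⬝ᵥ (Q0 m *ᵥ v) = 2 * v (Sum.inl 0) ^ 2 + 2 * v (Sum.inl 0) * v (Sum.inl 1)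
      + 2 * v (Sum.inl 1) ^ 2
      + 2 * (v (Sum.inl 0) * (2 * (∑ j, Yb m 0 j * v (Sum.inr j)) + ∑ j, Yb m 1 j * v (Sum.inr j))
        + v (Sum.inl 1) * ((∑ j, Yb m 0 j * v (Sum.inr j)) + 2 * ∑ j, Yb m 1 j * v (Sum.inr j)))
      + TT m * ((∑ j, v (Sum.inr j) ^ 2) + (∑ j, v (Sum.inr j)) ^ 2) := by
  obtain ⟨e00, e01, e10, e11⟩ := Q0Bd_A2
  have h1 : ∀ i : Fin 2, ∑ j, (A2 * Yb m) i j * v (Sum.inr j)
      = A2 i 0 * (∑ j, Yb m 0 j * v (Sum.inr j)) + A2 i 1 * ∑ j, Yb m 1 j * v (Sum.inr j) := by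
    intro i
    simp only [Matrix.mul_apply, Fin.sum_univ_two, add_mul, Finset.sum_add_distrib,
      Finset.mul_sum, mul_assoc]
  have h2 : ∑ i, v (Sum.inr i) * ∑ j : Fin 2, ((Yb m)ᵀ * A2) i j * v (Sum.inl j)
      = v (Sum.inl 0) * (2 * (∑ j, Yb m 0 j * v (Sum.inr j)) + ∑ j, Yb m 1 j * v (Sum.inr j))
        + v (Sum.inl 1) * ((∑ j, Yb m 0 j * v (Sum.inr j))
          + 2 * ∑ j, Yb m 1 j * v (Sum.inr j)) := by
    have : ∀ i, v (Sum.inr i) * ∑ j : Fin 2, ((Yb m)ᵀ * A2) i j * v (Sum.inl j)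
        = (2 * v (Sum.inl 0) + v (Sum.inl 1)) * (Yb m 0 i * v (Sum.inr i))
          + (v (Sum.inl 0) + 2 * v (Sum.inl 1)) * (Yb m 1 i * v (Sum.inr i)) := by
      intro i
      simp only [Matrix.mul_apply, Fin.sum_univ_two, Matrix.transpose_apply, e00, e01, e10, e11]
      ring
    rw [Finset.sum_congr rfl fun i _ => this i, Finset.sum_add_distrib, ← Finset.mul_sum,
      ← Finset.mul_sum]
    ring
  have h3 : ∑ i, v (Sum.inr i) * ∑ j, (TT m • Bm m) i j * v (Sum.inr j)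
      = TT m * ((∑ j, v (Sum.inr j) ^ 2) + (∑ j, v (Sum.inr j)) ^ 2) := by
    have : ∀ i, v (Sum.inr i) * ∑ j, (TT m • Bm m) i j * v (Sum.inr j)
        = TT m * v (Sum.inr i) ^ 2 + TT m * (∑ j, v (Sum.inr j)) * v (Sum.inr i) := by
      intro i
      have e : ∑ j, (TT m • Bm m) i j * v (Sum.inr j)
          = TT m * v (Sum.inr i) + TT m * ∑ j, v (Sum.inr j) := by
        simp only [Matrix.smul_apply, Bm, Matrix.add_apply, Matrix.one_apply, Matrix.of_apply,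
          smul_eq_mul]
        rw [Finset.mul_sum]
        have : ∀ j : Fin m, TT m * ((if i = j then (1 : ℝ) else 0) + 1) * v (Sum.inr j)
            = (if i = j then TT m * v (Sum.inr j) else 0) + TT m * v (Sum.inr j) := by
          intro j
          split_ifs <;> ring
        rw [Finset.sum_congr rfl fun j _ => this j, Finset.sum_add_distrib]
        simp
      rw [e]
      ring
    rw [Finset.sum_congr rfl fun i _ => this i, Finset.sum_add_distrib, ← Finset.mul_sum,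
      ← Finset.mul_sum]
    ring
  have h0 : v ⬝ᵥ (Q0 m *ᵥ v)
      = (∑ i : Fin 2, v (Sum.inl i) * ((∑ j : Fin 2, A2 i j * v (Sum.inl j))
          + ∑ j, (A2 * Yb m) i j * v (Sum.inr j)))
        + (∑ i, v (Sum.inr i) * ∑ j : Fin 2, ((Yb m)ᵀ * A2) i j * v (Sum.inl j))
        + ∑ i, v (Sum.inr i) * ∑ j, (TT m • Bm m) i j * v (Sum.inr j) := by
    simp only [dotProduct, Matrix.mulVec, Fintype.sum_sum_type, Q0, Matrix.fromBlocks_apply₁₁,
      Matrix.fromBlocks_apply₁₂, Matrix.fromBlocks_apply₂₁, Matrix.fromBlocks_apply₂₂, mul_add,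
      Finset.sum_add_distrib]
    ring
  rw [h0, h2, h3]
  simp only [h1, Fin.sum_univ_two, e00, e01, e10, e11]
  ring

private theorem Q0Bd_norm {m : ℕ} (v : Ix m → ℝ) :
    v ⬝ᵥ v = v (Sum.inl 0) ^ 2 + v (Sum.inl 1) ^ 2 + ∑ j, v (Sum.inr j) ^ 2 := by
  simp only [dotProduct, Fintype.sum_sum_type, Fin.sum_univ_two]
  ring_nf

private theorem Q0Bd_low {m : ℕ} (v : Ix m → ℝ) : 1 / 2 * (v ⬝ᵥ v) ≤ v ⬝ᵥ (Q0 m *ᵥ v) := by
  rw [Q0Bd_expand, Q0Bd_norm]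
  have ha := Q0Bd_cs (m := m) 0 (fun j => v (Sum.inr j))
  have hb := Q0Bd_cs (m := m) 1 (fun j => v (Sum.inr j))
  beta_reduce at ha hb
  set p := v (Sum.inl 0)
  set q := v (Sum.inl 1)
  set α := ∑ j, Yb m 0 j * v (Sum.inr j)
  set β := ∑ j, Yb m 1 j * v (Sum.inr j)
  set n := ∑ j, v (Sum.inr j) ^ 2 with hn
  set s := ∑ j, v (Sum.inr j)
  have hn0 : 0 ≤ n := Finset.sum_nonneg fun j _ => sq_nonneg _
  have hm0 : (0 : ℝ) ≤ m := Nat.cast_nonneg m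
  have hmn : 0 ≤ (m : ℝ) * n := mul_nonneg hm0 hn0
  have hT : TT m * (n + s ^ 2) = 1000 * ((m : ℝ) * n) + 1000 * n + 1000 * ((m : ℝ) * s ^ 2)
      + 1000 * s ^ 2 := by
    unfold TT
    ring
  rw [hT]
  have hs : 0 ≤ (m : ℝ) * s ^ 2 := mul_nonneg hm0 (sq_nonneg s)
  nlinarith [sq_nonneg (p + α + (q + β)), sq_nonneg (p + 2 * α), sq_nonneg (q + 2 * β),
    sq_nonneg (α + β), sq_nonneg (α - β), sq_nonneg s, sq_nonneg (p + α), sq_nonneg (q + β)]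

private theorem Q0Bd_abs {m : ℕ} (E : Vm m) (v : Ix m → ℝ) :
    |v ⬝ᵥ (E *ᵥ v)| ≤ (∑ i, ∑ j, |E i j|) * (v ⬝ᵥ v) := by
  have h1 : v ⬝ᵥ (E *ᵥ v) = ∑ i, ∑ j, v i * (E i j * v j) := by
    simp only [dotProduct, Matrix.mulVec, Finset.mul_sum]
  have hv : ∀ i, v i ^ 2 ≤ v ⬝ᵥ v := by
    intro i
    have : v ⬝ᵥ v = ∑ k, v k ^ 2 := by
      simp only [dotProduct]
      exact Finset.sum_congr rfl fun k _ => (sq (v k)).symm
    rw [this]
    exact Finset.single_le_sum (f := fun k => v k ^ 2) (fun k _ => sq_nonneg _)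
      (Finset.mem_univ i)
  rw [h1, Finset.sum_mul]
  refine (Finset.abs_sum_le_sum_abs _ _).trans (Finset.sum_le_sum fun i _ => ?_)
  rw [Finset.sum_mul]
  refine (Finset.abs_sum_le_sum_abs _ _).trans (Finset.sum_le_sum fun j _ => ?_)
  have h2 : |v i| * |v j| ≤ v ⬝ᵥ v := by
    have hi := hv i
    have hj := hv j
    rw [← sq_abs] at hi hj
    nlinarith [sq_nonneg (|v i| - |v j|)]
  rw [abs_mul, abs_mul]
  calc |v i| * (|E i j| * |v j|) = |E i j| * (|v i| * |v j|) := by ring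
    _ ≤ |E i j| * (v ⬝ᵥ v) := mul_le_mul_of_nonneg_left h2 (abs_nonneg _)

theorem q0_bd (m : ℕ) : ∃ (c C : ℝ) (U0 : Set (Vm m)), 0 < c ∧ IsOpen U0 ∧
    (1 / 2 : ℝ) • Q0 m ∈ U0 ∧ ∀ x ∈ U0, Bd c C (sy x) := by
  set C0 : ℝ := ∑ i, ∑ j, |Q0 m i j| with hC0
  set δ : ℝ := 1 / (16 * ((m : ℝ) + 2) ^ 2) with hδ
  have hm2 : (0 : ℝ) < ((m : ℝ) + 2) ^ 2 := by positivity
  have hδ0 : 0 < δ := by positivity
  refine ⟨1 / 4, C0 + 1, ⋂ i, ⋂ j, {x | |x i j - ((1 / 2 : ℝ) • Q0 m) i j| < δ}, by norm_num,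
    ?_, ?_, ?_⟩
  · refine isOpen_iInter_of_finite fun i => isOpen_iInter_of_finite fun j => ?_
    have hc : Continuous fun x : Vm m => |x i j - ((1 / 2 : ℝ) • Q0 m) i j| :=
      ((continuous_id.matrix_elem i j).sub continuous_const).abs
    exact isOpen_lt hc continuous_const
  · simp only [Set.mem_iInter, Set.mem_ofPred_eq]
    intro i j
    rw [sub_self, abs_zero]
    exact hδ0
  · intro x hx
    simp only [Set.mem_iInter, Set.mem_ofPred_eq] at hx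
    have hsym : (sy x)ᵀ = sy x := by
      change (x + xᵀ)ᵀ = x + xᵀ
      rw [transpose_add, transpose_transpose, add_comm]
    have hE : ∀ i j, |(sy x - Q0 m) i j| ≤ 2 * δ := by
      intro i j
      have h1 := hx i j
      have h2 := hx j i
      have hq : Q0 m j i = Q0 m i j := by
        have h := congrFun (congrFun (Q0_symm (m := m)) i) j
        rwa [transpose_apply] at h
      have e : (sy x - Q0 m) i j = (x i j - ((1 / 2 : ℝ) • Q0 m) i j)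
          + (x j i - ((1 / 2 : ℝ) • Q0 m) j i) := by
        change (x i j + x j i) - Q0 m i j = _
        simp only [Matrix.smul_apply, smul_eq_mul]
        rw [hq]
        ring
      rw [e]
      exact (abs_add_le _ _).trans (by linarith)
    have hsum : ∑ i, ∑ j, |(sy x - Q0 m) i j| ≤ 1 / 8 := by
      calc ∑ i, ∑ j, |(sy x - Q0 m) i j| ≤ ∑ _i : Ix m, ∑ _j : Ix m, 2 * δ :=
            Finset.sum_le_sum fun i _ => Finset.sum_le_sum fun j _ => hE i j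
        _ = ((m : ℝ) + 2) ^ 2 * (2 * δ) := by
            simp only [Finset.sum_const, Finset.card_univ, Fintype.card_sum, Fintype.card_fin,
              nsmul_eq_mul]
            push_cast
            ring
        _ = 1 / 8 := by
            rw [hδ]
            field_simp
            norm_num
        _ ≤ 1 / 8 := le_rfl
    refine ⟨hsym, fun v => ?_⟩
    have hv0 : 0 ≤ v ⬝ᵥ v := by
      rw [Q0Bd_norm]
      have : 0 ≤ ∑ j, v (Sum.inr j) ^ 2 := Finset.sum_nonneg fun j _ => sq_nonneg _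
      positivity
    have hdiff : v ⬝ᵥ (sy x *ᵥ v) = v ⬝ᵥ (Q0 m *ᵥ v) + v ⬝ᵥ ((sy x - Q0 m) *ᵥ v) := by
      rw [sub_mulVec, dotProduct_sub]
      ring
    have ha := Q0Bd_abs (sy x - Q0 m) v
    have hb : (∑ i, ∑ j, |(sy x - Q0 m) i j|) * (v ⬝ᵥ v) ≤ 1 / 8 * (v ⬝ᵥ v) :=
      mul_le_mul_of_nonneg_right hsum hv0
    have hc := abs_le.1 (ha.trans hb)
    have hd := abs_le.1 (Q0Bd_abs (Q0 m) v)
    have he := Q0Bd_low v
    rw [hdiff]
    constructor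
    · linarith [hc.1]
    · have : (C0 + 1) * (v ⬝ᵥ v) = C0 * (v ⬝ᵥ v) + v ⬝ᵥ v := by ring
      rw [this, hC0]
      linarith [hc.2, hd.2]

end Pool.Agent.Lib.Mor
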