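import Pool.Agent.Lib.Mor.Defs2
import Pool.Agent.Lib.Mor.Act
import Pool.Agent.Lib.Mor.Coset
import Pool.Agent.Lib.Mor.Supp
import Pool.Agent.Lib.Mor.BdAct
import Pool.Agent.Lib.Mor.FinD
import Pool.Agent.Lib.Mor.Loc
import Pool.Agent.Lib.Mor.Point
import Pool.Agent.Lib.Mor.Q0Bd

/-!
EVALUATION ON THE TORUS (150 lines).
`u σ i = tor (partialProd (fun j => ee (σ j)) i)`, `x0 = (1/2) • Q0 m`, `sy x0 = Q0 m` (`Q0_symm`).
PROOF. Take `c, C, U0` from `q0_bd`; `Bd_act_fin` for the finite family `u : Perm × Fin (2m+1) → Gm m` gives `c' > 0, C'`. Let `𝒟` be the finite set of `finD` for `c', C'`. For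
`x : Fin (2m+1) → Vm m` with values in `U0` and any `σ`: if `ID D (fun i => act (u σ i) (x i)) ≠ 0` then `D ∈ 𝒟` (`ID_supp`, `Bd_conv`, `sy_act`). For every `σ` and `D ∈ 𝒟` the function
`x ↦ ID D (fun i => act (u σ i) (x i))` is equal to its value at the constant tuple `x0` in a neighbourhood of that tuple (`idx_loc` composed with the continuous map
`x ↦ (i ↦ crs (act (D.out)⁻¹ (sy (act (u σ i) (x i)))))` (linear maps on finite-dimensional spaces are continuous, `LinearMap.continuous_of_finiteDimensional`, or continuity of matrix operations); hypothesis of `idx_loc`: if `(σ, D) = (1, 1)`, `idx ≠ 0` by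
`point_idx` and `ID_mk`; otherwise not `Hull` by `point_hull`). Finitely many conditions: there is an open `U ⊂ U0` containing `x0` such that they all hold for tuples with values in
`U` (neighbourhoods of a constant tuple in a finite product: `set_pi_mem_nhds`/`mem_nhds_pi`, intersect the finitely many factors). Then for such `x`:
`∑σ sign σ * ∑ᶠ D, ID D (..) = ∑σ sign σ * ∑_{D ∈ 𝒟} ID D (..) = ∑σ sign σ * ∑_{D ∈ 𝒟} (value at x0)`, a constant `s`; at `x0` all values are 0 except `(σ, D) = (1, 1)`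
(value 0 if not `Hull`, `hull_of_idx`), where it is `≠ 0` (and then `D = 1 ∈ 𝒟`), so `s ≠ 0`. `hcf g x` is by definition the inner `finsum`.
-/

namespace Pool.Agent.Lib.Mor

open Matrix

private noncomputable def Eval_u {m : ℕ} (σ : Equiv.Perm (Fin (2 * m))) (i : Fin (2 * m + 1)) :
    Gm m := tor (Fin.partialProd (fun j => ee (σ j)) i)

private noncomputable def Eval_F {m : ℕ} (σ : Equiv.Perm (Fin (2 * m))) (D : Gm m ⧸ Mst m)
    (x : Fin (2 * m + 1) → Vm m) : ℚ := ID D (fun i => act (Eval_u σ i) (x i))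

private noncomputable def Eval_x (m : ℕ) : Vm m := (1 / 2 : ℝ) • Q0 m

private theorem Eval_sy (m : ℕ) : sy (Eval_x m) = Q0 m := by
  have h : sy (Eval_x m) = (1 / 2 : ℝ) • Q0 m + ((1 / 2 : ℝ) • Q0 m)ᵀ := rfl
  rw [h, transpose_smul, Q0_symm, ← add_smul]
  norm_num

private theorem Eval_at {m : ℕ} (σ : Equiv.Perm (Fin (2 * m))) (D : Gm m ⧸ Mst m) :
    (fun i : Fin (2 * m + 1) => crs (act (D.out)⁻¹ (sy (act (Eval_u σ i) (Eval_x m))))) =
    fun i : Fin (2 * m + 1) => crs (act (D.out)⁻¹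
      (act (tor (Fin.partialProd (fun j => ee (σ j)) i)) (Q0 m))) := by
  funext i
  rw [sy_act, Eval_sy]
  rfl

private theorem Eval_one {m : ℕ} (hm : Even m) :
    Eval_F (m := m) 1 ((1 : Gm m) : Gm m ⧸ Mst m) (fun _ => Eval_x m) ≠ 0 := by
  have h := point_idx (m := m)
  unfold Eval_F
  rw [ID_mk hm 1]
  have e : (fun i : Fin (2 * m + 1) => crs (act (1 : Gm m)⁻¹
      (sy (act (Eval_u (1 : Equiv.Perm (Fin (2 * m))) i) (Eval_x m))))) =
      (fun i : Fin (2 * m + 1) => crs (act (1 : Gm m)⁻¹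
      (act (tor (Fin.partialProd (fun j => ee ((1 : Equiv.Perm (Fin (2 * m))) j)) i)) (Q0 m)))) := by
    funext i
    rw [sy_act, Eval_sy]
    rfl
  rw [e]
  exact h

private theorem Eval_hull {m : ℕ} (hm : Even m) (h3 : 3 ≤ m) (σ : Equiv.Perm (Fin (2 * m)))
    (D : Gm m ⧸ Mst m)
    (h : Hull (fun i : Fin (2 * m + 1) =>
      crs (act (D.out)⁻¹ (sy (act (Eval_u σ i) (Eval_x m)))))) :
    σ = 1 ∧ D = ((1 : Gm m) : Gm m ⧸ Mst m) := by
  rw [Eval_at] at h
  exact point_hull hm h3 σ D h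

private theorem Eval_cont {m : ℕ} (σ : Equiv.Perm (Fin (2 * m))) (D : Gm m ⧸ Mst m) :
    Continuous (fun (x : Fin (2 * m + 1) → Vm m) (i : Fin (2 * m + 1)) =>
      crs (act (D.out)⁻¹ (sy (act (Eval_u σ i) (x i))))) := by
  refine continuous_pi fun i => ?_
  have h : Continuous (crs ∘ₗ act (D.out)⁻¹ ∘ₗ sy ∘ₗ act (Eval_u σ i) :
      Vm m →ₗ[ℝ] (Fin (2 * m) → ℝ)) := LinearMap.continuous_of_finiteDimensional _
  exact h.comp (continuous_apply i)

private theorem Eval_loc {m : ℕ} (hm : Even m) (h3 : 3 ≤ m) (σ : Equiv.Perm (Fin (2 * m)))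
    (D : Gm m ⧸ Mst m) :
    ∀ᶠ x in nhds (fun _ : Fin (2 * m + 1) => Eval_x m),
      Eval_F σ D x = Eval_F σ D (fun _ => Eval_x m) := by
  have key : idx (fun i : Fin (2 * m + 1) =>
      crs (act (D.out)⁻¹ (sy (act (Eval_u σ i) (Eval_x m))))) ≠ 0 ∨
      ¬ Hull (fun i : Fin (2 * m + 1) =>
      crs (act (D.out)⁻¹ (sy (act (Eval_u σ i) (Eval_x m))))) := by
    by_cases hh : Hull (fun i : Fin (2 * m + 1) =>
      crs (act (D.out)⁻¹ (sy (act (Eval_u σ i) (Eval_x m)))))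
    · left
      obtain ⟨rfl, rfl⟩ := Eval_hull hm h3 σ D hh
      exact Eval_one hm
    · exact Or.inr hh
  exact (Eval_cont σ D).continuousAt.eventually (idx_loc _ key)

theorem eval {m : ℕ} (hm : Even m) (h3 : 3 ≤ m) :
    ∃ (c C : ℝ) (U : Set (Vm m)) (s : ℚ), 0 < c ∧ IsOpen U ∧ U.Nonempty ∧
      (∀ x ∈ U, Bd c C (sy x)) ∧ s ≠ 0 ∧
      ∀ x : Fin (2 * m + 1) → Vm m, (∀ i, x i ∈ U) →
        ∑ σ : Equiv.Perm (Fin (2 * m)), ((Equiv.Perm.sign σ : ℤ) : ℚ) *
          hcf (fun i => tor (Fin.partialProd (fun j => ee (σ j)) i)) x = s := by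
  classical
  obtain ⟨c, C, U0, hc, hU0, hx0, hbd⟩ := q0_bd m
  obtain ⟨c', C', hc', hact⟩ := Bd_act_fin (m := m) (κ := Equiv.Perm (Fin (2 * m)) × Fin (2 * m + 1))
    (C := C) hc (fun k => Eval_u k.1 k.2)
  have hfin := finD (m := m) (C := C') hc'
  have hsupp : ∀ (σ : Equiv.Perm (Fin (2 * m))) (D : Gm m ⧸ Mst m) (x : Fin (2 * m + 1) → Vm m),
      (∀ i, x i ∈ U0) → Eval_F σ D x ≠ 0 → D ∈ hfin.toFinset := by
    intro σ D x hx h
    obtain ⟨w, hw, h1, h2⟩ := ID_supp D _ h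
    rw [Set.Finite.mem_toFinset]
    refine ⟨_, ?_, h2⟩
    refine Bd_conv w hw h1 _ fun i => ?_
    rw [sy_act]
    exact hact (σ, i) _ (hbd _ (hx i))
  have hsum : ∀ (σ : Equiv.Perm (Fin (2 * m))) (x : Fin (2 * m + 1) → Vm m),
      (∀ i, x i ∈ U0) → hcf (fun i => tor (Fin.partialProd (fun j => ee (σ j)) i)) x =
        ∑ D ∈ hfin.toFinset, Eval_F σ D x := by
    intro σ x hx
    have e : hcf (fun i => tor (Fin.partialProd (fun j => ee (σ j)) i)) x =
      ∑ᶠ D : Gm m ⧸ Mst m, Eval_F σ D x := rfl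
    rw [e]
    refine finsum_eq_sum_of_support_subset _ ?_
    intro D hD
    exact Finset.mem_coe.2 (hsupp σ D x hx hD)
  have hloc : ∀ᶠ x in nhds (fun _ : Fin (2 * m + 1) => Eval_x m),
      ∀ σ : Equiv.Perm (Fin (2 * m)), ∀ D ∈ hfin.toFinset,
      Eval_F σ D x = Eval_F σ D (fun _ => Eval_x m) := by
    rw [Filter.eventually_all]
    intro σ
    rw [Finset.eventually_all]
    intro D _
    exact Eval_loc hm h3 σ D
  have hloc2 : {x : Fin (2 * m + 1) → Vm m | ∀ σ : Equiv.Perm (Fin (2 * m)), ∀ D ∈ hfin.toFinset,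
      Eval_F σ D x = Eval_F σ D (fun _ => Eval_x m)} ∈
      nhds (fun _ : Fin (2 * m + 1) => Eval_x m) := hloc
  rw [nhds_pi, Filter.mem_pi] at hloc2
  obtain ⟨I, -, t, ht, hsub⟩ := hloc2
  have hV : (⋂ i, t i) ∩ U0 ∈ nhds (Eval_x m) :=
    Filter.inter_mem (Filter.iInter_mem.2 ht) (hU0.mem_nhds hx0)
  obtain ⟨U, hUs, hUo, hUx⟩ := mem_nhds_iff.1 hV
  refine ⟨c, C, U, ∑ σ : Equiv.Perm (Fin (2 * m)), ((Equiv.Perm.sign σ : ℤ) : ℚ) *
    ∑ D ∈ hfin.toFinset, Eval_F σ D (fun _ => Eval_x m), hc, hUo, ⟨_, hUx⟩,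
    fun x hx => hbd x (hUs hx).2, ?_, ?_⟩
  · have hz : ∀ (σ : Equiv.Perm (Fin (2 * m))) (D : Gm m ⧸ Mst m),
        ¬ (σ = 1 ∧ D = ((1 : Gm m) : Gm m ⧸ Mst m)) → Eval_F σ D (fun _ => Eval_x m) = 0 := by
      intro σ D hn
      by_contra hne
      exact hn (Eval_hull hm h3 σ D (hull_of_idx _ hne))
    rw [Finset.sum_eq_single (1 : Equiv.Perm (Fin (2 * m))),
      Finset.sum_eq_single ((1 : Gm m) : Gm m ⧸ Mst m)]
    · simpa using Eval_one hm
    · intro D _ hD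
      exact hz 1 D fun h => hD h.2
    · intro hD
      exact absurd (hsupp 1 _ _ (fun _ => hx0) (Eval_one hm)) hD
    · intro σ _ hσ
      rw [Finset.sum_eq_zero fun D _ => hz σ D fun h => hσ h.1, mul_zero]
    · intro h
      exact absurd (Finset.mem_univ _) h
  · intro x hx
    have hx' : ∀ i, x i ∈ U0 := fun i => (hUs (hx i)).2
    have hmem : x ∈ I.pi t := fun i _ => Set.mem_iInter.1 (hUs (hx i)).1 i
    have hval := hsub hmem
    refine Finset.sum_congr rfl fun σ _ => ?_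
    rw [hsum σ x hx']
    exact congrArg (fun q : ℚ => ((Equiv.Perm.sign σ : ℤ) : ℚ) * q)
      (Finset.sum_congr rfl fun D hD => hval σ D hD)

end Pool.Agent.Lib.Mor
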