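import Pool.Agent.Lib.Mor.Defs

/-!
THE FUNCTIONAL `lam` (80 lines).
PROOF: let `W = Submodule.span ℚ {f | Small U f}`. Claim: for `f` in `W` there is a sequence `S` of
subspaces `<> ⊤` (or `f = 0`) with `f x = 0` for all `x ∈ U` outside all `S n`
(`Submodule.span_induction`: for a sum interleave the two sequences, `S (2n) = S1 n`,
`S (2n+1) = S2 n`; multiples keep the sequence; state it as `f = 0 ∨ Small U f`). Then the constant function 1 is not in `W`: it
is not 0 unless .. (evaluate at a point; `V` is nonempty) and if `Small U 1` with `S`, `hU S` gives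
`x ∈ U` outside all `S n`, so `1 = 0`. By linear algebra over ℚ there is a linear functional that is 0 on
`W` and not 0 at the constant 1 (`Submodule.exists_le_ker_of_notMem` or
`Submodule.exists_dual_map_eq_bot_of_notMem`); divide by its value at 1.
-/

namespace Pool.Agent.Lib.Mor

open Matrix

private theorem lam_small_add {V : Type} [AddCommGroup V] [Module ℝ V] {U : Set V} {f g : V → ℚ}
    (hf : Small U f) (hg : Small U g) : Small U (f + g) := by
  obtain ⟨S, hS, hSf⟩ := hf
  obtain ⟨T, hT, hTg⟩ := hg
  refine ⟨fun n => if n % 2 = 0 then S (n / 2) else T (n / 2), fun n => ?_, fun x hx h => ?_⟩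
  · dsimp only
    split_ifs
    · exact hS _
    · exact hT _
  · have h1 : f x = 0 := hSf x hx fun n => by
      have := h (2 * n)
      have e1 : 2 * n % 2 = 0 := by omega
      have e2 : 2 * n / 2 = n := by omega
      simpa [e1, e2] using this
    have h2 : g x = 0 := hTg x hx fun n => by
      have := h (2 * n + 1)
      have e1 : (2 * n + 1) % 2 = 1 := by omega
      have e2 : (2 * n + 1) / 2 = n := by omega
      simpa [e1, e2] using this
    simp [h1, h2]

private theorem lam_small_smul {V : Type} [AddCommGroup V] [Module ℝ V] {U : Set V} {f : V → ℚ}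
    (c : ℚ) (hf : Small U f) : Small U (c • f) := by
  obtain ⟨S, hS, hSf⟩ := hf
  exact ⟨S, hS, fun x hx h => by simp [hSf x hx h]⟩

theorem exists_lam {V : Type} [AddCommGroup V] [Module ℝ V] (U : Set V) (hU : Big U) :
    ∃ lam : (V → ℚ) →ₗ[ℚ] ℚ, lam (fun _ => 1) = 1 ∧ ∀ f, Small U f → lam f = 0 := by
  have key : ∀ f ∈ Submodule.span ℚ {f : V → ℚ | Small U f}, f = 0 ∨ Small U f := by
    intro f hf
    induction hf using Submodule.span_induction with
    | mem x hx => exact Or.inr hx
    | zero => exact Or.inl rfl
    | add x y _ _ hx hy =>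
      rcases hx with rfl | hx
      · simpa using hy
      · rcases hy with rfl | hy
        · right; simpa using hx
        · exact Or.inr (lam_small_add hx hy)
    | smul c x _ hx =>
      rcases hx with rfl | hx
      · left; simp
      · exact Or.inr (lam_small_smul c hx)
  have hone : (fun _ : V => (1 : ℚ)) ∉ Submodule.span ℚ {f : V → ℚ | Small U f} := by
    intro h
    rcases key _ h with h0 | ⟨S, hS, hSf⟩
    · have := congrFun h0 0
      simp at this
    · obtain ⟨x, hx, hxS⟩ := hU S hS
      have := hSf x hx hxS
      simp at this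
  obtain ⟨g, hg0, hgW⟩ := Submodule.exists_le_ker_of_notMem hone
  refine ⟨(g (fun _ => 1))⁻¹ • g, ?_, fun f hf => ?_⟩
  · simp only [LinearMap.smul_apply, smul_eq_mul]
    exact inv_mul_cancel₀ hg0
  · have : g f = 0 := by
      have := hgW (Submodule.subset_span hf)
      simpa using this
    simp [this]

end Pool.Agent.Lib.Mor
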