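import Pool.Agent.Lib.Mor.Defs2
import Pool.Agent.Lib.Mor.Act
import Pool.Agent.Lib.Mor.Coset
import Pool.Agent.Lib.Mor.Lam
import Pool.Agent.Lib.Mor.Iter
import Pool.Agent.Lib.Mor.IterZero
import Pool.Agent.Lib.Mor.BigOpen
import Pool.Agent.Lib.Mor.Crit
import Pool.Agent.Lib.Mor.Coc
import Pool.Agent.Lib.Mor.Eval

/-!
THE TORUS IS NON-ZERO IN `GL(m+2, ℤ)` (80 lines).
PROOF. `c, C, U, s` from `eval`; `Big U` by `big_open`; `lam` from `exists_lam`. Put `hc g = iter lam (2m+1) (hcf g)` for `g : Fin (2m+1) → Gm m`. Invariant by `hcf_inv`, cocycle by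
`hcl_coc`. Apply `crit` with `N = 2m`, `f = tor`, `e = ee`.
The value: `∑σ sign σ * iter lam (2m+1) (hcf (fun i => tor (partialProd .. i))) = iter lam (2m+1) (fun x => ∑σ sign σ * hcf .. x)` (`iter_sum`) `= iter lam (2m+1) (fun _ => s) = s`:
the difference of the two functions vanishes on tuples in `U` (`eval`), so its `iter` is 0 by `iter_zero` with, e.g., `bad _ _ = ⊥`
(`⊥ ≠ ⊤` since `Vm m` is nontrivial), and `iter_const`.
-/

namespace Pool.Agent.Lib.Mor

open Matrix

theorem gl_main {m : ℕ} (hm : Even m) (h4 : 4 ≤ m) : HQ (tor (m := m)) (2 * m) ≠ 0 := by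
  classical
  obtain ⟨c, C, U, s, hc, hUo, hUn, hUB, hs, hev⟩ := eval hm (by omega : 3 ≤ m)
  obtain ⟨lam, h1, h0⟩ := exists_lam U (big_open U hUo hUn)
  have hm0 : 0 < m := by omega
  refine crit (by omega : 0 < 2 * m) (tor (m := m)) (fun i => ee i)
    (fun g => iter lam (2 * m + 1) (hcf g)) ?_ ?_ ?_
  · intro h g
    have : hcf (fun i => h * g i) = hcf g := by
      funext x
      exact hcf_inv hm h g x
    simp only [this]
  · intro g
    exact hcl_coc hm0 lam h1 h0 hc hUB g
  · have key : ∑ σ : Equiv.Perm (Fin (2 * m)), ((Equiv.Perm.sign σ : ℤ) : ℚ) *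
        iter lam (2 * m + 1) (hcf (fun i => tor (Fin.partialProd (fun j => ee (σ j)) i))) = s := by
      rw [← iter_sum lam Finset.univ (fun σ : Equiv.Perm (Fin (2 * m)) =>
        ((Equiv.Perm.sign σ : ℤ) : ℚ)) (2 * m + 1)
        (fun σ => hcf (fun i => tor (Fin.partialProd (fun j => ee (σ j)) i)))]
      have hz : iter lam (2 * m + 1) (fun v => ∑ j : Bool, (if j then (1 : ℚ) else -1) *
          (if j then (∑ σ : Equiv.Perm (Fin (2 * m)), ((Equiv.Perm.sign σ : ℤ) : ℚ) *
            hcf (fun i => tor (Fin.partialProd (fun j => ee (σ j)) i)) v) else s)) = 0 := by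
        refine iter_zero (U := U) lam h0 (fun _ _ => ⊥) ?_ _ _ ?_
        · intro S _ n
          intro h
          have : Subsingleton (Vm m) := by
            rw [← Submodule.subsingleton_iff ℝ]
            exact subsingleton_of_bot_eq_top h
          have h01 : (0 : Vm m) = 1 := Subsingleton.elim _ _
          have := congrFun (congrFun h01 (Sum.inl 0)) (Sum.inl 0)
          simp at this
        · intro v hv _
          rw [Fintype.sum_bool]
          simp only [if_true, Bool.false_eq_true, if_false]
          rw [hev v hv]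
          ring
      rw [iter_sum lam Finset.univ (fun j : Bool => if j then (1 : ℚ) else -1) (2 * m + 1)
        (fun j v => if j then (∑ σ : Equiv.Perm (Fin (2 * m)), ((Equiv.Perm.sign σ : ℤ) : ℚ) *
            hcf (fun i => tor (Fin.partialProd (fun j => ee (σ j)) i)) v) else s),
        Fintype.sum_bool] at hz
      simp only [if_true, Bool.false_eq_true, if_false] at hz
      rw [iter_const lam h1] at hz
      linarith
    rw [key]
    exact hs

end Pool.Agent.Lib.Mor
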