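import Pool.Agent.Lib.Mor.Defs3

/-!
THE QUADRATIC PART OF A WORD (100 lines).
`He ι` (Defs3) is the group of pairs `(v, c)`, `(v,c)(v',c') = (v+v', c+c'+v⊗v')`, and `mg ι : FreeGroup ι →* He ι`, `x_i ↦ (e_i, 0)`.
PROOF of mg_v: both sides are homomorphisms `FreeGroup ι →* Multiplicative ℤ` in `x` (`x ↦ ofAdd ((mg ι x).v i)` and `expo i`), equal on generators (`FreeGroup.ext_hom`):
`Pi.single j 1 i = if j = i then 1 else 0`.
PROOF of mg_aut: let `P = abM φ`, `C j = (mg ι (φ (of j))).c`. Let `Ψ : FreeGroup ι → He ι`, `Ψ x = ⟨P *ᵥ v, P * c * Pᵀ + ∑ j, v j • C j⟩` where `(v, c) = mg ι x`. `Ψ` is multiplicative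
(`P * (of v_i v'_j) * Pᵀ = of (P v)_i (P v')_j`, i.e. `P * vecMulVec v v' * Pᵀ = vecMulVec (P *ᵥ v) (P *ᵥ v')`), so it is a homomorphism, and `Ψ (of j) = (P e_j, C j) = mg ι (φ (of j))`
(`(mg ι (φ (of j))).v i = (expo i (φ (of j))).toAdd = P i j` by mg_v). So `Ψ = (mg ι).comp φ` (`FreeGroup.ext_hom`). For `v = 0` the quadratic parts give the claim.
PROOF of mg_conj: `y = g x g⁻¹` (`isConj_iff`); `(w,d)(0,c)(w,d)⁻¹ = (w, d + c)(-w, -d + w⊗w) = (0, d + c - d + w⊗w - w⊗w) = (0, c)`.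
-/

namespace Pool.Agent.Lib.Mor

open Matrix

theorem mg_v {ι : Type} [DecidableEq ι] (x : FreeGroup ι) (i : ι) :
    (mg ι x).v i = (expo i x).toAdd := by
  let f : FreeGroup ι →* Multiplicative ℤ :=
    { toFun := fun x => Multiplicative.ofAdd ((mg ι x).v i)
      map_one' := by simp [He.one_v]
      map_mul' := fun x y => by simp [He.mul_v] }
  have h : f = expo i := by
    apply FreeGroup.ext_hom
    intro j
    simp only [f, MonoidHom.coe_mk, OneHom.coe_mk, mg, expo, FreeGroup.lift_apply_of]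
    by_cases hij : j = i
    · subst hij; simp
    · have h' : i ≠ j := fun h => hij h.symm
      simp [hij, h']
  have := DFunLike.congr_fun h x
  rw [← this]
  rfl

theorem mg_of {ι : Type} [DecidableEq ι] (j : ι) :
    mg ι (FreeGroup.of j) = ⟨Pi.single j 1, 0⟩ := by
  simp [mg]

theorem mg_aut {ι : Type} [Fintype ι] [DecidableEq ι] (φ : MulAut (FreeGroup ι)) (x : FreeGroup ι)
    (hx : (mg ι x).v = 0) : (mg ι (φ x)).c = abM φ * (mg ι x).c * (abM φ)ᵀ := by
  let P := abM φ
  let C : ι → Matrix ι ι ℤ := fun j => (mg ι (φ (FreeGroup.of j))).c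
  have hout : ∀ v w : ι → ℤ, (Matrix.of fun i j => v i * w j) = vecMulVec v w := by
    intro v w; ext i j; simp [vecMulVec_apply]
  let Ψ : FreeGroup ι →* He ι :=
    { toFun := fun x => ⟨P *ᵥ (mg ι x).v, P * (mg ι x).c * Pᵀ + ∑ j, (mg ι x).v j • C j⟩
      map_one' := by
        apply He.ext
        · simp [He.one_v]
        · simp [He.one_v, He.one_c]
      map_mul' := fun x y => by
        apply He.ext
        · simp only [map_mul, He.mul_v, Matrix.mulVec_add]
        · simp only [map_mul, He.mul_v, He.mul_c, hout, Pi.add_apply, add_smul,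
            Finset.sum_add_distrib, Matrix.mul_add, Matrix.add_mul]
          have : P * vecMulVec (mg ι x).v (mg ι y).v * Pᵀ
              = vecMulVec (P *ᵥ (mg ι x).v) (P *ᵥ (mg ι y).v) := by
            rw [Matrix.mul_vecMulVec, Matrix.vecMulVec_mul, Matrix.vecMul_transpose]
          rw [this]
          abel }
  have h : Ψ = (mg ι).comp (φ : FreeGroup ι ≃* FreeGroup ι).toMonoidHom := by
    apply FreeGroup.ext_hom
    intro j
    apply He.ext
    · ext i
      simp only [Ψ, MonoidHom.coe_mk, OneHom.coe_mk, MonoidHom.comp_apply,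
        MulEquiv.coe_toMonoidHom, mg_of]
      rw [mg_v]
      simp [P, abM]
    · simp only [Ψ, MonoidHom.coe_mk, OneHom.coe_mk, MonoidHom.comp_apply,
        MulEquiv.coe_toMonoidHom, mg_of]
      simp [C, Pi.single_apply]
  have h2 := congrArg He.c (DFunLike.congr_fun h x)
  simp only [Ψ, MonoidHom.coe_mk, OneHom.coe_mk, MonoidHom.comp_apply,
        MulEquiv.coe_toMonoidHom, hx] at h2
  rw [← h2]
  simp [P]

theorem mg_conj {ι : Type} [DecidableEq ι] (x y : FreeGroup ι) (hx : (mg ι x).v = 0)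
    (h : IsConj x y) : (mg ι y).c = (mg ι x).c := by
  obtain ⟨g, rfl⟩ := isConj_iff.1 h
  simp only [map_mul, map_inv, He.mul_c, He.mul_v, He.inv_v, He.inv_c, hx]
  ext i j
  simp
  ring

end Pool.Agent.Lib.Mor
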