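import Pool.Agent.Lib.Mor.OutDefs

/-!
# The torus `x_i ↦ a^{s_i} x_i b^{t_i}` in `Out F_{m+2}`

The generators are `a = 0`, `b = 1`, `x_i = i + 2` (`i = 0, …, m-1`).
-/

namespace Pool.Agent.Lib.Mor

open Matrix

/-- the endomorphism `a ↦ a`, `b ↦ b`, `x_i ↦ a^{w(0,i)} x_i b^{w(1,i)}` of `F_{m+2}` -/
def leg {m : ℕ} (w : Fin (2 * m) → ℤ) : FreeGroup (Fin (m + 2)) →* FreeGroup (Fin (m + 2)) :=
  FreeGroup.lift (Fin.cases (FreeGroup.of 0) (Fin.cases (FreeGroup.of 1) fun i : Fin m =>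
    FreeGroup.of 0 ^ w (finProdFinEquiv (0, i)) * FreeGroup.of i.succ.succ *
      FreeGroup.of 1 ^ w (finProdFinEquiv (1, i))))

theorem leg_zero_of {m : ℕ} (w : Fin (2 * m) → ℤ) :
    leg w (FreeGroup.of 0) = FreeGroup.of 0 := by
  simp [leg]

theorem leg_one_of {m : ℕ} (w : Fin (2 * m) → ℤ) :
    leg w (FreeGroup.of 1) = FreeGroup.of 1 := by
  unfold leg
  rw [FreeGroup.lift_apply_of]
  rfl

theorem leg_succ_of {m : ℕ} (w : Fin (2 * m) → ℤ) (i : Fin m) :
    leg w (FreeGroup.of i.succ.succ) = FreeGroup.of 0 ^ w (finProdFinEquiv (0, i)) *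
      FreeGroup.of i.succ.succ * FreeGroup.of 1 ^ w (finProdFinEquiv (1, i)) := by
  unfold leg
  rw [FreeGroup.lift_apply_of]
  rfl

theorem leg_comp {m : ℕ} (v w : Fin (2 * m) → ℤ) : (leg v).comp (leg w) = leg (v + w) := by
  ext j
  refine Fin.cases ?_ (fun j => ?_) j
  · simp [leg_zero_of]
  · refine Fin.cases ?_ (fun i => ?_) j
    · have h1 : (Fin.succ 0 : Fin (m + 2)) = 1 := rfl
      rw [h1]
      simp [leg_one_of]
    · simp only [MonoidHom.comp_apply, leg_succ_of, map_mul, map_zpow, leg_zero_of, leg_one_of,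
        Pi.add_apply]
      have e0 : (FreeGroup.of (0 : Fin (m + 2))) ^
          (v (finProdFinEquiv (0, i)) + w (finProdFinEquiv (0, i))) =
          FreeGroup.of 0 ^ w (finProdFinEquiv (0, i)) *
            FreeGroup.of 0 ^ v (finProdFinEquiv (0, i)) := by
        rw [add_comm (v (finProdFinEquiv (0, i))), _root_.zpow_add]
      have e1 : (FreeGroup.of (1 : Fin (m + 2))) ^
          (v (finProdFinEquiv (1, i)) + w (finProdFinEquiv (1, i))) =
          FreeGroup.of 1 ^ v (finProdFinEquiv (1, i)) *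
            FreeGroup.of 1 ^ w (finProdFinEquiv (1, i)) := by
        rw [_root_.zpow_add]
      rw [e0, e1]
      simp only [mul_assoc]

theorem leg_id {m : ℕ} : leg (0 : Fin (2 * m) → ℤ) = MonoidHom.id _ := by
  ext j
  refine Fin.cases ?_ (fun j => ?_) j
  · simp [leg_zero_of]
  · refine Fin.cases ?_ (fun i => ?_) j
    · have h1 : (Fin.succ 0 : Fin (m + 2)) = 1 := rfl
      rw [h1]
      simp [leg_one_of]
    · simp [leg_succ_of]

/-- `leg w` as an automorphism -/
def legA {m : ℕ} (w : Fin (2 * m) → ℤ) : MulAut (FreeGroup (Fin (m + 2))) :=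
  MulEquiv.mk' ⟨leg w, leg (-w), fun x => by
      have := DFunLike.congr_fun (leg_comp (-w) w) x
      simpa [leg_id] using this, fun x => by
      have := DFunLike.congr_fun (leg_comp w (-w)) x
      simpa [leg_id] using this⟩ (map_mul (leg w))

theorem legA_apply {m : ℕ} (w : Fin (2 * m) → ℤ) (x : FreeGroup (Fin (m + 2))) :
    legA w x = leg w x := rfl

/-- the torus in `Out F_{m+2}`: `w` acts by `x_i ↦ a^{w(0,i)} x_i b^{w(1,i)}` -/
def legT (m : ℕ) : Multiplicative (Fin (2 * m) → ℤ) →* OutF (Fin (m + 2)) where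
  toFun w := (legA w.toAdd : MulAut (FreeGroup (Fin (m + 2))))
  map_one' := by
    have : legA (0 : Fin (2 * m) → ℤ) = 1 := by
      ext x
      simp [legA_apply, leg_id]
    simp [this]
  map_mul' v w := by
    have : legA (v.toAdd + w.toAdd) = legA v.toAdd * legA w.toAdd := by
      ext x
      have := DFunLike.congr_fun (leg_comp v.toAdd w.toAdd) x
      simp [legA_apply, ← this]
    simp [this]

end Pool.Agent.Lib.Mor
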