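import Pool.Agent.Lib.Mor.Defs
import Pool.Agent.Lib.Mor.OutDefs
import Pool.Agent.Lib.Mor.Leg

/-!
THE TORUS OF `Out F_{m+2}` MAPS TO THE TORUS OF `GL(m+2, ℤ)` (120 lines).
`eIx : Ix m ≃ Fin (m+2)`: `inl 0 ↦ 0`, `inl 1 ↦ 1`, `inr i ↦ i.succ.succ`.
PROOF. `r` is the isomorphism induced by reindexing matrices: `Units.mapEquiv (Matrix.reindexRingEquiv ..)`-like (`Matrix.reindexAlgEquiv ℤ ℤ e`), as a `MulEquiv` of the unit groups. For `w`, both
sides are matrices over `Fin (m+2)`: `pO (legT w) = pA (legA w)`, entry `(i,j)` = exponent sum of the generator `i` in `leg w (of j)`: for `j = 0`: `[i = 0]`; `j = 1`: `[i = 1]`; `j = b.succ.succ`: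
`w (0,b) [i = 0] + [i = j] + w (1,b) [i = 1]` (`expo` is a homomorphism; `map_mul`, `map_zpow`, `FreeGroup.lift_apply_of`), which is the entry of the reindexed `uu w` (`Fin.cases` on `i`, `j`).
-/

namespace Pool.Agent.Lib.Mor

open Matrix

private def OutTor_e (m : ℕ) : Ix m ≃ Fin (m + 2) where
  toFun := Sum.elim (fun a : Fin 2 => if a = 0 then 0 else 1) (fun i => i.succ.succ)
  invFun := Fin.cases (Sum.inl 0) (Fin.cases (Sum.inl 1) (fun i => Sum.inr i))
  left_inv := by
    rintro (a | i)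
    · fin_cases a
      · rfl
      · rfl
    · rfl
  right_inv := by
    intro j
    refine Fin.cases ?_ (fun j => ?_) j
    · rfl
    · refine Fin.cases ?_ (fun i => ?_) j
      · rfl
      · rfl

private theorem OutTor_expo_of {m : ℕ} (i j : Fin (m + 2)) :
    (expo i (FreeGroup.of j)).toAdd = if j = i then 1 else 0 := by
  simp [expo]

private theorem OutTor_expo_mul {m : ℕ} (i : Fin (m + 2)) (x y : FreeGroup (Fin (m + 2))) :
    (expo i (x * y)).toAdd = (expo i x).toAdd + (expo i y).toAdd := by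
  rw [(expo i).map_mul]; rfl

private theorem OutTor_expo_zpow {m : ℕ} (i : Fin (m + 2)) (x : FreeGroup (Fin (m + 2))) (n : ℤ) :
    (expo i (x ^ n)).toAdd = n * (expo i x).toAdd := by
  rw [(expo i).map_zpow, toAdd_zpow, smul_eq_mul]

private theorem OutTor_s0 (m : ℕ) : (OutTor_e m).symm 0 = Sum.inl 0 := rfl
private theorem OutTor_s1 (m : ℕ) : (OutTor_e m).symm 1 = Sum.inl 1 := rfl
private theorem OutTor_s2 {m : ℕ} (i : Fin m) : (OutTor_e m).symm i.succ.succ = Sum.inr i := rfl

private theorem OutTor_abM {m : ℕ} (w : Fin (2 * m) → ℤ) (i j : Fin (m + 2)) :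
    abM (legA w) i j = uu w ((OutTor_e m).symm i) ((OutTor_e m).symm j) := by
  have h01 : (0 : Fin (m + 2)) ≠ 1 := by
    intro h; exact absurd (congrArg Fin.val h) (by simp)
  have h0s : ∀ b : Fin m, (0 : Fin (m + 2)) ≠ b.succ.succ := fun b h =>
    absurd (congrArg Fin.val h) (by simp)
  have h1s : ∀ b : Fin m, (1 : Fin (m + 2)) ≠ b.succ.succ := fun b h =>
    absurd (congrArg Fin.val h) (by simp)
  have key : abM (legA w) i j = (expo i (leg w (FreeGroup.of j))).toAdd := rfl
  rw [key]
  revert j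
  refine Fin.cases ?_ (fun j => ?_)
  · intro _
    rw [leg_zero_of, OutTor_expo_of, OutTor_s0]
    revert i
    refine Fin.cases ?_ (fun i => ?_)
    · rw [OutTor_s0]; simp [uu]
    · refine Fin.cases ?_ (fun i => ?_) i
      · have h1 : (Fin.succ 0 : Fin (m + 2)) = 1 := rfl
        rw [h1, OutTor_s1]; simp [uu, h01]
      · rw [OutTor_s2]; simp [uu, h0s i]
  · intro _
    refine Fin.cases ?_ (fun b => ?_) j
    · have h1 : (Fin.succ 0 : Fin (m + 2)) = 1 := rfl
      rw [h1, leg_one_of, OutTor_expo_of, OutTor_s1]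
      revert i
      refine Fin.cases ?_ (fun i => ?_)
      · rw [OutTor_s0]; simp [uu, h01.symm]
      · refine Fin.cases ?_ (fun i => ?_) i
        · rw [h1, OutTor_s1]; simp [uu]
        · rw [OutTor_s2]; simp [uu, h1s i]
    · rw [leg_succ_of, OutTor_expo_mul, OutTor_expo_mul, OutTor_expo_zpow, OutTor_expo_zpow,
        OutTor_expo_of, OutTor_expo_of, OutTor_expo_of, OutTor_s2]
      revert i
      refine Fin.cases ?_ (fun i => ?_)
      · rw [OutTor_s0]; simp [uu, h01.symm, (h0s b).symm]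
      · refine Fin.cases ?_ (fun i => ?_) i
        · have h1 : (Fin.succ 0 : Fin (m + 2)) = 1 := rfl
          rw [h1, OutTor_s1]; simp [uu, h01, (h1s b).symm]
        · rw [OutTor_s2]
          by_cases hib : i = b
          · subst hib
            simp [uu, h0s i, h1s i]
          · have h2 : ¬ (b = i) := fun h => hib h.symm
            have h3 : ¬ (b.succ.succ = i.succ.succ) := by
              intro h; exact h2 (Fin.succ_injective _ (Fin.succ_injective _ h))
            simp [uu, h0s i, h1s i, h2, h3, hib]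

theorem out_tor (m : ℕ) : ∃ r : Gm m ≃* GL (Fin (m + 2)) ℤ,
    (pO (ι := Fin (m + 2))).comp (legT m) = r.toMonoidHom.comp (tor (m := m)) := by
  refine ⟨Units.mapEquiv (Matrix.reindexAlgEquiv ℤ ℤ (OutTor_e m)).toMulEquiv, ?_⟩
  apply MonoidHom.ext
  intro w
  apply Units.ext
  ext i j
  exact OutTor_abM w.toAdd i j

end Pool.Agent.Lib.Mor
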