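import Pool.Agent.Lib.Mor.Defs
import Pool.Agent.Lib.Mor.OutDefs
import Pool.Agent.Lib.Mor.Leg
import Pool.Agent.Lib.Mor.OutTor
import Pool.Agent.Lib.Mor.GLMain

/-!
MAIN THEOREM (30 lines): if `HQ (pO.comp legT) (2m) = 0` then `HQ (r.toMonoidHom.comp tor) = 0`, and `tor = r.symm ∘ (r ∘ tor)`, so `HQ tor (2m) = HQ .. ≫ .. = 0` (`HQ_comp`), contradiction to `gl_main`.
-/

namespace Pool.Agent.Lib.Mor

open Matrix

theorem main {m : ℕ} (hm : Even m) (h4 : 4 ≤ m) :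
    HQ ((pO (ι := Fin (m + 2))).comp (legT m)) (2 * m) ≠ 0 := by
  intro h
  obtain ⟨r, hr⟩ := out_tor m
  rw [hr] at h
  refine gl_main hm h4 ?_
  have e : (tor (m := m)) = r.symm.toMonoidHom.comp (r.toMonoidHom.comp (tor (m := m))) := by
    refine MonoidHom.ext fun w => ?_
    exact (r.symm_apply_apply (tor w)).symm
  have h2 : HQ (tor (m := m)) (2 * m) =
      HQ (r.symm.toMonoidHom.comp (r.toMonoidHom.comp (tor (m := m)))) (2 * m) := by
    rw [← e]
  rw [h2, HQ_comp, h, CategoryTheory.Limits.comp_zero]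

end Pool.Agent.Lib.Mor
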