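import Pool.Agent.Lib.Mor.Cor8

/-!
# The mapping class group of the punctured surface of genus 3 inside `Out F_6`

`bw = [x₀,x₁][x₂,x₃][x₄,x₅]` is the boundary word; `π₁(Σ₃ ∖ *)` is free on `x₀, …, x₅` and a loop
around the puncture is `bw`. By the Dehn–Nielsen–Baer theorem for the punctured surface (Magnus,
Zieschang) `i : M_{3,*} → Out F_6` is an isomorphism onto `Mg`, the group of the classes of all
automorphisms which take `bw` to a conjugate of itself. The matrix of such an automorphism is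
symplectic (second coefficients of the Magnus expansion), so `p ∘ i` factors through `Sp(6,ℤ)`.
-/

namespace Pool.Agent.Lib.Mor

open Matrix CategoryTheory

/-- the commutator `[x, y]` -/
def cm {G : Type} [Group G] (x y : G) : G := x * y * x⁻¹ * y⁻¹

/-- the boundary word `[x₀,x₁][x₂,x₃][x₄,x₅]` of the surface of genus 3 with one puncture -/
def bw : FreeGroup (Fin 6) :=
  cm (FreeGroup.of 0) (FreeGroup.of 1) * cm (FreeGroup.of 2) (FreeGroup.of 3) *
    cm (FreeGroup.of 4) (FreeGroup.of 5)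

/-- the automorphisms of `F_6` which take the boundary word to a conjugate of itself -/
def MgA : Subgroup (MulAut (FreeGroup (Fin 6))) where
  carrier := {φ | ∃ g, φ bw = g * bw * g⁻¹}
  one_mem' := ⟨1, by simp⟩
  mul_mem' := by
    rintro φ ψ ⟨g, hg⟩ ⟨h, hh⟩
    refine ⟨φ h * g, ?_⟩
    rw [MulAut.mul_apply, hh, map_mul, map_mul, hg, map_inv, _root_.mul_inv_rev]
    simp only [mul_assoc]
  inv_mem' := by
    rintro φ ⟨g, hg⟩
    refine ⟨φ⁻¹ g⁻¹, ?_⟩
    have h1 : (φ⁻¹ : MulAut (FreeGroup (Fin 6))) (φ bw) = bw := by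
      rw [← MulAut.mul_apply, inv_mul_cancel, MulAut.one_apply]
    rw [hg, map_mul, map_mul, map_inv] at h1
    rw [map_inv, inv_inv]
    conv_rhs => rw [← h1]
    group

/-- the mapping class group `M_{3,*}` as a subgroup of `Out F_6` -/
def Mg : Subgroup (OutF (Fin 6)) :=
  MgA.map (QuotientGroup.mk' (MulAut.conj (G := FreeGroup (Fin 6))).range)

/-- the intersection form in the basis `x₀, …, x₅` -/
def J6 : Matrix (Fin 6) (Fin 6) ℤ :=
  !![0, 1, 0, 0, 0, 0;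
    -1, 0, 0, 0, 0, 0;
    0, 0, 0, 1, 0, 0;
    0, 0, -1, 0, 0, 0;
    0, 0, 0, 0, 0, 1;
    0, 0, 0, 0, -1, 0]

/-- `Sp(6, ℤ)` -/
def Sp6 : Subgroup (GL (Fin 6) ℤ) where
  carrier := {A | (A : Matrix (Fin 6) (Fin 6) ℤ) * J6 * (A : Matrix (Fin 6) (Fin 6) ℤ)ᵀ = J6}
  one_mem' := by simp
  mul_mem' := by
    intro A B hA hB
    simp only [Set.mem_ofPred_eq, Units.val_mul, Matrix.transpose_mul] at *
    calc (A : Matrix (Fin 6) (Fin 6) ℤ) * B * J6 * ((B : Matrix (Fin 6) (Fin 6) ℤ)ᵀ *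
          (A : Matrix (Fin 6) (Fin 6) ℤ)ᵀ)
        = A * (B * J6 * (B : Matrix (Fin 6) (Fin 6) ℤ)ᵀ) * (A : Matrix (Fin 6) (Fin 6) ℤ)ᵀ := by
          simp only [Matrix.mul_assoc]
      _ = J6 := by rw [hB, hA]
  inv_mem' := by
    intro A hA
    simp only [Set.mem_ofPred_eq] at *
    have h1 : ((A⁻¹ : GL (Fin 6) ℤ) : Matrix (Fin 6) (Fin 6) ℤ) * (A : Matrix (Fin 6) (Fin 6) ℤ)
        = 1 := by
      rw [← Units.val_mul]; simp
    have h2 : (A : Matrix (Fin 6) (Fin 6) ℤ)ᵀ *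
        ((A⁻¹ : GL (Fin 6) ℤ) : Matrix (Fin 6) (Fin 6) ℤ)ᵀ = 1 := by
      rw [← Matrix.transpose_mul, h1, Matrix.transpose_one]
    calc ((A⁻¹ : GL (Fin 6) ℤ) : Matrix (Fin 6) (Fin 6) ℤ) * J6 *
          ((A⁻¹ : GL (Fin 6) ℤ) : Matrix (Fin 6) (Fin 6) ℤ)ᵀ
        = ((A⁻¹ : GL (Fin 6) ℤ) : Matrix (Fin 6) (Fin 6) ℤ) *
            ((A : Matrix (Fin 6) (Fin 6) ℤ) * J6 * (A : Matrix (Fin 6) (Fin 6) ℤ)ᵀ) *
          ((A⁻¹ : GL (Fin 6) ℤ) : Matrix (Fin 6) (Fin 6) ℤ)ᵀ := by rw [hA]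
      _ = (((A⁻¹ : GL (Fin 6) ℤ) : Matrix (Fin 6) (Fin 6) ℤ) * (A : Matrix (Fin 6) (Fin 6) ℤ)) *
            J6 * ((A : Matrix (Fin 6) (Fin 6) ℤ)ᵀ *
              ((A⁻¹ : GL (Fin 6) ℤ) : Matrix (Fin 6) (Fin 6) ℤ)ᵀ) := by
          simp only [Matrix.mul_assoc]
      _ = J6 := by rw [h1, h2, Matrix.one_mul, Matrix.mul_one]

/-! ### The Heisenberg group -/

/-- the integral Heisenberg group -/
@[ext] private structure Mcg_He where
  a : ℤ
  b : ℤ
  c : ℤ

private instance : Mul Mcg_He := ⟨fun g h => ⟨g.a + h.a, g.b + h.b, g.c + h.c + g.a * h.b⟩⟩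
private instance : One Mcg_He := ⟨⟨0, 0, 0⟩⟩
private instance : Inv Mcg_He := ⟨fun g => ⟨-g.a, -g.b, -g.c + g.a * g.b⟩⟩

private theorem Mcg_mul (g h : Mcg_He) : g * h = ⟨g.a + h.a, g.b + h.b, g.c + h.c + g.a * h.b⟩ :=
  rfl
private theorem Mcg_one : (1 : Mcg_He) = ⟨0, 0, 0⟩ := rfl
private theorem Mcg_inv (g : Mcg_He) : g⁻¹ = ⟨-g.a, -g.b, -g.c + g.a * g.b⟩ := rfl

private instance : Group Mcg_He := Group.ofLeftAxioms
  (by
    intro x y z
    simp only [Mcg_mul, Mcg_He.mk.injEq]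
    refine ⟨?_, ?_, ?_⟩ <;> ring)
  (by
    intro x
    simp only [Mcg_mul, Mcg_one]
    ext <;> simp)
  (by
    intro x
    simp only [Mcg_mul, Mcg_one, Mcg_inv, Mcg_He.mk.injEq]
    refine ⟨?_, ?_, ?_⟩ <;> ring)

private theorem Mcg_comm (g h : Mcg_He) : cm g h = ⟨0, 0, g.a * h.b - h.a * g.b⟩ := by
  unfold cm
  simp only [Mcg_mul, Mcg_inv, Mcg_He.mk.injEq]
  refine ⟨?_, ?_, ?_⟩ <;> ring

/-- the coefficients of `X_i`, `X_j` and `X_i X_j` in the Magnus expansion -/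
private def Mcg_he (i j : Fin 6) : FreeGroup (Fin 6) →* Mcg_He :=
  FreeGroup.lift fun k => ⟨if k = i then 1 else 0, if k = j then 1 else 0, 0⟩

private theorem Mcg_he_a (i j : Fin 6) (x : FreeGroup (Fin 6)) :
    (Mcg_he i j x).a = (expo i x).toAdd := by
  let f : FreeGroup (Fin 6) →* Multiplicative ℤ :=
    { toFun := fun x => Multiplicative.ofAdd (Mcg_he i j x).a
      map_one' := by rw [map_one]; rfl
      map_mul' := fun x y => by rw [map_mul]; rfl }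
  have hf : f = expo i := by
    ext k
    simp [f, Mcg_he, expo]
  have := DFunLike.congr_fun hf x
  exact congrArg Multiplicative.toAdd this

private theorem Mcg_he_b (i j : Fin 6) (x : FreeGroup (Fin 6)) :
    (Mcg_he i j x).b = (expo j x).toAdd := by
  let f : FreeGroup (Fin 6) →* Multiplicative ℤ :=
    { toFun := fun x => Multiplicative.ofAdd (Mcg_he i j x).b
      map_one' := by rw [map_one]; rfl
      map_mul' := fun x y => by rw [map_mul]; rfl }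
  have hf : f = expo j := by
    ext k
    simp [f, Mcg_he, expo]
  have := DFunLike.congr_fun hf x
  exact congrArg Multiplicative.toAdd this

private theorem Mcg_he_comm (i j : Fin 6) (x y : FreeGroup (Fin 6)) :
    Mcg_he i j (cm x y) = ⟨0, 0, (expo i x).toAdd * (expo j y).toAdd -
      (expo i y).toAdd * (expo j x).toAdd⟩ := by
  have h : Mcg_he i j (cm x y) = cm (Mcg_he i j x) (Mcg_he i j y) := by
    unfold cm
    simp only [map_mul, map_inv]
  rw [h, Mcg_comm, Mcg_he_a, Mcg_he_b, Mcg_he_a, Mcg_he_b]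

private theorem Mcg_he_bw (i j : Fin 6) (φ : MulAut (FreeGroup (Fin 6))) :
    Mcg_he i j (φ bw) = ⟨0, 0, (abM φ * J6 * (abM φ)ᵀ) i j⟩ := by
  have h1 : φ bw = cm (φ (FreeGroup.of 0)) (φ (FreeGroup.of 1)) *
      cm (φ (FreeGroup.of 2)) (φ (FreeGroup.of 3)) *
      cm (φ (FreeGroup.of 4)) (φ (FreeGroup.of 5)) := by
    unfold bw cm
    simp only [map_mul, map_inv]
  rw [h1, map_mul, map_mul, Mcg_he_comm, Mcg_he_comm, Mcg_he_comm, Mcg_mul, Mcg_mul,
    Mcg_He.mk.injEq]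
  refine ⟨by simp, by simp, ?_⟩
  simp only [Matrix.mul_apply, Matrix.transpose_apply, Fin.sum_univ_six, J6, abM, Matrix.of_apply]
  simp
  ring

private theorem Mcg_abM {φ : MulAut (FreeGroup (Fin 6))} (hφ : φ ∈ MgA) :
    abM φ * J6 * (abM φ)ᵀ = J6 := by
  ext i j
  obtain ⟨g, hg⟩ := hφ
  have h1 : Mcg_he i j (φ bw) = Mcg_he i j bw := by
    have h2 : Mcg_he i j bw = ⟨0, 0, (abM (1 : MulAut (FreeGroup (Fin 6))) * J6 *
        (abM (1 : MulAut (FreeGroup (Fin 6))))ᵀ) i j⟩ := by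
      have h3 := Mcg_he_bw i j 1
      rwa [MulAut.one_apply] at h3
    rw [hg, map_mul, map_mul, h2, map_inv]
    simp only [Mcg_mul, Mcg_inv, Mcg_He.mk.injEq]
    refine ⟨?_, ?_, ?_⟩ <;> ring
  have h2 := Mcg_he_bw i j 1
  rw [MulAut.one_apply, abM_one, Matrix.one_mul, Matrix.transpose_one, Matrix.mul_one] at h2
  rw [Mcg_he_bw, h2, Mcg_He.mk.injEq] at h1
  exact h1.2.2

/-- `p` maps the mapping class group into the symplectic group. -/
theorem mg_sp (x : OutF (Fin 6)) (hx : x ∈ Mg) : pO x ∈ Sp6 := by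
  obtain ⟨φ, hφ, rfl⟩ := hx
  exact Mcg_abM hφ

/-- `p ∘ i` as a homomorphism to the symplectic group -/
def mgSp : Mg →* Sp6 where
  toFun x := ⟨pO x.1, mg_sp x.1 x.2⟩
  map_one' := by
    apply Subtype.ext
    exact map_one (pO (ι := Fin 6))
  map_mul' x y := by
    apply Subtype.ext
    exact map_mul (pO (ι := Fin 6)) x.1 y.1

/-- The question of the file. -/
theorem mcg (hp : HQ (pO (ι := Fin 6)) 8 ≠ 0)
    (h1 : Module.finrank ℚ (groupCohomology (Rep.trivial ℚ (GL (Fin 6) ℤ) ℚ) 8) = 1)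
    (h2 : Module.finrank ℚ (groupCohomology (Rep.trivial ℚ (OutF (Fin 6)) ℚ) 8) = 1)
    (h3 : Subsingleton (groupCohomology (Rep.trivial ℚ Sp6 ℚ) 8)) :
    Function.Bijective (HQ (pO (ι := Fin 6)) 8) ∧ HQ Mg.subtype 8 = 0 := by
  obtain ⟨h4, h5⟩ := cor8 hp h1 h2
  exact ⟨h4, h5 Mg Sp6 Mg.subtype mgSp Sp6.subtype rfl h3⟩

end Pool.Agent.Lib.Mor
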