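import Pool.Agent.Lib.Mor.Defs3
import Pool.Agent.Lib.Mor.HeMap

/-!
SURFACE MAPPING CLASSES ACT SYMPLECTICALLY (80 lines).
PROOF of mg_zeta: `mg (gc i j) = (0, e_i⊗e_j - e_j⊗e_i)` for generators `i`, `j` (compute in `He`: `He.mul_v`, `He.mul_c`, `He.inv_v`, `He.inv_c`, `ext`), and products of elements with `v = 0` add the `c`'s. Then compare the
36 entries (`fin_cases`/`decide`; `He` over `ℤ` is computable, so possibly `rfl`/`decide` after `ext`).
PROOF of surf_om: let `a` be an automorphism as in `Surf`; `pO (a : OutF _) = pA a`, whose matrix is `abM a` (`rfl`/`QuotientGroup.lift_mk`). By `mg_aut` (the `v` part of `zeta` is 0) `(mg (a zeta)).c = abM a * Om * (abM a)ᵀ`, and by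
`mg_conj` (`IsConj zeta (a zeta)`, symmetric) it is `(mg zeta).c = Om`.
-/

namespace Pool.Agent.Lib.Mor

open Matrix

/-- the intersection form -/
def Om : Matrix (Fin 6) (Fin 6) ℤ :=
  Matrix.of fun i j => if (j : ℕ) = (i : ℕ) + 3 then 1 else if (i : ℕ) = (j : ℕ) + 3 then -1 else 0

theorem mg_gc_aux (i j : Fin 6) : mg (Fin 6) (gc i j) =
    ⟨0, Matrix.of fun a b => (Pi.single i 1 : Fin 6 → ℤ) a * (Pi.single j 1 : Fin 6 → ℤ) b
      - (Pi.single j 1 : Fin 6 → ℤ) a * (Pi.single i 1 : Fin 6 → ℤ) b⟩ := by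
  have h : ∀ k : Fin 6, mg (Fin 6) (FreeGroup.of k) = ⟨Pi.single k 1, 0⟩ := by
    intro k
    simp [mg]
  unfold gc
  rw [map_mul, map_mul, map_mul, map_inv, map_inv, h, h]
  apply He.ext
  · simp only [He.mul_v, He.inv_v]
    abel
  · ext a b
    simp only [He.mul_v, He.mul_c, He.inv_v, He.inv_c, Matrix.add_apply, Matrix.neg_apply,
      Matrix.zero_apply, Matrix.of_apply, Pi.add_apply, Pi.neg_apply]
    ring

theorem mg_zeta : mg (Fin 6) zeta = ⟨0, Om⟩ := by
  unfold zeta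
  rw [map_mul, map_mul, mg_gc_aux, mg_gc_aux, mg_gc_aux]
  apply He.ext
  · simp only [He.mul_v]
    abel
  · ext a b
    simp only [He.mul_v, He.mul_c, Matrix.add_apply, Matrix.of_apply, Pi.add_apply, Pi.zero_apply,
      Om]
    revert a b
    decide

theorem surf_om (φ : OutF (Fin 6)) (h : Surf φ) :
    (pO φ : Matrix (Fin 6) (Fin 6) ℤ) * Om * (pO φ : Matrix (Fin 6) (Fin 6) ℤ)ᵀ = Om := by
  obtain ⟨a, rfl, hc⟩ := h
  have h1 : (pO (a : OutF (Fin 6)) : Matrix (Fin 6) (Fin 6) ℤ) = abM a := rfl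
  rw [h1]
  have hv : (mg (Fin 6) zeta).v = 0 := by rw [mg_zeta]
  have h2 := mg_aut a zeta hv
  have h3 := mg_conj zeta (a zeta) hv hc.symm
  rw [h3, mg_zeta] at h2
  exact h2.symm

end Pool.Agent.Lib.Mor
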