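import Pool.Agent.Lib.Mor.Defs3
import Pool.Agent.Lib.Mor.SpP

/-!
FACTORISATION THROUGH `Sp(6, ℤ)` (100 lines).
PROOF. Let `e : Fin 6 ≃ Fin 3 ⊕ Fin 3` be `finSumFinEquiv.symm` (`i < 3 ↦ inl i`, `i + 3 ↦ inr i`; as `Fin 6 = Fin (3 + 3)`). `reindex e e Om = fromBlocks 0 1 (-1) 0 = - J (Fin 3) ℤ`. So for `g : M` the matrix
`A g = reindex e e (pO (i g))` satisfies `A * (-J) * Aᵀ = -J`, i.e. `A * J * Aᵀ = J`, `A g ∈ symplecticGroup (Fin 3) ℤ` (`SymplecticGroup.mem_iff`). `a g = ⟨A g, _⟩` is a homomorphism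
(`Matrix.reindex`/`submatrix_mul_equiv` is multiplicative, `pO` and `i` are homomorphisms). `b : symplecticGroup (Fin 3) ℤ →* GL (Fin 6) ℤ`: the homomorphism to units given by the inverse reindexing, e.g.
`(Units.map (Matrix.reindexRingEquiv / reindexAlgEquiv e.symm).toMonoidHom).comp (Units-valued inclusion)`, or `MonoidHom.toHomUnits` of the monoid homomorphism `symplecticGroup → Matrix (Fin 6) (Fin 6) ℤ`
(`MonoidHom.toHomUnits : (G →* M) → G →* Mˣ` for a group `G`). Then `b (a g) = pO (i g)` as matrices (`Units.ext`).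
-/

namespace Pool.Agent.Lib.Mor

open Matrix

private def SpHom_e : Fin 3 ⊕ Fin 3 ≃ Fin 6 := finSumFinEquiv (m := 3) (n := 3)

private theorem SpHom_Om : Om.submatrix SpHom_e SpHom_e = -(J (Fin 3) ℤ) := by
  decide

private def SpHom_f :
    Matrix (Fin 6) (Fin 6) ℤ →* Matrix (Fin 3 ⊕ Fin 3) (Fin 3 ⊕ Fin 3) ℤ where
  toFun A := A.submatrix SpHom_e SpHom_e
  map_one' := Matrix.submatrix_one_equiv _
  map_mul' A B := (Matrix.submatrix_mul_equiv A B SpHom_e SpHom_e SpHom_e).symm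

private def SpHom_g :
    Matrix (Fin 3 ⊕ Fin 3) (Fin 3 ⊕ Fin 3) ℤ →* Matrix (Fin 6) (Fin 6) ℤ where
  toFun A := A.submatrix SpHom_e.symm SpHom_e.symm
  map_one' := Matrix.submatrix_one_equiv _
  map_mul' A B :=
    (Matrix.submatrix_mul_equiv A B SpHom_e.symm SpHom_e.symm SpHom_e.symm).symm

private theorem SpHom_gf (A : Matrix (Fin 6) (Fin 6) ℤ) : SpHom_g (SpHom_f A) = A := by
  ext i j
  simp [SpHom_g, SpHom_f]

private theorem SpHom_mem (A : Matrix (Fin 6) (Fin 6) ℤ) (h : A * Om * Aᵀ = Om) :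
    SpHom_f A ∈ Matrix.symplecticGroup (Fin 3) ℤ := by
  rw [SymplecticGroup.mem_iff]
  have h1 : SpHom_f Om = -(J (Fin 3) ℤ) := SpHom_Om
  have h2 : SpHom_f Aᵀ = (SpHom_f A)ᵀ := rfl
  have h3 : SpHom_f (A * Om * Aᵀ) = SpHom_f Om := by rw [h]
  rw [map_mul, map_mul, h1, h2] at h3
  rw [mul_neg, neg_mul, neg_inj] at h3
  exact h3

theorem surf_factor {M : Type} [Group M] (i : M →* OutF (Fin 6)) (h : ∀ g, Surf (i g)) :
    ∃ (a : M →* Matrix.symplecticGroup (Fin 3) ℤ)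
      (b : Matrix.symplecticGroup (Fin 3) ℤ →* GL (Fin 6) ℤ),
      (pO (ι := Fin 6)).comp i = b.comp a := by
  let c : M →* Matrix (Fin 6) (Fin 6) ℤ := (Units.coeHom _).comp ((pO (ι := Fin 6)).comp i)
  have hc : ∀ g, (SpHom_f.comp c) g ∈ Matrix.symplecticGroup (Fin 3) ℤ := fun g =>
    SpHom_mem _ (surf_om (i g) (h g))
  refine ⟨(SpHom_f.comp c).codRestrict (Matrix.symplecticGroup (Fin 3) ℤ) hc,
    (SpHom_g.comp (Matrix.symplecticGroup (Fin 3) ℤ).subtype).toHomUnits, ?_⟩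
  ext1 g
  apply Units.ext
  exact (SpHom_gf (c g)).symm

end Pool.Agent.Lib.Mor
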